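import Pool.Agent.Lib_helper43.NV.Knot

/-!
# Non-vanishing of the Kashaev invariants of knots: definitions

* `OP`: oriented elementary pieces (one crossing, a minimum, a maximum).
* `PP K T ops : ℤ[X]`: the state sum with effective labels `< T` (see below), times `X^(K * #ops)`.
* `NVData`: what the number theoretic part uses about the polynomials `P T`.
-/

set_option autoImplicit false

namespace Pool.Agent.NV

open Pool.Agent.Lib_helper77.VC Polynomial Finset

/-! ## Oriented pieces -/

/-- Oriented elementary pieces. `cr p pos oA oB`: a crossing (positive slice type `Rpos` if `pos`)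
between the strands `p`, `p+1`; `A` is the strand from below left (`p`) to above right (`p+1`), `B`
the strand from below right to above left; `oA`, `oB`: `true` if they are oriented upwards.
`cup p o`, `cap p o`: `o = true` if the left strand is oriented upwards. -/
inductive OP where
  | cr (p : ℕ) (pos : Bool) (oA oB : Bool)
  | cup (p : ℕ) (o : Bool)
  | cap (p : ℕ) (o : Bool)

/-- Forget the orientation. -/
def OP.piece : OP → Piece
  | .cr p pos _ _ => .twist p (if pos then 1 else -1)
  | .cup p _ => .cup p
  | .cap p _ => .cap p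

/-- The orientations below and above an oriented piece. -/
def OP.ofits : OP → List Bool → List Bool → Prop
  | .cr p _ oA oB, s, s' => ∃ u w, u.length = p ∧ s = u ++ oA :: oB :: w ∧ s' = u ++ oB :: oA :: w
  | .cup p o, s, s' => ∃ u w, u.length = p ∧ s = u ++ w ∧ s' = u ++ o :: (!o) :: w
  | .cap p o, s, s' => ∃ u w, u.length = p ∧ s = u ++ o :: (!o) :: w ∧ s' = u ++ w

/-- Labels constant along the strands. -/
def OP.cfits : OP → List Bool → List Bool → Prop
  | .cr p _ _ _, s, s' => ∃ u x y w, u.length = p ∧ s = u ++ x :: y :: w ∧ s' = u ++ y :: x :: w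
  | .cup p _, s, s' => ∃ u x w, u.length = p ∧ s = u ++ w ∧ s' = u ++ x :: x :: w
  | .cap p _, s, s' => ∃ u x w, u.length = p ∧ s = u ++ x :: x :: w ∧ s' = u ++ w

/-- `L` lists labels at all heights (bottom to top), with a step relation `R`. -/
def Steps {α β : Type} (R : β → List α → List α → Prop) : List β → List (List α) → Prop
  | [], L => ∃ s, L = [s]
  | P :: D, L => ∃ s s' L', L = s :: s' :: L' ∧ R P s s' ∧ Steps R D (s' :: L')

/-- A list of oriented pieces which is a knot diagram, cut at one point. -/
def OKnot (ops : List OP) : Prop :=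
  (∃ L, Steps OP.ofits ops ([true] :: L)) ∧
    ∀ (x : Bool) (L : List (List Bool)), Steps OP.cfits ops ([x] :: L) → ∀ s ∈ L, ∀ y ∈ s, y = x

/-- the state sum of a list of pieces -/
noncomputable def kval (N : ℕ) (D : List Piece) : ℂ :=
  (D.foldl (fun φ P => P.act N φ) (fun s => if s = [0] then 1 else 0)) [0]

/-! ## The polynomial state sum

The effective label of a strand with label `i` is `i` if it is oriented upwards and `N - 1 - i` if
it is oriented downwards. At a crossing one strand increases its effective label by `n` (in the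
direction of the orientation), the other one decreases it by `n`. -/

/-- Gaussian binomial coefficient in `X^4`. -/
noncomputable def gb : ℕ → ℕ → ℤ[X]
  | _, 0 => 1
  | 0, _ + 1 => 0
  | a + 1, n + 1 => gb a n + X ^ (4 * (n + 1)) * gb a (n + 1)

/-- `(X^(4(b+1)) - 1) ... (X^(4a) - 1)`. -/
noncomputable def fp (b a : ℕ) : ℤ[X] := ∏ g ∈ Ioc b a, (X ^ (4 * g) - 1)

/-- `±1` -/
def sg (o : Bool) : ℤ := if o then 1 else -1

/-- incoming label: `b` below, `a` above -/
def lin (o : Bool) (b a : ℕ) : ℕ := if o then b else a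

/-- outgoing label -/
def lout (o : Bool) (b a : ℕ) : ℕ := if o then a else b

/-- labels `i j` above, `k l` below; `A : k → j`, `B : l → i` (upwards) -/
def incIn (pos oA oB : Bool) (i j k l : ℕ) : ℕ := if pos then lin oA k j else lin oB l i
def incOut (pos oA oB : Bool) (i j k l : ℕ) : ℕ := if pos then lout oA k j else lout oB l i
def decIn (pos oA oB : Bool) (i j k l : ℕ) : ℕ := if pos then lin oB l i else lin oA k j
def decOut (pos oA oB : Bool) (i j k l : ℕ) : ℕ := if pos then lout oB l i else lout oA k j

/-- the power of `v` of a crossing, `n` the change of the labels -/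
def ex (pos oA oB : Bool) (i j k l : ℕ) (n : ℤ) : ℤ :=
  sg pos * (sg oA * sg oB * (2 * i + 1) * (2 * j + 1))
    - n * (sg oB * (2 * i + 1) - sg oA * (2 * j + 1)) - sg pos * (n * (n + 1))
    - n * (decIn pos oA oB i j k l + decOut pos oA oB i j k l + 1)
    - 2 * n * incIn pos oA oB i j k l

/-- the sign of a crossing -/
def sn (pos oA oB : Bool) (i j n : ℕ) : ℕ :=
  i + j + 1 + (if oA = oB then 0 else n) + (if pos then 0 else n)

/-- weight of a crossing, times `X^K` -/
noncomputable def cw (K : ℕ) (pos oA oB : Bool) (i j k l : ℕ) : ℤ[X] :=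
  if decOut pos oA oB i j k l ≤ decIn pos oA oB i j k l ∧
      incIn pos oA oB i j k l + decIn pos oA oB i j k l =
        incOut pos oA oB i j k l + decOut pos oA oB i j k l then
    let n := decIn pos oA oB i j k l - decOut pos oA oB i j k l
    (-1) ^ sn pos oA oB i j n * X ^ ((K : ℤ) + ex pos oA oB i j k l n).toNat *
      (fp (decOut pos oA oB i j k l) (decIn pos oA oB i j k l) *
        gb (incOut pos oA oB i j k l) n)
  else 0

/-- weight of a minimum with effective label `i`, times `X^K` -/
noncomputable def cupw (K : ℕ) (o : Bool) (i : ℕ) : ℤ[X] :=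
  if o then (-1) ^ (i + 1) * X ^ (K + 2 * (i + 1)) else (-1) ^ i * X ^ (K - 2 * i)

/-- weight of a maximum with effective label `i`, times `X^K` -/
noncomputable def capw (K : ℕ) (o : Bool) (i : ℕ) : ℤ[X] :=
  if o then (-1) ^ i * X ^ (K + 2 * i) else (-1) ^ (i + 1) * X ^ (K - 2 * (i + 1))

/-- The operator of an oriented piece, effective labels `< T`. -/
noncomputable def OP.act (K T : ℕ) : OP → (List ℕ → ℤ[X]) → (List ℕ → ℤ[X])
  | .cr p pos oA oB, φ => fun s => match s.drop p with
    | i :: j :: r => ∑ k ∈ range T, ∑ l ∈ range T,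
        cw K pos oA oB i j k l * φ (s.take p ++ k :: l :: r)
    | _ => 0
  | .cup p o, φ => fun s => match s.drop p with
    | i :: j :: r => if i = j then cupw K o i * φ (s.take p ++ r) else 0
    | _ => 0
  | .cap p o, φ => fun s => if p ≤ s.length then
      ∑ i ∈ range T, capw K o i * φ (s.take p ++ i :: i :: s.drop p) else 0

/-- The polynomial state sum. -/
noncomputable def PP (K T : ℕ) (ops : List OP) : ℤ[X] :=
  (ops.foldl (fun φ P => P.act K T φ) (fun s => if s = [0] then 1 else 0)) [0]

/-! ## Histories -/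

/-- the states below a piece, given the state above it -/
def OP.nb (T : ℕ) : OP → List ℕ → List (List ℕ)
  | .cr p _ _ _, s => match s.drop p with
    | _ :: _ :: r => (List.range T).flatMap fun k => (List.range T).map fun l =>
        s.take p ++ k :: l :: r
    | _ => []
  | .cup p _, s => match s.drop p with
    | i :: j :: r => if i = j then [s.take p ++ r] else []
    | _ => []
  | .cap p _, s => if p ≤ s.length then
      (List.range T).map fun i => s.take p ++ i :: i :: s.drop p else []

/-- the weight of a piece: `s` above, `s'` below -/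
noncomputable def OP.wt (K : ℕ) : OP → List ℕ → List ℕ → ℤ[X]
  | .cr p pos oA oB, s, s' => match s.drop p, s'.drop p with
    | i :: j :: _, k :: l :: _ => cw K pos oA oB i j k l
    | _, _ => 0
  | .cup p o, s, _ => match s.drop p with
    | i :: _ => cupw K o i
    | _ => 0
  | .cap p o, _, s' => match s'.drop p with
    | i :: _ => capw K o i
    | _ => 0

/-- histories, top state first; `rops`: pieces from top to bottom -/
def hist (T : ℕ) : List OP → List ℕ → List (List (List ℕ))
  | [], s => if s = [0] then [[s]] else []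
  | P :: rops, s => (P.nb T s).flatMap fun s' => (hist T rops s').map fun L => s :: L

/-- weight of a history -/
noncomputable def WW (K : ℕ) : List OP → List (List ℕ) → ℤ[X]
  | P :: rops, s :: s' :: L => P.wt K s s' * WW K rops (s' :: L)
  | _, _ => 1

/-- the thresholds `g` which the decreasing strand passes -/
def OP.ival : OP → List ℕ → List ℕ → Finset ℕ
  | .cr p pos oA oB, s, s' => match s.drop p, s'.drop p with
    | i :: j :: _, k :: l :: _ => Ioc (decOut pos oA oB i j k l) (decIn pos oA oB i j k l)
    | _, _ => ∅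
  | _, _, _ => ∅

/-- thresholds passed in a history -/
def passed : List OP → List (List ℕ) → Finset ℕ
  | P :: rops, s :: s' :: L => P.ival s s' ∪ passed rops (s' :: L)
  | _, _ => ∅

/-! ## The interface with number theory -/

/-- sum of the absolute values of the coefficients -/
noncomputable def l1 (P : ℤ[X]) : ℝ := ∑ i ∈ P.support, |(P.coeff i : ℝ)|

/-- `log |{n}!|` at the root of unity `exp(2 π i b / N)` -/
noncomputable def SS (N b n : ℕ) : ℝ :=
  ∑ h ∈ range n, Real.log |2 * Real.sin (Real.pi * ((h : ℝ) + 1) * b / N)|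

/-- Properties of the state sums used by the number theoretic part. -/
structure NVData (J : ℕ → ℂ) where
  P : ℕ → ℤ[X]
  C : ℝ
  hC : 1 ≤ C
  cong : ∀ T T', 1 ≤ T → T ≤ T' → ∃ a : ℕ,
    (∏ h ∈ range T, (X ^ (4 * (h + 1)) - 1 : ℤ[X])) ∣ P T' - X ^ a * P T
  val : ∀ N, 1 ≤ N → ‖J N‖ = ‖aeval (rt N) (P N)‖
  deg : ∀ T, 1 ≤ T → ((P T).natDegree : ℝ) ≤ C * T ^ 2
  norm : ∀ T, 1 ≤ T → l1 (P T) ≤ Real.exp (C * T)
  conj : ∀ N, 2 ≤ N → ∀ b : ℕ, b.Coprime (4 * N) → ∀ M : ℝ, 0 ≤ M →
    (∀ n, n < N → |SS N b n| ≤ M) → ‖aeval (rt N ^ b) (P N)‖ ≤ Real.exp (C * (Real.log N + M))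
  one : ∃ k : ℕ, P 1 = X ^ k ∨ P 1 = -X ^ k

/-- the primitive `4m`-th roots of unity are zeros of order at least `e` -/
def Van (P : ℕ → ℤ[X]) (m e : ℕ) : Prop :=
  ∀ T, 1 ≤ T → m * e ≤ T → cyclotomic (4 * m) ℤ ^ e ∣ P T

/-- the prime powers `q` prime to `m`, `P` vanishes at `mq` to order `E q` -/
def Good (P : ℕ → ℤ[X]) (m : ℕ) (F : Finset ℕ) (E : ℕ → ℕ) : Prop :=
  ∀ q ∈ F, IsPrimePow q ∧ q.Coprime m ∧ Van P (m * q) (E q)

/-- `y`-smooth numbers up to `X` -/
noncomputable def Sm (X : ℕ) (y : ℝ) : Finset ℕ := by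
  classical
  exact (Icc 1 X).filter (fun m => ∀ p : ℕ, p.Prime → p ∣ m → (p : ℝ) ≤ y)

end Pool.Agent.NV
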