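import Pool.Agent.Lib_helper43.NV.Defs
open Pool.Agent.Lib_helper77.VC Pool.Agent.NV

namespace Pool.Agent.NV

/-- The figure-eight knot, the closure of `(σ₁ σ₂⁻¹)²`. -/
def fig8 : Diagram :=
  ⟨[.cup 1, .cup 2, .twist 0 1, .twist 1 (-1), .twist 0 1, .twist 1 (-1), .cap 2, .cap 1], rfl⟩

theorem lab_step {α : Type} {r : α → α → Prop} {P : Piece} {D : List Piece} {s : List α}
    {L : List (List α)} (h : Labels r (P :: D) (s :: L)) :
    ∃ s' L', L = s' :: L' ∧ Fits r P s s' ∧ Labels r D (s' :: L') := by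
  obtain ⟨s0, s1, L1, e, f, h⟩ := h
  rw [List.cons_eq_cons] at e
  obtain ⟨rfl, rfl⟩ := e
  exact ⟨s1, L1, rfl, f, h⟩

theorem lab_cup {α : Type} {r : α → α → Prop} {p : ℕ} {s s' : List α} (h : Fits r (.cup p) s s') :
    ∃ x y, r x y ∧ s' = s.take p ++ x :: y :: s.drop p := by
  obtain ⟨u, x, y, w, rfl, rfl, rfl, hr⟩ := h
  exact ⟨x, y, hr, by simp⟩

theorem lab_cap {α : Type} {r : α → α → Prop} {p : ℕ} {s s' : List α} (h : Fits r (.cap p) s s') :
    ∃ x y w, r x y ∧ s.drop p = x :: y :: w ∧ s' = s.take p ++ w := by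
  obtain ⟨u, x, y, w, rfl, rfl, rfl, hr⟩ := h
  exact ⟨x, y, w, hr, by simp, by simp⟩

theorem lab_tw {α : Type} {r : α → α → Prop} {p : ℕ} {a : ℤ} {s s' : List α}
    (h : Fits r (.twist p a) s s') :
    ∃ x y w, s.drop p = x :: y :: w ∧ s' = if Even a then s else s.take p ++ y :: x :: w := by
  obtain ⟨u, x, y, w, rfl, rfl, rfl⟩ := h
  exact ⟨x, y, w, by simp, by simp⟩

theorem fig8_knot : IsKnot fig8 := by
  constructor
  · refine ⟨[[true, true, false], [true, true, true, false, false], [true, true, true, false, false],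
      [true, true, true, false, false], [true, true, true, false, false],
      [true, true, true, false, false], [true, true, false], [true]], ?_⟩
    refine ⟨_, _, _, rfl, ⟨[true], true, false, [], rfl, rfl, rfl, rfl⟩, ?_⟩
    refine ⟨_, _, _, rfl, ⟨[true, true], true, false, [false], rfl, rfl, rfl, rfl⟩, ?_⟩
    refine ⟨_, _, _, rfl, ⟨[], true, true, [true, false, false], rfl, rfl, by decide⟩, ?_⟩
    refine ⟨_, _, _, rfl, ⟨[true], true, true, [false, false], rfl, rfl, by decide⟩, ?_⟩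
    refine ⟨_, _, _, rfl, ⟨[], true, true, [true, false, false], rfl, rfl, by decide⟩, ?_⟩
    refine ⟨_, _, _, rfl, ⟨[true], true, true, [false, false], rfl, rfl, by decide⟩, ?_⟩
    refine ⟨_, _, _, rfl, ⟨[true, true], true, false, [false], rfl, rfl, rfl, rfl⟩, ?_⟩
    refine ⟨_, _, _, rfl, ⟨[true], true, false, [], rfl, rfl, rfl, rfl⟩, ?_⟩
    exact ⟨_, rfl⟩
  · intro x L h
    obtain ⟨s1, L1, rfl, f, h⟩ := lab_step h
    obtain ⟨a, b, rfl, rfl⟩ := lab_cup f
    obtain ⟨s2, L2, rfl, f, h⟩ := lab_step h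
    obtain ⟨c, d, rfl, rfl⟩ := lab_cup f
    obtain ⟨s3, L3, rfl, f, h⟩ := lab_step h
    obtain ⟨p3, q3, w3, e3, rfl⟩ := lab_tw f
    obtain ⟨s4, L4, rfl, f, h⟩ := lab_step h
    obtain ⟨p4, q4, w4, e4, rfl⟩ := lab_tw f
    obtain ⟨s5, L5, rfl, f, h⟩ := lab_step h
    obtain ⟨p5, q5, w5, e5, rfl⟩ := lab_tw f
    obtain ⟨s6, L6, rfl, f, h⟩ := lab_step h
    obtain ⟨p6, q6, w6, e6, rfl⟩ := lab_tw f
    obtain ⟨s7, L7, rfl, f, h⟩ := lab_step h
    obtain ⟨p7, q7, w7, rfl, e7, rfl⟩ := lab_cap f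
    obtain ⟨s8, L8, rfl, f, h⟩ := lab_step h
    obtain ⟨p8, q8, w8, rfl, e8, rfl⟩ := lab_cap f
    obtain ⟨s9, h9⟩ := h
    rw [List.cons_eq_cons] at h9
    obtain ⟨rfl, rfl⟩ := h9
    have o1 : ¬ Even (1 : ℤ) := by decide
    have o2 : ¬ Even (-1 : ℤ) := by decide
    simp only [List.take, List.drop, List.nil_append, List.cons_append, List.cons.injEq, o1, o2,
      if_false] at e3 e4 e5 e6 e7 e8 ⊢
    obtain ⟨rfl, rfl, rfl⟩ := e3
    try simp only [List.take, List.drop, List.nil_append, List.cons_append, List.cons.injEq] at e4 e5 e6 e7 e8 ⊢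
    obtain ⟨rfl, rfl, rfl⟩ := e4
    try simp only [List.take, List.drop, List.nil_append, List.cons_append, List.cons.injEq] at e5 e6 e7 e8 ⊢
    obtain ⟨rfl, rfl, rfl⟩ := e5
    try simp only [List.take, List.drop, List.nil_append, List.cons_append, List.cons.injEq] at e6 e7 e8 ⊢
    obtain ⟨rfl, rfl, rfl⟩ := e6
    try simp only [List.take, List.drop, List.nil_append, List.cons_append, List.cons.injEq] at e7 e8 ⊢
    obtain ⟨rfl, h7, rfl⟩ := e7
    try simp only [List.take, List.drop, List.nil_append, List.cons_append, List.cons.injEq] at e8 ⊢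
    obtain ⟨rfl, h8, rfl⟩ := e8
    simp_all

end Pool.Agent.NV
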