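import Pool.Agent.Lib_helper43.NV.Defs

set_option autoImplicit false

section

set_option autoImplicit false

namespace Pool.Agent.NV

open Pool.Agent.Lib_helper77.VC Polynomial Finset

/-- the actual label of a strand with effective label `i` -/
def el (N : ℕ) (o : Bool) (i : ℕ) : ℕ := if o then i else N - 1 - i

theorem rt_ne (N : ℕ) : rt N ≠ 0 := Complex.exp_ne_zero _

theorem rt_pow2 (N : ℕ) (hN : 1 ≤ N) : rt N ^ (2 * (N : ℤ)) = -1 := by
  have hN' : (N : ℂ) ≠ 0 := by exact_mod_cast (by omega : N ≠ 0)
  unfold rt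
  rw [← Complex.exp_int_mul, ← Complex.exp_pi_mul_I]
  congr 1
  push_cast
  field_simp

theorem norm_rt (N : ℕ) : ‖rt N‖ = 1 := by
  unfold rt
  have : (Real.pi * Complex.I / (2 * N) : ℂ) = ((Real.pi / (2 * N) : ℝ) : ℂ) * Complex.I := by
    push_cast; ring
  rw [this, Complex.norm_exp_ofReal_mul_I]

theorem conj_rt (N : ℕ) : (starRingEnd ℂ) (rt N) = (rt N)⁻¹ := by
  rw [Complex.inv_def, Complex.normSq_eq_norm_sq, norm_rt]
  simp

/-- `br` at the reflected argument -/
theorem br_refl (N : ℕ) (hN : 1 ≤ N) (g : ℤ) : br (rt N) (N - g) = br (rt N) g := by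
  have h := rt_pow2 N hN
  have h0 := rt_ne N
  unfold br
  have e1 : rt N ^ (2 * ((N : ℤ) - g)) = rt N ^ (2 * (N : ℤ)) * rt N ^ (-(2 * g)) := by
    rw [← zpow_add₀ h0]; congr 1; ring
  have e2 : rt N ^ (-(2 * ((N : ℤ) - g))) = (rt N ^ (2 * (N : ℤ)))⁻¹ * rt N ^ (2 * g) := by
    rw [← zpow_neg, ← zpow_add₀ h0]; congr 1; ring
  rw [e1, e2, h]
  norm_num
  ring

theorem br_pow (N : ℕ) (g : ℕ) : (rt N) ^ (4 * g) - 1 = rt N ^ (2 * g) * br (rt N) g := by
  have h0 := rt_ne N
  unfold br
  rw [mul_sub]
  have e1 : rt N ^ (2 * g) * rt N ^ (2 * (g : ℤ)) = rt N ^ (4 * g) := by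
    rw [← zpow_natCast, ← zpow_natCast, ← zpow_add₀ h0]; congr 1; push_cast; ring
  have e2 : rt N ^ (2 * g) * rt N ^ (-(2 * (g : ℤ))) = 1 := by
    rw [← zpow_natCast, ← zpow_add₀ h0]
    have : ((2 * g : ℕ) : ℤ) + -(2 * (g : ℤ)) = 0 := by push_cast; ring
    rw [this, zpow_zero]
  rw [e1, e2]

theorem sin_pos_of (N g : ℕ) (h1 : 1 ≤ g) (h2 : g < N) : 0 < Real.sin (Real.pi * g / N) := by
  have hN : (0 : ℝ) < N := by exact_mod_cast (by omega : 0 < N)
  apply Real.sin_pos_of_pos_of_lt_pi
  · have : (0 : ℝ) < g := by exact_mod_cast (by omega : 0 < g)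
    positivity
  · rw [div_lt_iff₀ hN]
    have : (g : ℝ) < N := by exact_mod_cast h2
    nlinarith [Real.pi_pos]

/-- `{g} = 2 i sin(π g / N)` -/
theorem br_sin (N : ℕ) (hN : 1 ≤ N) (g : ℤ) :
    br (rt N) g = 2 * Complex.I * ((Real.sin (Real.pi * g / N) : ℝ) : ℂ) := by
  have hN' : (N : ℂ) ≠ 0 := by exact_mod_cast (by omega : N ≠ 0)
  unfold br rt
  rw [← Complex.exp_int_mul, ← Complex.exp_int_mul]
  have e1 : (((2 * g : ℤ) : ℂ) * (Real.pi * Complex.I / (2 * N))) =
      (Real.pi * g / N : ℂ) * Complex.I := by push_cast; field_simp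
  have e2 : (((-(2 * g) : ℤ) : ℂ) * (Real.pi * Complex.I / (2 * N))) =
      -(Real.pi * g / N : ℂ) * Complex.I := by push_cast; field_simp
  rw [e1, e2]
  push_cast
  rw [Complex.sin]
  have hI : Complex.I * Complex.I = -1 := Complex.I_mul_I
  linear_combination (-(Complex.exp (-(Real.pi * g / N : ℂ) * Complex.I)) +
    Complex.exp ((Real.pi * g / N : ℂ) * Complex.I)) * hI

theorem br_ne (N g : ℕ) (h1 : 1 ≤ g) (h2 : g < N) : br (rt N) g ≠ 0 := by
  have h := br_sin N (by omega) g
  rw [h]
  have h3 := sin_pos_of N g h1 h2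
  simp only [Int.cast_natCast] at *
  have : (Real.sin (Real.pi * g / N) : ℝ) ≠ 0 := h3.ne'
  simp only [ne_eq, mul_eq_zero, Complex.I_ne_zero, Complex.ofReal_eq_zero, this]
  norm_num

theorem qfac_ne (N n : ℕ) (h : n < N) : qfac (rt N) n ≠ 0 := by
  unfold qfac
  rw [prod_ne_zero_iff]
  intro k hk
  rw [mem_range] at hk
  have := br_ne N (k + 1) (by omega) (by omega)
  push_cast at this
  exact this

/-- `{b+1} ... {a}` -/
noncomputable def fr (N b a : ℕ) : ℂ := ∏ g ∈ Ioc b a, br (rt N) g

theorem qfac_eq (N n : ℕ) : qfac (rt N) n = ∏ g ∈ Ioc 0 n, br (rt N) g := by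
  unfold qfac
  induction n with
  | zero => simp
  | succ n ih =>
    rw [prod_range_succ, ih, ← prod_Ioc_consecutive _ (Nat.zero_le n) (Nat.le_succ n)]
    congr 1
    simp

theorem qfac_mul (N b a : ℕ) (h : b ≤ a) : qfac (rt N) a = qfac (rt N) b * fr N b a := by
  unfold fr
  rw [qfac_eq, qfac_eq, prod_Ioc_consecutive _ (Nat.zero_le b) h]

theorem fr_refl (N b a : ℕ) (h : b ≤ a) (ha : a < N) :
    fr N (N - 1 - a) (N - 1 - b) = fr N b a := by
  unfold fr
  apply prod_bij (fun g _ => N - g)
  · intro g hg
    rw [mem_Ioc] at hg ⊢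
    omega
  · intro x hx y hy hxy
    simp only [mem_Ioc] at hx hy
    omega
  · intro g hg
    rw [mem_Ioc] at hg
    refine ⟨N - g, ?_, ?_⟩
    · rw [mem_Ioc]; omega
    · omega
  · intro g hg
    rw [mem_Ioc] at hg
    have := br_refl N (by omega) (g : ℤ)
    rw [← this]
    congr 1
    push_cast [Nat.cast_sub (show g ≤ N by omega)]
    ring

theorem aeval_fp (N b a : ℕ) (h : b ≤ a) :
    aeval (rt N) (fp b a) = rt N ^ ((a - b) * (a + b + 1)) * fr N b a := by
  unfold fp fr
  rw [map_prod]
  induction a, h using Nat.le_induction with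
  | base => simp
  | succ a hab ih =>
    rw [← prod_Ioc_consecutive _ hab (Nat.le_succ a), ih,
      ← prod_Ioc_consecutive _ hab (Nat.le_succ a)]
    have e : Ioc a a.succ = {a + 1} := by ext x; simp
    rw [e, prod_singleton, prod_singleton]
    simp only [map_sub, map_pow, aeval_X, map_one]
    rw [br_pow]
    obtain ⟨d, rfl⟩ : ∃ d, a = b + d := ⟨a - b, by omega⟩
    have e1 : b + d - b = d := by omega
    have e2 : b + d + 1 - b = d + 1 := by omega
    rw [e1, e2]
    push_cast
    ring

theorem aeval_gb (N a n : ℕ) (h : n ≤ a) (ha : a < N) :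
    aeval (rt N) (gb a n) * (qfac (rt N) n * qfac (rt N) (a - n)) =
      rt N ^ (2 * n * (a - n)) * qfac (rt N) a := by
  induction a generalizing n with
  | zero =>
    obtain rfl : n = 0 := by omega
    simp [gb, qfac]
  | succ a ih =>
    rcases n with _ | n
    · simp [gb, qfac]
    · rw [gb]
      simp only [map_add, map_mul, map_pow, aeval_X]
      have e0 : a + 1 - (n + 1) = a - n := by omega
      have q1 : qfac (rt N) (n + 1) = qfac (rt N) n * br (rt N) ((n : ℤ) + 1) := by
        unfold qfac; rw [prod_range_succ]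
      have q2 : qfac (rt N) (a + 1) = qfac (rt N) a * br (rt N) ((a : ℤ) + 1) := by
        unfold qfac; rw [prod_range_succ]
      have i1 := ih n (by omega) (by omega)
      rw [e0, q2, q1]
      rcases Nat.eq_or_lt_of_le (Nat.le_of_succ_le_succ h) with h1 | h1
      · subst h1
        have z : gb n (n + 1) = 0 := by
          have : ∀ a m, a < m → gb a m = 0 := by
            intro a
            induction a with
            | zero => intro m hm; rcases m with _ | m; · omega
                      · rfl
            | succ a iha =>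
              intro m hm
              rcases m with _ | m
              · omega
              · rw [gb, iha m (by omega), iha (m + 1) (by omega)]; simp
          exact this n (n + 1) (by omega)
        rw [z]
        simp only [map_zero, mul_zero, add_zero, Nat.sub_self] at i1 ⊢
        simp only [pow_zero, one_mul] at i1 ⊢
        have : aeval (rt N) (gb n n) * (qfac (rt N) n * br (rt N) ((n : ℤ) + 1) * qfac (rt N) 0) =
          (aeval (rt N) (gb n n) * (qfac (rt N) n * qfac (rt N) 0)) * br (rt N) ((n : ℤ) + 1) := by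
            ring
        rw [this, i1]
      · have i2 := ih (n + 1) (by omega) (by omega)
        obtain ⟨d, rfl⟩ : ∃ d, a = n + 1 + d := ⟨a - (n + 1), by omega⟩
        have e3 : n + 1 + d - (n + 1) = d := by omega
        have e4 : n + 1 + d - n = d + 1 := by omega
        rw [e3] at i2
        rw [e4] at i1 ⊢
        have q3 : qfac (rt N) (d + 1) = qfac (rt N) d * br (rt N) ((d : ℤ) + 1) := by
          unfold qfac; rw [prod_range_succ]
        rw [q1] at i2
        rw [q3] at i1 ⊢
        set t := rt N
        have key : br t (((n + 1 + d : ℕ) : ℤ) + 1) * t ^ (2 * (n + 1) * (d + 1)) =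
            t ^ (2 * n * (d + 1)) * br t ((n : ℤ) + 1) +
            t ^ (4 * (n + 1)) * (t ^ (2 * (n + 1) * d) * br t ((d : ℤ) + 1)) := by
          have h0 : t ≠ 0 := rt_ne N
          have b1 : ∀ m : ℕ, t ^ (2 * m) * br t m = t ^ (4 * m) - 1 := fun m => (br_pow N m).symm
          have a1 := b1 (n + 1)
          have a2 := b1 (d + 1)
          have a3 := b1 (n + 1 + d + 1)
          push_cast at a1 a2 a3 ⊢
          have f1 : t ^ (2 * (n + 1) * (d + 1)) = t ^ (2 * n * d) * t ^ (2 * n) * t ^ (2 * d) * t ^ 2 := by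
            rw [← pow_add, ← pow_add, ← pow_add]; congr 1; ring
          have f2 : t ^ (2 * n * (d + 1)) = t ^ (2 * n * d) * t ^ (2 * n) := by
            rw [← pow_add]; congr 1
          have f3 : t ^ (4 * (n + 1)) = (t ^ (2 * n)) ^ 2 * t ^ 4 := by
            rw [← pow_mul, ← pow_add]; congr 1; ring
          have f4 : t ^ (2 * (n + 1) * d) = t ^ (2 * n * d) * t ^ (2 * d) := by
            rw [← pow_add]; congr 1; ring
          have g1 : t ^ (2 * (n + 1)) = t ^ (2 * n) * t ^ 2 := by rw [← pow_add]; congr 1
          have g2 : t ^ (2 * (d + 1)) = t ^ (2 * d) * t ^ 2 := by rw [← pow_add]; congr 1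
          have g3 : t ^ (2 * (n + 1 + d + 1)) = t ^ (2 * n) * t ^ (2 * d) * t ^ 4 := by
            rw [← pow_add, ← pow_add]; congr 1; ring
          have g4 : t ^ (4 * (n + 1)) = (t ^ (2 * n)) ^ 2 * t ^ 4 := by
            rw [← pow_mul, ← pow_add]; congr 1; ring
          have g5 : t ^ (4 * (d + 1)) = (t ^ (2 * d)) ^ 2 * t ^ 4 := by
            rw [← pow_mul, ← pow_add]; congr 1; ring
          have g6 : t ^ (4 * (n + 1 + d + 1)) = (t ^ (2 * n)) ^ 2 * (t ^ (2 * d)) ^ 2 * t ^ 8 := by
            rw [← pow_mul, ← pow_mul, ← pow_add, ← pow_add]; congr 1; ring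
          rw [g1, g4] at a1
          rw [g2, g5] at a2
          rw [g3, g6] at a3
          rw [f1, f2, f3, f4]
          have hx : t ^ (2 * n) ≠ 0 := pow_ne_zero _ h0
          have hy : t ^ (2 * d) ≠ 0 := pow_ne_zero _ h0
          set x := t ^ (2 * n)
          set y := t ^ (2 * d)
          set w := t ^ (2 * n * d)
          have h2 : t ^ 2 ≠ 0 := pow_ne_zero _ h0
          apply mul_left_cancel₀ h2
          linear_combination w * a3 - w * a1 - w * x ^ 2 * t ^ 4 * a2
        linear_combination (t ^ (4 * (n + 1)) * br t ((d : ℤ) + 1)) * i2 +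
          br t ((n : ℤ) + 1) * i1 - (qfac t (n + 1 + d)) * key

theorem neg_one_pow_zpow (N : ℕ) (hN : 1 ≤ N) (z : ℤ) :
    rt N ^ (2 * (N : ℤ) * z) = (-1 : ℂ) ^ z := by
  rw [zpow_mul, rt_pow2 N hN]

theorem Rfac (N I J K L : ℕ) (hI : I < N) (hJ : J < N) (hK : K < N) (hL : L < N)
    (h1 : K + L = I + J) (h2 : K ≤ J) :
    qfac (rt N) L * qfac (rt N) (N - 1 - K) /
      (qfac (rt N) I * qfac (rt N) (J - K) * qfac (rt N) (N - 1 - J)) =
    fr N I L * (fr N K J / qfac (rt N) (J - K)) := by
  have a1 := qfac_mul N I L (by omega)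
  have a2 := qfac_mul N (N - 1 - J) (N - 1 - K) (by omega)
  rw [fr_refl N K J h2 hJ] at a2
  rw [a1, a2]
  have z1 := qfac_ne N I hI
  have z2 := qfac_ne N (J - K) (by omega)
  have z3 := qfac_ne N (N - 1 - J) (by omega)
  field_simp

theorem fr_div (N x y n : ℕ) (h : x ≤ y) (hx : x < N) (hn : n < N) :
    fr N x y / qfac (rt N) n = qfac (rt N) y / (qfac (rt N) x * qfac (rt N) n) := by
  rw [qfac_mul N x y h]
  have z1 := qfac_ne N x hx
  have z2 := qfac_ne N n hn
  field_simp

/-- `Rpos` in effective labels. -/
theorem Rpos_eff (N : ℕ) (hN : 1 ≤ N) (oA oB : Bool) (i j k l : ℕ) (hi : i < N) (hj : j < N)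
    (hk : k < N) (hl : l < N) :
    Rpos N (el N oB i) (el N oA j) (el N oA k) (el N oB l) =
      if decOut true oA oB i j k l ≤ decIn true oA oB i j k l ∧
        incIn true oA oB i j k l + decIn true oA oB i j k l =
          incOut true oA oB i j k l + decOut true oA oB i j k l then
      fr N (decOut true oA oB i j k l) (decIn true oA oB i j k l) *
        (qfac (rt N) (incOut true oA oB i j k l) / (qfac (rt N) (incIn true oA oB i j k l) *
          qfac (rt N) (decIn true oA oB i j k l - decOut true oA oB i j k l))) *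
        rt N ^ ((2 * (el N oB i : ℤ) - N + 1) * (2 * (el N oA j : ℤ) - N + 1)
      - 2 * ((decIn true oA oB i j k l : ℤ) - decOut true oA oB i j k l) *
          ((el N oB i : ℤ) - el N oA j) -
        ((decIn true oA oB i j k l : ℤ) - decOut true oA oB i j k l) *
          ((decIn true oA oB i j k l : ℤ) - decOut true oA oB i j k l + 1))
      else 0 := by
  unfold Rpos
  cases oA <;> cases oB <;>
    simp only [el, decOut, decIn, incIn, incOut, lin, lout, if_true, Bool.false_eq_true,
      if_false]
  all_goals
    split_ifs with h1 h2 h2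
  all_goals try rfl
  all_goals try omega
  · have e1 : N - 1 - j - (N - 1 - k) = i - l := by omega
    have e2 : ((N - 1 - j : ℕ) : ℤ) - ((N - 1 - k : ℕ) : ℤ) = (i : ℤ) - l := by omega
    rw [Rfac N (N - 1 - i) (N - 1 - j) (N - 1 - k) (N - 1 - l) (by omega) (by omega) (by omega)
      (by omega) h1.1 h1.2, fr_refl N l i h2.1 hi, fr_refl N j k (by omega) hk,
      fr_div N j k _ (by omega) hj (by omega), e1, e2]
  · have e1 : N - 1 - j - (N - 1 - k) = l - i := by omega
    have e2 : ((N - 1 - j : ℕ) : ℤ) - ((N - 1 - k : ℕ) : ℤ) = (l : ℤ) - i := by omega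
    rw [Rfac N i (N - 1 - j) (N - 1 - k) l (by omega) (by omega) (by omega)
      (by omega) h1.1 h1.2, fr_refl N j k (by omega) hk,
      fr_div N j k _ (by omega) hj (by omega), e1, e2]
  · have e1 : j - k = i - l := by omega
    have e2 : (j : ℤ) - k = (i : ℤ) - l := by omega
    rw [Rfac N (N - 1 - i) j k (N - 1 - l) (by omega) (by omega) (by omega)
      (by omega) h1.1 h1.2, fr_refl N l i h2.1 hi,
      fr_div N k j _ (by omega) hk (by omega), e1, e2]
  · have e1 : j - k = l - i := by omega
    have e2 : (j : ℤ) - k = (l : ℤ) - i := by omega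
    rw [Rfac N i j k l (by omega) (by omega) (by omega)
      (by omega) h1.1 h1.2, fr_div N k j _ (by omega) hk (by omega), e1, e2]

theorem conj_br (N : ℕ) (g : ℤ) : (starRingEnd ℂ) (br (rt N) g) = -br (rt N) g := by
  have h0 := rt_ne N
  unfold br
  rw [map_sub, map_zpow₀, map_zpow₀, conj_rt, inv_zpow', inv_zpow', neg_neg]
  ring

theorem conj_qfac (N n : ℕ) : (starRingEnd ℂ) (qfac (rt N) n) = (-1) ^ n * qfac (rt N) n := by
  unfold qfac
  rw [map_prod]
  simp only [conj_br]
  rw [prod_neg, card_range]

theorem conj_fr (N b a : ℕ) : (starRingEnd ℂ) (fr N b a) = (-1) ^ (a - b) * fr N b a := by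
  unfold fr
  rw [map_prod]
  simp only [conj_br]
  rw [prod_neg, Nat.card_Ioc]

/-- `Rneg` in effective labels. -/
theorem Rneg_eff (N : ℕ) (hN : 1 ≤ N) (oA oB : Bool) (i j k l : ℕ) (hi : i < N) (hj : j < N)
    (hk : k < N) (hl : l < N) :
    Rneg N (el N oB i) (el N oA j) (el N oA k) (el N oB l) =
      if decOut false oA oB i j k l ≤ decIn false oA oB i j k l ∧
        incIn false oA oB i j k l + decIn false oA oB i j k l =
          incOut false oA oB i j k l + decOut false oA oB i j k l then
      (-1) ^ (decIn false oA oB i j k l - decOut false oA oB i j k l) *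
      (fr N (decOut false oA oB i j k l) (decIn false oA oB i j k l) *
        (qfac (rt N) (incOut false oA oB i j k l) / (qfac (rt N) (incIn false oA oB i j k l) *
          qfac (rt N) (decIn false oA oB i j k l - decOut false oA oB i j k l)))) *
        rt N ^ (-((2 * (el N oB i : ℤ) - N + 1) * (2 * (el N oA j : ℤ) - N + 1)
      - 2 * ((decIn false oA oB i j k l : ℤ) - decOut false oA oB i j k l) *
          ((el N oA j : ℤ) - el N oB i) -
        ((decIn false oA oB i j k l : ℤ) - decOut false oA oB i j k l) *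
          ((decIn false oA oB i j k l : ℤ) - decOut false oA oB i j k l + 1)))
      else 0 := by
  have h := Rpos_eff N hN oB oA j i l k hj hi hl hk
  unfold Rneg
  rw [h]
  have d1 : decOut true oB oA j i l k = decOut false oA oB i j k l := rfl
  have d2 : decIn true oB oA j i l k = decIn false oA oB i j k l := rfl
  have d3 : incIn true oB oA j i l k = incIn false oA oB i j k l := rfl
  have d4 : incOut true oB oA j i l k = incOut false oA oB i j k l := rfl
  rw [d1, d2, d3, d4]
  set p := decOut false oA oB i j k l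
  set q := decIn false oA oB i j k l
  set x := incIn false oA oB i j k l
  set y := incOut false oA oB i j k l
  by_cases hc : p ≤ q ∧ x + q = y + p
  · rw [if_pos hc, if_pos hc]
    have hy : y = x + (q - p) := by omega
    have s1 : ((-1 : ℂ) ^ x * (-1) ^ (q - p)) ≠ 0 := by
      rw [← pow_add]; exact pow_ne_zero _ (by norm_num)
    simp only [map_mul, map_div₀, conj_fr, conj_qfac, map_zpow₀, conj_rt, inv_zpow']
    have e1 : (-1 : ℂ) ^ y = (-1) ^ x * (-1) ^ (q - p) := by rw [hy, pow_add]
    rw [e1]
    have e2 : (-1 : ℂ) ^ x * (-1) ^ (q - p) * qfac (rt N) y /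
        ((-1) ^ x * qfac (rt N) x * ((-1) ^ (q - p) * qfac (rt N) (q - p))) =
        qfac (rt N) y / (qfac (rt N) x * qfac (rt N) (q - p)) := by
      rw [show (-1 : ℂ) ^ x * qfac (rt N) x * ((-1) ^ (q - p) * qfac (rt N) (q - p)) =
        ((-1 : ℂ) ^ x * (-1) ^ (q - p)) * (qfac (rt N) x * qfac (rt N) (q - p)) by ring,
        mul_div_mul_left _ _ s1]
    rw [e2, mul_comm (2 * (el N oA j : ℤ) - N + 1) (2 * (el N oB i : ℤ) - N + 1)]
    ring
  · rw [if_neg hc, if_neg hc, map_zero]

theorem two_el (N : ℕ) (o : Bool) (i : ℕ) (hi : i < N) :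
    2 * (el N o i : ℤ) - N + 1 = sg o * (2 * i + 1 - N) := by
  cases o
  · have : ((N - 1 - i : ℕ) : ℤ) = N - 1 - i := by omega
    simp only [el, sg, Bool.false_eq_true, if_false, this]
    ring
  · simp only [el, sg, if_true]
    ring

theorem sg_sq (o : Bool) : sg o * sg o = 1 := by cases o <;> simp [sg]

theorem neg_one_zpow_sg (o : Bool) (z : ℤ) : (-1 : ℂ) ^ (sg o * z) = (-1) ^ z := by
  cases o
  · simp only [sg, Bool.false_eq_true, if_false]
    rw [neg_one_mul, zpow_neg, ← inv_zpow]
    norm_num
  · simp [sg]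

/-- the exponent without the terms which make the weights polynomials -/
def ex0 (pos oA oB : Bool) (i j : ℕ) (n : ℤ) : ℤ :=
  sg pos * (sg oA * sg oB * (2 * i + 1) * (2 * j + 1))
    - n * (sg oB * (2 * i + 1) - sg oA * (2 * j + 1)) - sg pos * (n * (n + 1))

theorem neg_one_zpow_eq (z : ℤ) (m : ℕ) (w : ℤ) (h : z = m + 2 * w) : (-1 : ℂ) ^ z = (-1) ^ m := by
  rw [h, zpow_add₀ (by norm_num), zpow_mul, zpow_natCast]
  norm_num

/-- the power of `t` -/
theorem pow_eff (N : ℕ) (hN : 1 ≤ N) (pos oA oB : Bool) (i j n : ℕ) (hi : i < N) (hj : j < N) :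
    rt N ^ (if pos then ((2 * (el N oB i : ℤ) - N + 1) * (2 * (el N oA j : ℤ) - N + 1)
      - 2 * n * ((el N oB i : ℤ) - el N oA j) - n * ((n : ℤ) + 1)) else
      -((2 * (el N oB i : ℤ) - N + 1) * (2 * (el N oA j : ℤ) - N + 1)
      - 2 * n * ((el N oA j : ℤ) - el N oB i) - n * ((n : ℤ) + 1))) =
    rt N ^ (sg pos * (sg oA * sg oB) * (N : ℤ) ^ 2) *
      (-1) ^ (i + j + 1 + (if oA = oB then 0 else n)) * rt N ^ ex0 pos oA oB i j n := by
  have h0 := rt_ne N
  have cI : ((N - 1 - i : ℕ) : ℤ) = N - 1 - i := by omega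
  have cJ : ((N - 1 - j : ℕ) : ℤ) = N - 1 - j := by omega
  have key : ∀ z w : ℤ, ∀ m : ℕ, ∀ a b E : ℤ, E = a + 2 * N * z + b → z = m + 2 * w →
      rt N ^ E = rt N ^ a * (-1) ^ m * rt N ^ b := by
    intro z w m a b E hE hz
    rw [hE, zpow_add₀ h0, zpow_add₀ h0, neg_one_pow_zpow N hN, neg_one_zpow_eq z m w hz]
  cases pos <;> cases oA <;> cases oB <;>
    simp only [el, sg, ex0, if_true, Bool.false_eq_true, if_false, cI, cJ, reduceCtorEq]
  · exact key ((i : ℤ) + j + 1) 0 _ _ _ _ (by ring) (by push_cast; ring)
  · exact key (-((i : ℤ) + j + 1) + n) (-((i : ℤ) + j + 1)) _ _ _ _ (by ring) (by push_cast; ring)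
  · exact key (-((i : ℤ) + j + 1) - n) (-((i : ℤ) + j + 1) - n) _ _ _ _ (by ring)
      (by push_cast; ring)
  · exact key ((i : ℤ) + j + 1) 0 _ _ _ _ (by ring) (by push_cast; ring)
  · exact key (-((i : ℤ) + j + 1)) (-((i : ℤ) + j + 1)) _ _ _ _ (by ring) (by push_cast; ring)
  · exact key ((i : ℤ) + j + 1 + n) 0 _ _ _ _ (by ring) (by push_cast; ring)
  · exact key ((i : ℤ) + j + 1 - n) (- n) _ _ _ _ (by ring) (by push_cast; ring)
  · exact key (-((i : ℤ) + j + 1)) (-((i : ℤ) + j + 1)) _ _ _ _ (by ring) (by push_cast; ring)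

theorem abs_sg (o : Bool) : |sg o| = 1 := by cases o <;> simp [sg]

theorem ex_bound (N : ℕ) (pos oA oB : Bool) (i j k l : ℕ) (hi : i < N) (hj : j < N)
    (hk : k < N) (hl : l < N) (n : ℤ) (hn0 : 0 ≤ n) (hn : n < N) :
    |ex pos oA oB i j k l n| ≤ 20 * (N : ℤ) ^ 2 := by
  have d1 : (decIn pos oA oB i j k l : ℤ) < N := by
    cases pos <;> cases oA <;> cases oB <;> simp [decIn, lin] <;> assumption
  have d2 : (decOut pos oA oB i j k l : ℤ) < N := by
    cases pos <;> cases oA <;> cases oB <;> simp [decOut, lout] <;> assumption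
  have d3 : (incIn pos oA oB i j k l : ℤ) < N := by
    cases pos <;> cases oA <;> cases oB <;> simp [incIn, lin] <;> assumption
  have i' : (i : ℤ) < N := by exact_mod_cast hi
  have j' : (j : ℤ) < N := by exact_mod_cast hj
  unfold ex
  set p := (decIn pos oA oB i j k l : ℤ)
  set q := (decOut pos oA oB i j k l : ℤ)
  set x := (incIn pos oA oB i j k l : ℤ)
  have hp : 0 ≤ p := Int.natCast_nonneg _
  have hq : 0 ≤ q := Int.natCast_nonneg _
  have hx : 0 ≤ x := Int.natCast_nonneg _
  have hi0 : (0 : ℤ) ≤ i := Int.natCast_nonneg _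
  have hj0 : (0 : ℤ) ≤ j := Int.natCast_nonneg _
  have b1 : |sg pos * (sg oA * sg oB * (2 * (i:ℤ) + 1) * (2 * j + 1))| ≤ 4 * (N : ℤ) ^ 2 := by
    rw [abs_mul, abs_mul, abs_mul, abs_mul, abs_sg, abs_sg, abs_sg, abs_of_nonneg (by linarith : 0 ≤ 2 * (i:ℤ) + 1),
      abs_of_nonneg (by linarith : 0 ≤ 2 * (j:ℤ) + 1)]
    nlinarith
  have b2 : |n * (sg oB * (2 * (i:ℤ) + 1) - sg oA * (2 * j + 1))| ≤ 4 * (N : ℤ) ^ 2 := by
    rw [abs_mul, abs_of_nonneg hn0]
    have : |sg oB * (2 * (i:ℤ) + 1) - sg oA * (2 * j + 1)| ≤ 4 * N := by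
      refine (abs_sub _ _).trans ?_
      rw [abs_mul, abs_mul, abs_sg, abs_sg, abs_of_nonneg (by linarith : 0 ≤ 2 * (i:ℤ) + 1),
      abs_of_nonneg (by linarith : 0 ≤ 2 * (j:ℤ) + 1)]
      linarith
    nlinarith [abs_nonneg (sg oB * (2 * (i:ℤ) + 1) - sg oA * (2 * j + 1))]
  have b3 : |sg pos * (n * (n + 1))| ≤ (N : ℤ) ^ 2 := by
    rw [abs_mul, abs_sg, abs_of_nonneg (by positivity)]
    nlinarith
  have b4 : |n * (p + q + 1)| ≤ 2 * (N : ℤ) ^ 2 := by
    rw [abs_of_nonneg (by positivity)]
    nlinarith
  have b5 : |2 * n * x| ≤ 2 * (N : ℤ) ^ 2 := by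
    rw [abs_of_nonneg (by positivity)]
    nlinarith
  rw [abs_le] at b1 b2 b3 b4 b5 ⊢
  constructor <;> nlinarith [b1.1, b1.2, b2.1, b2.2, b3.1, b3.2, b4.1, b4.2, b5.1, b5.2]

/-- B02. The R-matrix in effective labels. -/
theorem b02 (N : ℕ) (hN : 1 ≤ N) (K : ℕ) (hK : 20 * N ^ 2 ≤ K) (pos oA oB : Bool) :
    ∃ κ : ℂ, ‖κ‖ = 1 ∧ ∀ i j k l : ℕ, i < N → j < N → k < N → l < N →
      (if pos then Rpos N else Rneg N) (el N oB i) (el N oA j) (el N oA k) (el N oB l) =
        κ * aeval (rt N) (cw K pos oA oB i j k l) := by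
  have h0 := rt_ne N
  refine ⟨rt N ^ (sg pos * (sg oA * sg oB) * (N : ℤ) ^ 2) * rt N ^ (-(K : ℤ)), ?_, ?_⟩
  · rw [norm_mul, norm_zpow, norm_zpow, norm_rt, one_zpow, one_zpow, one_mul]
  intro i j k l hi hj hk hl
  unfold cw
  have dec : decIn pos oA oB i j k l < N := by
    cases pos <;> cases oA <;> cases oB <;> simp [decIn, lin] <;> assumption
  have din : incOut pos oA oB i j k l < N := by
    cases pos <;> cases oA <;> cases oB <;> simp [incOut, lout] <;> assumption
  by_cases hc : decOut pos oA oB i j k l ≤ decIn pos oA oB i j k l ∧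
      incIn pos oA oB i j k l + decIn pos oA oB i j k l =
        incOut pos oA oB i j k l + decOut pos oA oB i j k l
  · rw [if_pos hc]
    set n := decIn pos oA oB i j k l - decOut pos oA oB i j k l with hn
    have hnz : (decIn pos oA oB i j k l : ℤ) - decOut pos oA oB i j k l = n := by omega
    have hy : incOut pos oA oB i j k l = incIn pos oA oB i j k l + n := by omega
    have hexb := ex_bound N pos oA oB i j k l hi hj hk hl n (Int.natCast_nonneg _) (by omega)
    have hex0 : (0 : ℤ) ≤ K + ex pos oA oB i j k l n := by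
      have : (20 * (N : ℤ) ^ 2) ≤ K := by exact_mod_cast hK
      rw [abs_le] at hexb
      linarith [hexb.1]
    have hgb := aeval_gb N (incOut pos oA oB i j k l) n (by omega) din
    have hfp := aeval_fp N (decOut pos oA oB i j k l) (decIn pos oA oB i j k l) hc.1
    have hpe := pow_eff N hN pos oA oB i j n hi hj
    have e3 : incOut pos oA oB i j k l - n = incIn pos oA oB i j k l := by omega
    rw [e3] at hgb
    have z1 := qfac_ne N n (by omega)
    have z2 := qfac_ne N (incIn pos oA oB i j k l) (by omega)
    have hgb' : aeval (rt N) (gb (incOut pos oA oB i j k l) n) =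
        rt N ^ (2 * n * incIn pos oA oB i j k l) * (qfac (rt N) (incOut pos oA oB i j k l) /
          (qfac (rt N) (incIn pos oA oB i j k l) * qfac (rt N) n)) := by
      field_simp
      linear_combination hgb
    have hx : rt N ^ ((K : ℤ) + ex pos oA oB i j k l n).toNat =
        rt N ^ (K : ℤ) * rt N ^ ex0 pos oA oB i j n *
          (rt N ^ (n * (decIn pos oA oB i j k l + decOut pos oA oB i j k l + 1)))⁻¹ *
          (rt N ^ (2 * n * incIn pos oA oB i j k l))⁻¹ := by
      rw [← zpow_natCast, Int.toNat_of_nonneg hex0, ← zpow_natCast, ← zpow_natCast, ← zpow_neg,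
        ← zpow_neg, ← zpow_add₀ h0, ← zpow_add₀ h0, ← zpow_add₀ h0]
      congr 1
      unfold ex ex0
      push_cast
      ring
    have hL : (if pos then Rpos N else Rneg N) (el N oB i) (el N oA j) (el N oA k) (el N oB l) =
        (-1) ^ (if pos then 0 else n) * (fr N (decOut pos oA oB i j k l)
          (decIn pos oA oB i j k l) * (qfac (rt N) (incOut pos oA oB i j k l) /
          (qfac (rt N) (incIn pos oA oB i j k l) * qfac (rt N) n))) *
        rt N ^ (if pos then ((2 * (el N oB i : ℤ) - N + 1) * (2 * (el N oA j : ℤ) - N + 1)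
      - 2 * n * ((el N oB i : ℤ) - el N oA j) - n * ((n : ℤ) + 1)) else
      -((2 * (el N oB i : ℤ) - N + 1) * (2 * (el N oA j : ℤ) - N + 1)
      - 2 * n * ((el N oA j : ℤ) - el N oB i) - n * ((n : ℤ) + 1))) := by
      cases pos
      · have := Rneg_eff N hN oA oB i j k l hi hj hk hl
        rw [if_pos hc, hnz, ← hn] at this
        simp only [Bool.false_eq_true, if_false]
        exact this
      · have := Rpos_eff N hN oA oB i j k l hi hj hk hl
        rw [if_pos hc, hnz, ← hn] at this
        simp only [if_true, pow_zero, one_mul]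
        exact this
    rw [hL, hpe]
    simp only [map_mul, map_pow, map_neg, map_one, aeval_X]
    rw [hgb', hfp, hx]
    have e4 : (decIn pos oA oB i j k l - decOut pos oA oB i j k l) *
        (decIn pos oA oB i j k l + decOut pos oA oB i j k l + 1) =
        n * (decIn pos oA oB i j k l + decOut pos oA oB i j k l + 1) := by rw [hn]
    rw [e4]
    have e5 : (-1 : ℂ) ^ sn pos oA oB i j n = (-1) ^ (i + j + 1 + (if oA = oB then 0 else n)) *
        (-1) ^ (if pos then 0 else n) := by
      rw [← pow_add]; rfl
    rw [e5]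
    have w1 : rt N ^ (n * (decIn pos oA oB i j k l + decOut pos oA oB i j k l + 1)) ≠ 0 :=
      pow_ne_zero _ h0
    have w2 : rt N ^ (2 * n * incIn pos oA oB i j k l) ≠ 0 := pow_ne_zero _ h0
    have w3 : rt N ^ (K : ℤ) ≠ 0 := zpow_ne_zero _ h0
    rw [zpow_neg]
    field_simp
  · rw [if_neg hc, map_zero, mul_zero]
    cases pos
    · have := Rneg_eff N hN oA oB i j k l hi hj hk hl
      rw [if_neg hc] at this
      simpa using this
    · have := Rpos_eff N hN oA oB i j k l hi hj hk hl
      rw [if_neg hc] at this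
      simpa using this

end Pool.Agent.NV

end

section

set_option autoImplicit false

namespace Pool.Agent.NV

open Pool.Agent.Lib_helper77.VC Polynomial Finset

/-- `n` consecutive crossings -/
def b01_blk (p : ℕ) (pos : Bool) : Bool → Bool → ℕ → List OP
  | _, _, 0 => []
  | x, y, n + 1 => .cr p pos x y :: b01_blk p pos y x n

theorem b01_ofits (p : ℕ) (pos : Bool) (u w : List Bool) (hu : u.length = p) (ops : List OP)
    (L : List (List Bool)) : ∀ (n : ℕ) (x y : Bool),
    Steps OP.ofits ops ((if Even n then u ++ x :: y :: w else u ++ y :: x :: w) :: L) →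
      ∃ L', Steps OP.ofits (b01_blk p pos x y n ++ ops) ((u ++ x :: y :: w) :: L') := by
  intro n
  induction n with
  | zero =>
    intro x y h
    refine ⟨L, ?_⟩
    simpa [b01_blk] using h
  | succ n ih =>
    intro x y h
    have h1 : (if Even (n + 1) then u ++ x :: y :: w else u ++ y :: x :: w) =
        (if Even n then u ++ y :: x :: w else u ++ x :: y :: w) := by
      by_cases hn : Even n
      · have h2 : ¬ Even (n + 1) := by
          rw [Nat.even_add_one]
          exact fun h3 => h3 hn
        rw [if_pos hn, if_neg h2]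
      · have h2 : Even (n + 1) := Nat.even_add_one.2 hn
        rw [if_neg hn, if_pos h2]
    rw [h1] at h
    obtain ⟨L', hL'⟩ := ih y x h
    refine ⟨(u ++ y :: x :: w) :: L', ?_⟩
    exact ⟨_, _, L', rfl, ⟨u, w, hu, rfl, rfl⟩, hL'⟩

theorem b01_split (p : ℕ) (t : List Bool) (h : p + 2 ≤ t.length) :
    ∃ u a b w, u.length = p ∧ t = u ++ a :: b :: w := by
  have h1 : (t.drop p).length = t.length - p := List.length_drop
  rcases h2 : t.drop p with _ | ⟨a, _ | ⟨b, w⟩⟩
  · rw [h2] at h1
    simp at h1
    omega
  · rw [h2] at h1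
    simp at h1
    omega
  · refine ⟨t.take p, a, b, w, ?_, ?_⟩
    · rw [List.length_take]
      omega
    · rw [← h2, List.take_append_drop]

theorem b01_cfits (p : ℕ) (pos : Bool) (ops : List OP) : ∀ (n : ℕ) (x y : Bool)
    (t : List Bool) (M : List (List Bool)), p + 2 ≤ t.length →
    Steps OP.cfits (b01_blk p pos x y n ++ ops) (t :: M) →
      ∃ t' M', Steps OP.cfits ops (t' :: M') ∧ t'.length = t.length ∧
        (∃ u a b w, u.length = p ∧ t = u ++ a :: b :: w ∧
          t' = if Even n then t else u ++ b :: a :: w) ∧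
        (∀ c, (∀ z ∈ t, z = c) → (∀ s ∈ t' :: M', ∀ z ∈ s, z = c) →
          ∀ s ∈ M, ∀ z ∈ s, z = c) := by
  intro n
  induction n with
  | zero =>
    intro x y t M hl h
    obtain ⟨u, a, b, w, hu, ht⟩ := b01_split p t hl
    refine ⟨t, M, by simpa [b01_blk] using h, rfl, ⟨u, a, b, w, hu, ht, by simp⟩, ?_⟩
    intro c _ h2 s hs
    exact h2 s (List.mem_cons_of_mem _ hs)
  | succ n ih =>
    intro x y t M hl h
    obtain ⟨s, s', L', he, ⟨u, a, b, w, hu, hs, hs'⟩, hst⟩ := h
    rw [List.cons.injEq] at he
    obtain ⟨he1, he2⟩ := he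
    subst he1
    subst he2
    have hl' : s'.length = t.length := by
      rw [hs, hs']
      simp
    obtain ⟨t', M', h1, h2, ⟨u2, a2, b2, w2, hu2, h3, h4⟩, h5⟩ := ih y x s' L' (by omega) hst
    refine ⟨t', M', h1, h2.trans hl', ⟨u, a, b, w, hu, hs, ?_⟩, ?_⟩
    · rw [hs'] at h3
      obtain ⟨e1, e2⟩ := List.append_inj h3 (hu.trans hu2.symm)
      simp only [List.cons.injEq] at e2
      obtain ⟨e3, e4, e5⟩ := e2
      subst e1 e3 e4 e5
      rw [h4]
      by_cases hn : Even n
      · have h6 : ¬ Even (n + 1) := by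
          rw [Nat.even_add_one]
          exact fun h7 => h7 hn
        rw [if_pos hn, if_neg h6]
        exact hs'
      · have h6 : Even (n + 1) := Nat.even_add_one.2 hn
        rw [if_neg hn, if_pos h6]
        exact hs.symm
    · intro c hc1 hc2
      have hc3 : ∀ z ∈ s', z = c := by
        intro z hz
        apply hc1
        rw [hs]
        rw [hs'] at hz
        simp only [List.mem_append, List.mem_cons] at hz ⊢
        tauto
      intro s hs2
      rcases List.mem_cons.1 hs2 with h6 | h6
      · rw [h6]
        exact hc3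
      · exact h5 c hc3 hc2 s h6

theorem b01_fold (p : ℕ) (pos : Bool) (N : ℕ) : ∀ (n : ℕ) (x y : Bool) (φ : List ℕ → ℂ),
    ((b01_blk p pos x y n).map OP.piece).foldl (fun φ P => P.act N φ) φ =
      (crossAct (if pos then Rpos N else Rneg N) N p)^[n] φ := by
  intro n
  induction n with
  | zero =>
    intro x y φ
    rfl
  | succ n ih =>
    intro x y φ
    rw [b01_blk, List.map_cons, List.foldl_cons, ih, Function.iterate_succ_apply]
    congr 1
    cases pos
    · simp [OP.piece, Piece.act]
    · simp [OP.piece, Piece.act]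

theorem b01_main : ∀ (D : List Piece) (s : List Bool) (L : List (List Bool)),
    Labels (fun x y => y = !x) D (s :: L) →
    ∃ (ops : List OP) (L' : List (List Bool)), Steps OP.ofits ops (s :: L') ∧
      (∀ (N : ℕ) (φ : List ℕ → ℂ), (ops.map OP.piece).foldl (fun φ P => P.act N φ) φ =
        D.foldl (fun φ P => P.act N φ) φ) ∧
      (∀ (t : List Bool) (M : List (List Bool)), t.length = s.length →
        Steps OP.cfits ops (t :: M) → ∃ M', Labels (fun x y => y = x) D (t :: M') ∧
          ∀ c, (∀ z ∈ t, z = c) → (∀ s ∈ M', ∀ z ∈ s, z = c) →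
            ∀ s ∈ M, ∀ z ∈ s, z = c) := by
  intro D
  induction D with
  | nil =>
    intro s L h
    refine ⟨[], [], ⟨s, rfl⟩, fun N φ => rfl, ?_⟩
    rintro t M hl ⟨t', ht'⟩
    refine ⟨M, ⟨t', ht'⟩, fun c _ h2 => h2⟩
  | cons P D ih =>
    intro s L h
    obtain ⟨s0, s', L1, he, hf, hL⟩ := h
    rw [List.cons.injEq] at he
    obtain ⟨he1, he2⟩ := he
    subst he1
    obtain ⟨ops, L', h1, h2, h3⟩ := ih s' L1 hL
    cases P with
    | twist p a =>
      obtain ⟨u, x, y, w, hu, hs, hs'⟩ := hf
      have hev : (if Even a then s else u ++ y :: x :: w) =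
          (if Even a.natAbs then u ++ x :: y :: w else u ++ y :: x :: w) := by
        rw [← hs]
        by_cases ha : Even a
        · rw [if_pos ha, if_pos (Int.natAbs_even.2 ha)]
        · rw [if_neg ha, if_neg (fun h4 => ha (Int.natAbs_even.1 h4))]
      rw [hev] at hs'
      have hls : s'.length = s.length := by
        rw [hs', hs]
        split_ifs <;> simp
      rw [hs'] at h1
      obtain ⟨L'', hL''⟩ := b01_ofits p (decide (0 ≤ a)) u w hu ops L' a.natAbs x y h1
      refine ⟨b01_blk p (decide (0 ≤ a)) x y a.natAbs ++ ops, L'', ?_, ?_, ?_⟩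
      · rw [hs]
        exact hL''
      · intro N φ
        rw [List.map_append, List.foldl_append, b01_fold, h2, List.foldl_cons]
        congr 1
        by_cases ha : 0 ≤ a
        · simp [Piece.act, ha]
        · simp [Piece.act, ha]
      · intro t M hl hst
        have hlt : p + 2 ≤ t.length := by
          rw [hl, hs]
          simp only [List.length_append, List.length_cons]
          omega
        obtain ⟨t', M', g1, g2, ⟨u2, a2, b2, w2, hu2, g3, g4⟩, g5⟩ :=
          b01_cfits p (decide (0 ≤ a)) ops a.natAbs x y t M hlt hst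
        obtain ⟨M'', k1, k2⟩ := h3 t' M' (by omega) g1
        refine ⟨t' :: M'', ⟨t, t', M'', rfl, ⟨u2, a2, b2, w2, hu2, g3, ?_⟩, k1⟩, ?_⟩
        · rw [g4]
          by_cases ha : Even a
          · rw [if_pos ha, if_pos (Int.natAbs_even.2 ha)]
          · rw [if_neg ha, if_neg (fun h4 => ha (Int.natAbs_even.1 h4))]
        · intro c hc1 hc2
          apply g5 c hc1
          intro s2 hs2
          rcases List.mem_cons.1 hs2 with h6 | h6
          · rw [h6]
            exact hc2 t' List.mem_cons_self
          · exact k2 c (hc2 t' List.mem_cons_self)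
              (fun s hs => hc2 s (List.mem_cons_of_mem _ hs)) s2 h6
    | cup p =>
      obtain ⟨u, x, y, w, hu, hs, hs', hy⟩ := hf
      refine ⟨.cup p x :: ops, s' :: L', ⟨s, s', L', rfl, ⟨u, w, hu, hs, ?_⟩, h1⟩, ?_, ?_⟩
      · rw [hs', hy]
      · intro N φ
        rw [List.map_cons, List.foldl_cons, h2, List.foldl_cons]
        rfl
      · rintro t M hl ⟨t0, t', M', he3, ⟨u2, x2, w2, hu2, g1, g2⟩, g3⟩
        rw [List.cons.injEq] at he3
        obtain ⟨he4, he5⟩ := he3
        subst he4
        subst he5
        have hlt : t'.length = s'.length := by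
          have e1 : t.length = u2.length + w2.length := by rw [g1]; simp
          have e2 : s.length = u.length + w.length := by rw [hs]; simp
          rw [g2, hs']
          simp only [List.length_append, List.length_cons]
          omega
        obtain ⟨M'', k1, k2⟩ := h3 t' M' hlt g3
        refine ⟨t' :: M'', ⟨t, t', M'', rfl, ⟨u2, x2, x2, w2, hu2, g1, g2, rfl⟩, k1⟩, ?_⟩
        intro c hc1 hc2 s2 hs2
        rcases List.mem_cons.1 hs2 with h6 | h6
        · rw [h6]
          exact hc2 t' List.mem_cons_self
        · exact k2 c (hc2 t' List.mem_cons_self)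
            (fun s hs => hc2 s (List.mem_cons_of_mem _ hs)) s2 h6
    | cap p =>
      obtain ⟨u, x, y, w, hu, hs, hs', hy⟩ := hf
      refine ⟨.cap p x :: ops, s' :: L', ⟨s, s', L', rfl, ⟨u, w, hu, ?_, hs'⟩, h1⟩, ?_, ?_⟩
      · rw [hs, hy]
      · intro N φ
        rw [List.map_cons, List.foldl_cons, h2, List.foldl_cons]
        rfl
      · rintro t M hl ⟨t0, t', M', he3, ⟨u2, x2, w2, hu2, g1, g2⟩, g3⟩
        rw [List.cons.injEq] at he3
        obtain ⟨he4, he5⟩ := he3
        subst he4
        subst he5
        have hlt : t'.length = s'.length := by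
          have e1 : t.length = u2.length + w2.length + 2 := by
            rw [g1]
            simp only [List.length_append, List.length_cons]
            omega
          have e2 : s.length = u.length + w.length + 2 := by
            rw [hs]
            simp only [List.length_append, List.length_cons]
            omega
          rw [g2, hs']
          simp only [List.length_append]
          omega
        obtain ⟨M'', k1, k2⟩ := h3 t' M' hlt g3
        refine ⟨t' :: M'', ⟨t, t', M'', rfl, ⟨u2, x2, x2, w2, hu2, g1, g2, rfl⟩, k1⟩, ?_⟩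
        intro c hc1 hc2 s2 hs2
        rcases List.mem_cons.1 hs2 with h6 | h6
        · rw [h6]
          exact hc2 t' List.mem_cons_self
        · exact k2 c (hc2 t' List.mem_cons_self)
            (fun s hs => hc2 s (List.mem_cons_of_mem _ hs)) s2 h6

/-- B01. Expand the twist regions into single crossings, orient. -/
theorem b01 (D : Diagram) (h : IsKnot D) :
    ∃ ops : List OP, OKnot ops ∧ ∀ N, kashaev N D = kval N (ops.map OP.piece) := by
  obtain ⟨⟨L, hL⟩, h2⟩ := h
  obtain ⟨ops, L', g1, g2, g3⟩ := b01_main D.pieces [true] L hL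
  refine ⟨ops, ⟨⟨L', g1⟩, ?_⟩, ?_⟩
  · intro x M hM
    obtain ⟨M', k1, k2⟩ := g3 [x] M rfl hM
    exact k2 x (by simp) (h2 x M' k1)
  · intro N
    rw [kashaev, kval, g2]

end Pool.Agent.NV

end

section

set_option autoImplicit false

namespace Pool.Agent.NV

open Pool.Agent.Lib_helper77.VC Polynomial Finset

/-- the invariant: `φ` and `ψ` are states with the orientations `o` -/
def b03_Inv (N : ℕ) (o : List Bool) (φ : List ℕ → ℂ) (ψ : List ℕ → ℤ[X]) : Prop :=
  (∃ κ : ℂ, ‖κ‖ = 1 ∧ ∀ s : List ℕ, s.length = o.length → (∀ x ∈ s, x < N) →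
    φ (List.zipWith (el N) o s) = κ * aeval (rt N) (ψ s)) ∧
  (∀ s : List ℕ, s.length ≠ o.length → φ s = 0 ∧ ψ s = 0) ∧
  (o.count true : ℤ) - o.count false = 1

theorem b03_el_lt (N : ℕ) (o : Bool) (i : ℕ) (hi : i < N) : el N o i < N := by
  unfold el
  split_ifs <;> omega

theorem b03_el_not (N : ℕ) (o : Bool) (i : ℕ) (hi : i < N) :
    el N (!o) i = N - 1 - el N o i := by
  cases o <;> simp [el]
  omega

theorem b03_sum_el {α : Type} [AddCommMonoid α] (N : ℕ) (o : Bool) (f : ℕ → α) :
    ∑ i ∈ range N, f i = ∑ i ∈ range N, f (el N o i) := by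
  cases o
  · simp only [el, Bool.false_eq_true, if_false]
    exact (sum_range_reflect f N).symm
  · simp [el]

theorem b03_split {α : Type} (s : List α) (p n : ℕ) (h : s.length = p + (n + 2)) :
    ∃ u i j w, s = u ++ i :: j :: w ∧ u.length = p ∧ w.length = n := by
  have h1 : (s.drop p).length = n + 2 := by
    rw [List.length_drop]; omega
  match hd : s.drop p, h1 with
  | i :: j :: w, h1 =>
    refine ⟨s.take p, i, j, w, ?_, ?_, ?_⟩
    · rw [← hd, List.take_append_drop]
    · rw [List.length_take]; omega
    · simp only [List.length_cons] at h1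
      omega

theorem b03_drop {α : Type} (u : List α) (p : ℕ) (hu : u.length = p) (r : List α) :
    (u ++ r).drop p = r := by
  subst hu
  simp

theorem b03_take {α : Type} (u : List α) (p : ℕ) (hu : u.length = p) (r : List α) :
    (u ++ r).take p = u := by
  subst hu
  simp

theorem b03_zip (N : ℕ) (u : List Bool) (su : List ℕ) (h : su.length = u.length)
    (r : List Bool) (s : List ℕ) :
    List.zipWith (el N) (u ++ r) (su ++ s) =
      List.zipWith (el N) u su ++ List.zipWith (el N) r s := by
  rw [List.zipWith_append h.symm]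

theorem b03_zl (N : ℕ) (u : List Bool) (su : List ℕ) (h : su.length = u.length) :
    (List.zipWith (el N) u su).length = u.length := by
  rw [List.length_zipWith, h, min_self]

theorem b03_cross (N : ℕ) (hN : 1 ≤ N) (K : ℕ) (hK : 20 * N ^ 2 ≤ K) (pos oA oB : Bool)
    (u w : List Bool) (p : ℕ) (hu : u.length = p) (φ : List ℕ → ℂ) (ψ : List ℕ → ℤ[X])
    (h : b03_Inv N (u ++ oA :: oB :: w) φ ψ) :
    b03_Inv N (u ++ oB :: oA :: w) (crossAct (if pos then Rpos N else Rneg N) N p φ)
      ((OP.cr p pos oA oB).act K N ψ) := by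
  obtain ⟨⟨κ, hκ, h1⟩, h2, h3⟩ := h
  obtain ⟨κ', hκ', h4⟩ := b02 N hN K hK pos oA oB
  refine ⟨⟨κ' * κ, by rw [norm_mul, hκ, hκ', one_mul], fun s hs hsN => ?_⟩, fun s hs => ?_, ?_⟩
  · obtain ⟨su, i, j, sw, rfl, hsu, hsw⟩ := b03_split s p w.length (by
      rw [hs]; simp only [List.length_append, List.length_cons, hu])
    have hi : i < N := hsN i (by simp)
    have hj : j < N := hsN j (by simp)
    rw [b03_zip N u su (by omega)]
    simp only [List.zipWith_cons_cons]
    simp only [crossAct, OP.act, b03_drop _ p ((b03_zl N u su (by omega)).trans hu), b03_drop su p hsu,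
      b03_take _ p ((b03_zl N u su (by omega)).trans hu), b03_take su p hsu]
    rw [b03_sum_el N oA, map_sum, mul_sum]
    refine sum_congr rfl fun k hk => ?_
    rw [b03_sum_el N oB, map_sum, mul_sum]
    refine sum_congr rfl fun l hl => ?_
    rw [mem_range] at hk hl
    have h5 := h1 (su ++ k :: l :: sw) (by
      simp only [List.length_append, List.length_cons, hu, hsu, hsw]) (by
      intro x hx
      simp only [List.mem_append, List.mem_cons] at hx
      rcases hx with hx | rfl | rfl | hx
      · exact hsN x (by simp [hx])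
      · exact hk
      · exact hl
      · exact hsN x (by simp [hx]))
    rw [b03_zip N u su (by omega)] at h5
    simp only [List.zipWith_cons_cons] at h5
    rw [h5, h4 i j k l hi hj hk hl, map_mul]
    ring
  · have hlen : (u ++ oB :: oA :: w).length = (u ++ oA :: oB :: w).length := by simp
    constructor
    · simp only [crossAct]
      split
      · rename_i i j r hd
        refine sum_eq_zero fun k _ => sum_eq_zero fun l _ => ?_
        rw [(h2 _ ?_).1, mul_zero]
        have e1 : s.length = (s.take p ++ k :: l :: r).length := by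
          conv_lhs => rw [← List.take_append_drop p s, hd]
          simp
        rw [← e1, ← hlen]
        exact hs
      · rfl
    · simp only [OP.act]
      split
      · rename_i i j r hd
        refine sum_eq_zero fun k _ => sum_eq_zero fun l _ => ?_
        rw [(h2 _ ?_).2, mul_zero]
        have e1 : s.length = (s.take p ++ k :: l :: r).length := by
          conv_lhs => rw [← List.take_append_drop p s, hd]
          simp
        rw [← e1, ← hlen]
        exact hs
      · rfl
  · rw [← h3]
    simp only [List.count_append, List.count_cons]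
    push_cast
    ring

theorem b03_cup (N : ℕ) (hN : 1 ≤ N) (K : ℕ) (hK : 20 * N ^ 2 ≤ K) (o : Bool)
    (u w : List Bool) (p : ℕ) (hu : u.length = p) (φ : List ℕ → ℂ) (ψ : List ℕ → ℤ[X])
    (h : b03_Inv N (u ++ w) φ ψ) :
    b03_Inv N (u ++ o :: (!o) :: w) (cupAct N p φ) ((OP.cup p o).act K N ψ) := by
  have h0 := rt_ne N
  have hm : (-(rt N) ^ 2) ≠ 0 := neg_ne_zero.2 (pow_ne_zero _ h0)
  have hnm : ‖-(rt N) ^ 2‖ = 1 := by rw [norm_neg, norm_pow, norm_rt, one_pow]
  obtain ⟨⟨κ, hκ, h1⟩, h2, h3⟩ := h
  -- the weights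
  obtain ⟨κ', hκ', h4⟩ : ∃ κ' : ℂ, ‖κ'‖ = 1 ∧ ∀ i < N,
      (-(rt N) ^ 2) ^ ((el N o i : ℤ) - ((N : ℤ) - 1)) = κ' * aeval (rt N) (cupw K o i) := by
    cases o
    · refine ⟨rt N ^ (-(K : ℤ)), by rw [norm_zpow, norm_rt, one_zpow], fun i hi => ?_⟩
      have e1 : ((N - 1 - i : ℕ) : ℤ) - ((N : ℤ) - 1) = -(i : ℤ) := by omega
      simp only [el, Bool.false_eq_true, if_false, e1, cupw, map_mul, map_pow, map_neg, map_one,
        aeval_X]
      have e2 : rt N ^ (K - 2 * i) = rt N ^ (K : ℤ) * rt N ^ (-(2 * i : ℤ)) := by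
        rw [← zpow_add₀ h0, ← zpow_natCast]
        congr 1
        have : 2 * i ≤ K := by nlinarith
        push_cast [Nat.cast_sub this]
        ring
      have e3 : (-(rt N) ^ 2) ^ (-(i : ℤ)) = (-1) ^ i * rt N ^ (-(2 * i : ℤ)) := by
        rw [neg_eq_neg_one_mul ((rt N) ^ 2), mul_zpow, zpow_neg, zpow_natCast, ← zpow_natCast (rt N) 2,
          ← zpow_mul]
        congr 1
        · rw [← inv_pow]; norm_num
        · congr 1; push_cast; ring
      have h9 : rt N ^ (-(K : ℤ)) * rt N ^ (K : ℤ) = 1 := by rw [← zpow_add₀ h0]; simp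
      rw [e2, e3]
      linear_combination (-((-1) ^ i * rt N ^ (-(2 * i : ℤ)))) * h9
    · refine ⟨(-(rt N) ^ 2) ^ (-(N : ℤ)) * rt N ^ (-(K : ℤ)), by
        rw [norm_mul, norm_zpow, norm_zpow, norm_rt, one_zpow, hnm, one_zpow, one_mul], fun i hi => ?_⟩
      simp only [el, if_true, cupw, map_mul, map_pow, map_neg, map_one, aeval_X]
      have e1 : (-(rt N) ^ 2) ^ ((i : ℤ) - ((N : ℤ) - 1)) =
          (-(rt N) ^ 2) ^ (-(N : ℤ)) * (-(rt N) ^ 2) ^ (i + 1) := by
        rw [← zpow_natCast _ (i + 1), ← zpow_add₀ hm]
        congr 1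
        push_cast
        ring
      have e2 : (-(rt N) ^ 2) ^ (i + 1) = (-1) ^ (i + 1) * rt N ^ (2 * (i + 1)) := by
        rw [neg_pow, ← pow_mul]
      rw [e1, e2, pow_add (rt N) K, zpow_neg (rt N), zpow_natCast (rt N) K]
      have : rt N ^ K ≠ 0 := pow_ne_zero _ h0
      field_simp
  refine ⟨⟨κ' * κ, by rw [norm_mul, hκ, hκ', one_mul], fun s hs hsN => ?_⟩, fun s hs => ?_, ?_⟩
  · obtain ⟨su, i, j, sw, rfl, hsu, hsw⟩ := b03_split s p w.length (by
      rw [hs]; simp only [List.length_append, List.length_cons, hu])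
    have hi : i < N := hsN i (by simp)
    have hj : j < N := hsN j (by simp)
    rw [b03_zip N u su (by omega)]
    simp only [List.zipWith_cons_cons]
    simp only [cupAct, OP.act, b03_drop _ p ((b03_zl N u su (by omega)).trans hu), b03_drop su p hsu,
      b03_take _ p ((b03_zl N u su (by omega)).trans hu), b03_take su p hsu]
    have hij : el N o i + el N (!o) j = N - 1 ↔ i = j := by
      cases o <;> simp [el] <;> omega
    by_cases hc : i = j
    · rw [if_pos hc, if_pos (hij.2 hc), h4 i hi, map_mul]
      have h5 := h1 (su ++ sw) (by simp only [List.length_append, hu, hsu, hsw]) (by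
        intro x hx
        rw [List.mem_append] at hx
        rcases hx with hx | hx
        · exact hsN x (by simp [hx])
        · exact hsN x (by simp [hx]))
      rw [b03_zip N u su (by omega)] at h5
      rw [h5]
      ring
    · rw [if_neg hc, if_neg (fun h => hc (hij.1 h))]
      simp
  · have hlen : (u ++ o :: (!o) :: w).length = (u ++ w).length + 2 := by
      simp only [List.length_append, List.length_cons]
      omega
    have key : ∀ i j r, s.drop p = i :: j :: r → (s.take p ++ r).length ≠ (u ++ w).length := by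
      intro i j r hd
      have e1 : s.length = (s.take p ++ r).length + 2 := by
        conv_lhs => rw [← List.take_append_drop p s, hd]
        simp only [List.length_append, List.length_cons]
        omega
      omega
    constructor
    · simp only [cupAct]
      split
      · rename_i i j r hd
        rw [(h2 _ (key i j r hd)).1, mul_zero, ite_self]
      · rfl
    · simp only [OP.act]
      split
      · rename_i i j r hd
        rw [(h2 _ (key i j r hd)).2, mul_zero, ite_self]
      · rfl
  · rw [← h3]
    cases o <;> simp only [List.count_append, List.count_cons, Bool.not_false, Bool.not_true] <;>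
      simp <;> ring

theorem b03_cap (N : ℕ) (hN : 1 ≤ N) (K : ℕ) (hK : 20 * N ^ 2 ≤ K) (o : Bool)
    (u w : List Bool) (p : ℕ) (hu : u.length = p) (φ : List ℕ → ℂ) (ψ : List ℕ → ℤ[X])
    (h : b03_Inv N (u ++ o :: (!o) :: w) φ ψ) :
    b03_Inv N (u ++ w) (capAct N p φ) ((OP.cap p o).act K N ψ) := by
  have h0 := rt_ne N
  have hm : (-(rt N) ^ 2) ≠ 0 := neg_ne_zero.2 (pow_ne_zero _ h0)
  have hnm : ‖-(rt N) ^ 2‖ = 1 := by rw [norm_neg, norm_pow, norm_rt, one_pow]
  obtain ⟨⟨κ, hκ, h1⟩, h2, h3⟩ := h
  obtain ⟨κ', hκ', h4⟩ : ∃ κ' : ℂ, ‖κ'‖ = 1 ∧ ∀ i < N,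
      (-(rt N) ^ 2) ^ (el N o i) = κ' * aeval (rt N) (capw K o i) := by
    cases o
    · refine ⟨(-(rt N) ^ 2) ^ (N : ℤ) * rt N ^ (-(K : ℤ)), by
        rw [norm_mul, norm_zpow, norm_zpow, norm_rt, one_zpow, hnm, one_zpow, one_mul], fun i hi => ?_⟩
      simp only [el, Bool.false_eq_true, if_false, capw, map_mul, map_pow, map_neg, map_one,
        aeval_X]
      have e1 : (-(rt N) ^ 2) ^ (N - 1 - i) =
          (-(rt N) ^ 2) ^ (N : ℤ) * (-(rt N) ^ 2) ^ (-((i : ℤ) + 1)) := by
        rw [← zpow_natCast _ (N - 1 - i), ← zpow_add₀ hm]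
        congr 1
        omega
      have e2 : rt N ^ (K - 2 * (i + 1)) = rt N ^ (K : ℤ) * rt N ^ (-(2 * ((i : ℤ) + 1))) := by
        rw [← zpow_add₀ h0, ← zpow_natCast]
        congr 1
        have : 2 * (i + 1) ≤ K := by nlinarith
        push_cast [Nat.cast_sub this]
        ring
      have e3 : (-(rt N) ^ 2) ^ (-((i : ℤ) + 1)) =
          (-1) ^ (i + 1) * rt N ^ (-(2 * ((i : ℤ) + 1))) := by
        have : (-((i : ℤ) + 1)) = -((i + 1 : ℕ) : ℤ) := by push_cast; ring
        rw [this, neg_eq_neg_one_mul ((rt N) ^ 2), mul_zpow, zpow_neg, zpow_natCast,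
          ← zpow_natCast (rt N) 2, ← zpow_mul]
        congr 1
        · rw [← inv_pow]; norm_num
      rw [e1, e2, e3, zpow_neg (rt N) (K : ℤ)]
      have : rt N ^ (K : ℤ) ≠ 0 := zpow_ne_zero _ h0
      field_simp
    · refine ⟨rt N ^ (-(K : ℤ)), by rw [norm_zpow, norm_rt, one_zpow], fun i hi => ?_⟩
      simp only [el, if_true, capw, map_mul, map_pow, map_neg, map_one, aeval_X]
      have e2 : (-(rt N) ^ 2) ^ i = (-1) ^ i * rt N ^ (2 * i) := by
        rw [neg_pow, ← pow_mul]
      rw [e2, pow_add (rt N) K, zpow_neg (rt N), zpow_natCast (rt N) K]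
      have : rt N ^ K ≠ 0 := pow_ne_zero _ h0
      field_simp
  refine ⟨⟨κ' * κ, by rw [norm_mul, hκ, hκ', one_mul], fun s hs hsN => ?_⟩, fun s hs => ?_, ?_⟩
  · have hps : p ≤ s.length := by
      rw [hs, List.length_append]; omega
    obtain ⟨su, sw, rfl, hsu⟩ : ∃ su sw, s = su ++ sw ∧ su.length = p :=
      ⟨s.take p, s.drop p, (List.take_append_drop p s).symm, by rw [List.length_take]; omega⟩
    have hsw : sw.length = w.length := by
      simp only [List.length_append] at hs
      omega
    rw [b03_zip N u su (by omega)]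
    simp only [capAct, OP.act, b03_drop _ p ((b03_zl N u su (by omega)).trans hu), b03_drop su p hsu,
      b03_take _ p ((b03_zl N u su (by omega)).trans hu), b03_take su p hsu]
    rw [if_pos hps, if_pos (by
      rw [List.length_append, b03_zl N u su (by omega)]; omega), b03_sum_el N o, map_sum, mul_sum]
    refine sum_congr rfl fun i hi => ?_
    rw [mem_range] at hi
    have h5 := h1 (su ++ i :: i :: sw) (by
      simp only [List.length_append, List.length_cons, hu, hsu, hsw]) (by
      intro x hx
      simp only [List.mem_append, List.mem_cons] at hx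
      rcases hx with hx | rfl | rfl | hx
      · exact hsN x (by simp [hx])
      · exact hi
      · exact hi
      · exact hsN x (by simp [hx]))
    rw [b03_zip N u su (by omega)] at h5
    simp only [List.zipWith_cons_cons, b03_el_not N o i hi] at h5
    rw [h5, h4 i hi, map_mul]
    ring
  · have hlen : (u ++ o :: (!o) :: w).length = (u ++ w).length + 2 := by
      simp only [List.length_append, List.length_cons]
      omega
    have key : ∀ i j, (s.take p ++ i :: j :: s.drop p).length ≠
        (u ++ o :: (!o) :: w).length := by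
      intro i j
      have e1 : (s.take p ++ i :: j :: s.drop p).length = s.length + 2 := by
        conv_rhs => rw [← List.take_append_drop p s]
        simp only [List.length_append, List.length_cons]
        omega
      omega
    constructor
    · simp only [capAct]
      split_ifs
      · refine sum_eq_zero fun i _ => ?_
        rw [(h2 _ (key i (N - 1 - i))).1, mul_zero]
      · rfl
    · simp only [OP.act]
      split_ifs
      · refine sum_eq_zero fun i _ => ?_
        rw [(h2 _ (key i i)).2, mul_zero]
      · rfl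
  · rw [← h3]
    cases o <;> simp only [List.count_append, List.count_cons, Bool.not_false, Bool.not_true] <;>
      simp <;> ring

theorem b03_step (N : ℕ) (hN : 1 ≤ N) (K : ℕ) (hK : 20 * N ^ 2 ≤ K) (P : OP)
    (o o' : List Bool) (ho : P.ofits o o') (φ : List ℕ → ℂ) (ψ : List ℕ → ℤ[X])
    (h : b03_Inv N o φ ψ) : b03_Inv N o' (P.piece.act N φ) (P.act K N ψ) := by
  cases P with
  | cr p pos oA oB =>
    obtain ⟨u, w, hu, rfl, rfl⟩ := ho
    have := b03_cross N hN K hK pos oA oB u w p hu φ ψ h
    cases pos
    · exact this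
    · exact this
  | cup p o =>
    obtain ⟨u, w, hu, rfl, rfl⟩ := ho
    exact b03_cup N hN K hK o u w p hu φ ψ h
  | cap p o =>
    obtain ⟨u, w, hu, rfl, rfl⟩ := ho
    exact b03_cap N hN K hK o u w p hu φ ψ h

theorem b03_steps (N : ℕ) (hN : 1 ≤ N) (K : ℕ) (hK : 20 * N ^ 2 ≤ K) (ops : List OP) :
    ∀ (o : List Bool) (L : List (List Bool)), Steps OP.ofits ops (o :: L) →
    ∀ (φ : List ℕ → ℂ) (ψ : List ℕ → ℤ[X]), b03_Inv N o φ ψ →
    ∃ o', b03_Inv N o' ((ops.map OP.piece).foldl (fun φ P => P.act N φ) φ)
      (ops.foldl (fun φ P => P.act K N φ) ψ) := by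
  induction ops with
  | nil => intro o L _ φ ψ h; exact ⟨o, h⟩
  | cons P ops ih =>
    intro o L hS φ ψ h
    obtain ⟨s, s', L', hL, h1, h2⟩ := hS
    have e1 : o = s := (List.cons.inj hL).1
    subst e1
    exact ih s' L' h2 _ _ (b03_step N hN K hK P o s' h1 φ ψ h)

/-- B03. The state sum in effective labels. -/
theorem b03 (ops : List OP) (h : OKnot ops) (N : ℕ) (hN : 1 ≤ N) (K : ℕ) (hK : 20 * N ^ 2 ≤ K) :
    ‖kval N (ops.map OP.piece)‖ = ‖aeval (rt N) (PP K N ops)‖ := by
  obtain ⟨L, hL⟩ := h.1
  have h0 : b03_Inv N [true] (fun s => if s = [0] then 1 else 0)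
      (fun s => if s = [0] then (1 : ℤ[X]) else 0) := by
    refine ⟨⟨1, by simp, fun s hs _ => ?_⟩, fun s hs => ?_, by simp⟩
    · match s, hs with
      | [x], _ =>
        simp only [List.zipWith_cons_cons, List.zipWith_nil_right, el, if_true, one_mul]
        split_ifs <;> simp
    · have : s ≠ [0] := by
        rintro rfl
        exact hs rfl
      simp [this]
  obtain ⟨o, ⟨κ, hκ, h1⟩, h2, h3⟩ := b03_steps N hN K hK ops [true] L hL _ _ h0
  unfold kval PP
  by_cases hlen : o.length = 1
  · match o, hlen with
    | [b], _ =>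
      cases b
      · simp at h3
      · have h4 := h1 [0] rfl (by simp; omega)
        simp only [List.zipWith_cons_cons, List.zipWith_nil_right, el, if_true] at h4
        rw [h4, norm_mul, hκ, one_mul]
  · have h4 := h2 [0] (fun h => hlen h.symm)
    rw [h4.1, h4.2]
    simp

end Pool.Agent.NV

end

section

set_option autoImplicit false

namespace Pool.Agent.NV

open Pool.Agent.Lib_helper77.VC Polynomial Finset

theorem b04_gb_zero (a n : ℕ) (h : a < n) : gb a n = 0 := by
  induction a generalizing n with
  | zero =>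
    rcases n with _ | n
    · omega
    · rfl
  | succ a ih =>
    rcases n with _ | n
    · omega
    · rw [gb, ih n (by omega), ih (n + 1) (by omega)]
      simp

theorem b04_gb_n_zero (a : ℕ) : gb a 0 = 1 := by
  cases a <;> rfl

theorem b04_gb_succ (a n : ℕ) :
    gb (a + 1) (n + 1) = gb a n + X ^ (4 * (n + 1)) * gb a (n + 1) := rfl

theorem b04_fp_succ (a : ℕ) : fp 0 (a + 1) = fp 0 a * (X ^ (4 * (a + 1)) - 1) := by
  unfold fp
  rw [← prod_Ioc_consecutive _ (Nat.zero_le a) (Nat.le_succ a)]
  congr 1
  simp

theorem b04_fp_zero : fp 0 0 = 1 := by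
  unfold fp
  simp

/-- B04a -/
theorem b04a (a n : ℕ) (h : n ≤ a) : gb a n * (fp 0 n * fp 0 (a - n)) = fp 0 a := by
  induction a generalizing n with
  | zero =>
    obtain rfl : n = 0 := by omega
    simp [b04_gb_n_zero, b04_fp_zero]
  | succ a ih =>
    rcases n with _ | n
    · simp [b04_gb_n_zero, b04_fp_zero]
    · have e0 : a + 1 - (n + 1) = a - n := by omega
      rw [e0, b04_gb_succ, b04_fp_succ, b04_fp_succ]
      have i1 := ih n (by omega)
      rcases Nat.eq_or_lt_of_le (Nat.le_of_succ_le_succ h) with h1 | h1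
      · subst h1
        rw [b04_gb_zero n (n + 1) (by omega)]
        rw [Nat.sub_self, b04_fp_zero, mul_one] at i1 ⊢
        linear_combination (X ^ (4 * (n + 1)) - 1) * i1
      · have i2 := ih (n + 1) (by omega)
        obtain ⟨d, rfl⟩ : ∃ d, a = n + 1 + d := ⟨a - (n + 1), by omega⟩
        have e3 : n + 1 + d - (n + 1) = d := by omega
        have e4 : n + 1 + d - n = d + 1 := by omega
        rw [e3] at i2
        rw [e4] at i1 ⊢
        rw [b04_fp_succ] at i1 i2 ⊢
        have e5 : (X : ℤ[X]) ^ (4 * (n + 1 + d + 1)) = X ^ (4 * (n + 1)) * X ^ (4 * (d + 1)) := by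
          rw [← pow_add]; congr 1; ring
        rw [e5]
        linear_combination (X ^ (4 * (n + 1)) - 1) * i1 +
          (X ^ (4 * (n + 1)) * (X ^ (4 * (d + 1)) - 1)) * i2

theorem b04_l1_sum (P : ℤ[X]) (s : Finset ℕ) (h : P.support ⊆ s) :
    l1 P = ∑ i ∈ s, |(P.coeff i : ℝ)| := by
  unfold l1
  refine sum_subset h fun i _ hi => ?_
  rw [Polynomial.notMem_support_iff.1 hi]
  simp

theorem b04_l1_nonneg (P : ℤ[X]) : 0 ≤ l1 P := by
  unfold l1
  positivity

theorem b04_l1_add (P Q : ℤ[X]) : l1 (P + Q) ≤ l1 P + l1 Q := by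
  classical
  rw [b04_l1_sum (P + Q) (P.support ∪ Q.support) Polynomial.support_add,
    b04_l1_sum P (P.support ∪ Q.support) subset_union_left,
    b04_l1_sum Q (P.support ∪ Q.support) subset_union_right, ← sum_add_distrib]
  refine sum_le_sum fun i _ => ?_
  rw [coeff_add]
  push_cast
  exact abs_add_le _ _

theorem b04_l1_zero : l1 0 = 0 := by
  unfold l1
  simp

theorem b04_l1_range (P : ℤ[X]) (n : ℕ) (h : P.natDegree < n) :
    l1 P = ∑ i ∈ range n, |(P.coeff i : ℝ)| :=
  b04_l1_sum P _ (Polynomial.supp_subset_range h)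

theorem b04_l1_Xmul (n : ℕ) (Q : ℤ[X]) : l1 (X ^ n * Q) = l1 Q := by
  rw [mul_comm]
  rw [b04_l1_range (Q * X ^ n) (n + (Q.natDegree + 1)) ?_, b04_l1_range Q (Q.natDegree + 1) (by omega),
    sum_range_add]
  · have e1 : ∑ x ∈ range n, |((Q * X ^ n).coeff x : ℝ)| = 0 := by
      refine sum_eq_zero fun x hx => ?_
      rw [coeff_mul_X_pow', if_neg (by rw [mem_range] at hx; omega)]
      simp
    rw [e1, zero_add]
    refine sum_congr rfl fun x _ => ?_
    rw [coeff_mul_X_pow', if_pos (by omega)]
    congr 3
    omega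
  · refine lt_of_le_of_lt (natDegree_mul_le) ?_
    rw [natDegree_X_pow]
    omega

theorem b04_l1_Cmul (a : ℤ) (Q : ℤ[X]) : l1 (C a * Q) = |(a : ℝ)| * l1 Q := by
  rw [b04_l1_range (C a * Q) (Q.natDegree + 1) ?_, b04_l1_range Q (Q.natDegree + 1) (by omega),
    mul_sum]
  · refine sum_congr rfl fun x _ => ?_
    rw [coeff_C_mul]
    push_cast
    exact abs_mul _ _
  · exact Nat.lt_succ_of_le (natDegree_C_mul_le _ _)

theorem b04_l1_sum_le {ι : Type} (s : Finset ι) (f : ι → ℤ[X]) :
    l1 (∑ i ∈ s, f i) ≤ ∑ i ∈ s, l1 (f i) := by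
  classical
  induction s using Finset.induction_on with
  | empty => simp [b04_l1_zero]
  | insert i s hi ih =>
    rw [sum_insert hi, sum_insert hi]
    exact (b04_l1_add _ _).trans (by gcongr)

/-- B04c -/
theorem b04c (P Q : ℤ[X]) : l1 (P * Q) ≤ l1 P * l1 Q ∧ l1 (P + Q) ≤ l1 P + l1 Q := by
  refine ⟨?_, b04_l1_add P Q⟩
  have e1 : P * Q = ∑ i ∈ P.support, C (P.coeff i) * (X ^ i * Q) := by
    conv_lhs => rw [P.as_sum_support_C_mul_X_pow]
    rw [sum_mul]
    exact sum_congr rfl fun i _ => by ring
  rw [e1]
  refine (b04_l1_sum_le _ _).trans (le_of_eq ?_)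
  unfold l1
  rw [sum_mul]
  refine sum_congr rfl fun i _ => ?_
  have := b04_l1_Cmul (P.coeff i) (X ^ i * Q)
  rw [b04_l1_Xmul] at this
  exact this

theorem b04_l1_one : l1 1 = 1 := by
  rw [b04_l1_range 1 1 (by simp)]
  simp

/-- B04b -/
theorem b04b (a n : ℕ) : l1 (gb a n) ≤ 2 ^ a ∧ (gb a n).natDegree ≤ 4 * a * n := by
  induction a generalizing n with
  | zero =>
    rcases n with _ | n
    · simp [b04_gb_n_zero, b04_l1_one]
    · have : gb 0 (n + 1) = 0 := rfl
      rw [this]
      simp [b04_l1_zero]
  | succ a ih =>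
    rcases n with _ | n
    · rw [b04_gb_n_zero, b04_l1_one]
      exact ⟨one_le_pow₀ (by norm_num), by simp⟩
    · rw [b04_gb_succ]
      constructor
      · refine (b04_l1_add _ _).trans ?_
        rw [b04_l1_Xmul, pow_succ]
        have h1 := (ih n).1
        have h2 := (ih (n + 1)).1
        linarith
      · refine (natDegree_add_le _ _).trans (max_le ?_ ?_)
        · refine (ih n).2.trans ?_
          nlinarith
        · refine natDegree_mul_le.trans ?_
          rw [natDegree_X_pow]
          have := (ih (n + 1)).2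
          nlinarith

end Pool.Agent.NV

end

section

/-!
# NV, block B05: degree and size of the state sum
-/

set_option autoImplicit false

namespace Pool.Agent.NV

open Pool.Agent.Lib_helper77.VC Polynomial Finset

theorem b05_nonneg (P : ℤ[X]) : 0 ≤ l1 P := sum_nonneg fun _ _ => abs_nonneg _

theorem b05_zero : l1 0 = 0 := by simp [l1]

theorem b05_Xpow (k : ℕ) : l1 ((X : ℤ[X]) ^ k) ≤ 1 := by
  unfold l1
  calc ∑ i ∈ ((X : ℤ[X]) ^ k).support, |(((X : ℤ[X]) ^ k).coeff i : ℝ)| ≤
      ∑ i ∈ ({k} : Finset ℕ), |(((X : ℤ[X]) ^ k).coeff i : ℝ)| := by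
        refine sum_le_sum_of_subset_of_nonneg ?_ fun _ _ _ => abs_nonneg _
        rw [X_pow_eq_monomial]
        exact support_monomial_subset _ _
    _ ≤ 1 := by simp

theorem b05_one : l1 1 ≤ 1 := by
  have h := b05_Xpow 0
  rwa [pow_zero] at h

theorem b05_neg (P : ℤ[X]) : l1 (-P) = l1 P := by
  unfold l1
  rw [support_neg]
  refine sum_congr rfl fun i _ => ?_
  rw [coeff_neg]
  push_cast
  rw [abs_neg]

theorem b05_sgn (m k : ℕ) : l1 ((-1 : ℤ[X]) ^ m * X ^ k) ≤ 1 := by
  rcases Nat.even_or_odd m with h | h
  · rw [h.neg_one_pow, one_mul]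
    exact b05_Xpow k
  · rw [h.neg_one_pow, neg_one_mul, b05_neg]
    exact b05_Xpow k

theorem b05_sgn_deg (m k : ℕ) : ((-1 : ℤ[X]) ^ m * X ^ k).natDegree ≤ k := by
  rcases Nat.even_or_odd m with h | h
  · rw [h.neg_one_pow, one_mul]
    exact natDegree_X_pow_le k
  · rw [h.neg_one_pow, neg_one_mul, natDegree_neg]
    exact natDegree_X_pow_le k

theorem b05_sum {ι : Type} (s : Finset ι) (f : ι → ℤ[X]) :
    l1 (∑ i ∈ s, f i) ≤ ∑ i ∈ s, l1 (f i) := by
  classical
  induction s using Finset.induction_on with
  | empty => simp [b05_zero]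
  | insert a s ha ih =>
    rw [sum_insert ha, sum_insert ha]
    exact (b04c _ _).2.trans (by linarith)

theorem b05_fp (b a T : ℕ) (h : a < T) :
    l1 (fp b a) ≤ 2 ^ T ∧ (fp b a).natDegree ≤ 4 * T ^ 2 := by
  have hcard : (Ioc b a).card ≤ T := by
    rw [Nat.card_Ioc]
    omega
  constructor
  · have h1 : ∀ s : Finset ℕ, l1 (∏ g ∈ s, ((X : ℤ[X]) ^ (4 * g) - 1)) ≤ 2 ^ s.card := by
      intro s
      classical
      induction s using Finset.induction_on with
      | empty => simpa using b05_one
      | insert g s hg ih =>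
        rw [prod_insert hg, card_insert_of_notMem hg, pow_succ, mul_comm ((2 : ℝ) ^ s.card) 2]
        refine (b04c _ _).1.trans ?_
        have h2 : l1 ((X : ℤ[X]) ^ (4 * g) - 1) ≤ 2 := by
          rw [sub_eq_add_neg]
          refine (b04c _ _).2.trans ?_
          rw [b05_neg]
          linarith [b05_Xpow (4 * g), b05_one]
        exact mul_le_mul h2 ih (b05_nonneg _) (by norm_num)
    exact (h1 _).trans (pow_le_pow_right₀ (by norm_num) hcard)
  · unfold fp
    refine (natDegree_prod_le _ _).trans ?_
    calc ∑ g ∈ Ioc b a, ((X : ℤ[X]) ^ (4 * g) - 1).natDegree ≤ ∑ _g ∈ Ioc b a, 4 * T := by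
          refine sum_le_sum fun g hg => ?_
          rw [mem_Ioc] at hg
          have h1 : ((X : ℤ[X]) ^ (4 * g) - 1).natDegree = 4 * g :=
            natDegree_X_pow_sub_C (n := 4 * g) (r := (1 : ℤ))
          rw [h1]
          omega
      _ ≤ T * (4 * T) := by
          rw [sum_const, smul_eq_mul]
          exact Nat.mul_le_mul_right _ hcard
      _ = 4 * T ^ 2 := by ring

theorem b05_cw (T : ℕ) (pos oA oB : Bool) (i j k l : ℕ) (hi : i < T) (hj : j < T)
    (hk : k < T) (hl : l < T) :
    (cw (20 * T ^ 2) pos oA oB i j k l).natDegree ≤ 48 * T ^ 2 ∧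
      l1 (cw (20 * T ^ 2) pos oA oB i j k l) ≤ 4 ^ T := by
  have d1 : decIn pos oA oB i j k l < T := by
    cases pos <;> cases oA <;> cases oB <;> simp [decIn, lin] <;> assumption
  have d3 : incOut pos oA oB i j k l < T := by
    cases pos <;> cases oA <;> cases oB <;> simp [incOut, lout] <;> assumption
  unfold cw
  split_ifs with h
  · dsimp only
    set n := decIn pos oA oB i j k l - decOut pos oA oB i j k l with hn
    have hnT : n < T := by omega
    have hex := ex_bound T pos oA oB i j k l hi hj hk hl n (Int.natCast_nonneg _)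
      (by exact_mod_cast hnT)
    have he : (((20 * T ^ 2 : ℕ) : ℤ) + ex pos oA oB i j k l n).toNat ≤ 40 * T ^ 2 := by
      rw [Int.toNat_le]
      push_cast
      rw [abs_le] at hex
      linarith [hex.2]
    have hf := b05_fp (decOut pos oA oB i j k l) _ T d1
    have hg := b04b (incOut pos oA oB i j k l) n
    have hg2 : (gb (incOut pos oA oB i j k l) n).natDegree ≤ 4 * T ^ 2 := by
      refine hg.2.trans ?_
      calc 4 * incOut pos oA oB i j k l * n ≤ 4 * T * T :=
            Nat.mul_le_mul (Nat.mul_le_mul_left _ d3.le) hnT.le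
        _ = 4 * T ^ 2 := by ring
    constructor
    · refine natDegree_mul_le.trans ?_
      have h2 := b05_sgn_deg (sn pos oA oB i j n)
        (((20 * T ^ 2 : ℕ) : ℤ) + ex pos oA oB i j k l n).toNat
      have h3 := (natDegree_mul_le (p := fp (decOut pos oA oB i j k l) (decIn pos oA oB i j k l))
        (q := gb (incOut pos oA oB i j k l) n))
      omega
    · have h2 := b05_sgn (sn pos oA oB i j n)
        (((20 * T ^ 2 : ℕ) : ℤ) + ex pos oA oB i j k l n).toNat
      have h3 : l1 (fp (decOut pos oA oB i j k l) (decIn pos oA oB i j k l) *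
          gb (incOut pos oA oB i j k l) n) ≤ 4 ^ T := by
        refine (b04c _ _).1.trans ?_
        have h4 : (2 : ℝ) ^ incOut pos oA oB i j k l ≤ 2 ^ T :=
          pow_le_pow_right₀ (by norm_num) d3.le
        calc l1 (fp (decOut pos oA oB i j k l) (decIn pos oA oB i j k l)) *
              l1 (gb (incOut pos oA oB i j k l) n) ≤ 2 ^ T * 2 ^ T :=
              mul_le_mul hf.1 (hg.1.trans h4) (b05_nonneg _) (by positivity)
          _ = 4 ^ T := by rw [← mul_pow]; norm_num
      refine (b04c _ _).1.trans ?_
      calc _ ≤ 1 * (4 : ℝ) ^ T := mul_le_mul h2 h3 (b05_nonneg _) (by norm_num)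
        _ = 4 ^ T := one_mul _
  · rw [natDegree_zero, b05_zero]
    exact ⟨Nat.zero_le _, by positivity⟩

theorem b05_cup (T : ℕ) (o : Bool) (i : ℕ) (hi : i < T) :
    (cupw (20 * T ^ 2) o i).natDegree ≤ 48 * T ^ 2 ∧ l1 (cupw (20 * T ^ 2) o i) ≤ 1 := by
  have hT : T ≤ T ^ 2 := Nat.le_self_pow (by norm_num) T
  unfold cupw
  split_ifs
  · exact ⟨(b05_sgn_deg _ _).trans (by omega), b05_sgn _ _⟩
  · exact ⟨(b05_sgn_deg _ _).trans (by omega), b05_sgn _ _⟩

theorem b05_cap (T : ℕ) (o : Bool) (i : ℕ) (hi : i < T) :
    (capw (20 * T ^ 2) o i).natDegree ≤ 48 * T ^ 2 ∧ l1 (capw (20 * T ^ 2) o i) ≤ 1 := by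
  have hT : T ≤ T ^ 2 := Nat.le_self_pow (by norm_num) T
  unfold capw
  split_ifs
  · exact ⟨(b05_sgn_deg _ _).trans (by omega), b05_sgn _ _⟩
  · exact ⟨(b05_sgn_deg _ _).trans (by omega), b05_sgn _ _⟩

theorem b05_exp (T : ℕ) : (T : ℝ) * (T * 4 ^ T) ≤ Real.exp (4 * T) := by
  have h1 : (T : ℝ) ≤ Real.exp T := by linarith [Real.add_one_le_exp (T : ℝ)]
  have h2 : (2 : ℝ) ≤ Real.exp 1 := by linarith [Real.add_one_le_exp (1 : ℝ)]
  have h3 : (4 : ℝ) ≤ Real.exp 2 := by
    have : Real.exp 2 = Real.exp 1 * Real.exp 1 := by rw [← Real.exp_add]; norm_num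
    rw [this]
    nlinarith
  have h4 : (4 : ℝ) ^ T ≤ Real.exp (2 * T) := by
    rw [mul_comm (2 : ℝ), Real.exp_nat_mul]
    exact pow_le_pow_left₀ (by norm_num) h3 T
  have h5 : Real.exp (4 * T) = Real.exp T * (Real.exp T * Real.exp (2 * T)) := by
    rw [← Real.exp_add, ← Real.exp_add]
    congr 1
    ring
  rw [h5]
  have hT : (0 : ℝ) ≤ T := Nat.cast_nonneg _
  exact mul_le_mul h1 (mul_le_mul h1 h4 (by positivity) (Real.exp_pos _).le) (by positivity)
    (Real.exp_pos _).le

/-- bounds for the values at the states with labels `< T` -/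
def b05_Bd (T D : ℕ) (L : ℝ) (φ : List ℕ → ℤ[X]) : Prop :=
  ∀ s : List ℕ, (∀ x ∈ s, x < T) → (φ s).natDegree ≤ D ∧ l1 (φ s) ≤ L

theorem b05_mul {P Q : ℤ[X]} {a b : ℕ} {x y : ℝ} (hP : P.natDegree ≤ a ∧ l1 P ≤ x)
    (hQ : Q.natDegree ≤ b ∧ l1 Q ≤ y) : (P * Q).natDegree ≤ a + b ∧ l1 (P * Q) ≤ x * y := by
  refine ⟨natDegree_mul_le.trans (by omega), (b04c _ _).1.trans ?_⟩
  exact mul_le_mul hP.2 hQ.2 (b05_nonneg _) ((b05_nonneg P).trans hP.2)

theorem b05_sums {s : Finset ℕ} {f : ℕ → ℤ[X]} {a : ℕ} {x : ℝ}
    (h : ∀ i ∈ s, (f i).natDegree ≤ a ∧ l1 (f i) ≤ x) :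
    (∑ i ∈ s, f i).natDegree ≤ a ∧ l1 (∑ i ∈ s, f i) ≤ s.card * x := by
  refine ⟨natDegree_sum_le_of_forall_le _ _ fun i hi => (h i hi).1, (b05_sum _ _).trans ?_⟩
  rw [← nsmul_eq_mul]
  exact sum_le_card_nsmul _ _ _ fun i hi => (h i hi).2

theorem b05_act (T : ℕ) (hT : 1 ≤ T) (P : OP) (D : ℕ) (L : ℝ) (hL : 0 ≤ L)
    (φ : List ℕ → ℤ[X]) (h : b05_Bd T D L φ) :
    b05_Bd T (48 * T ^ 2 + D) (Real.exp (4 * T) * L) (P.act (20 * T ^ 2) T φ) := by
  have hE : (1 : ℝ) ≤ Real.exp (4 * T) := Real.one_le_exp (by positivity)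
  have hzero : (0 : ℤ[X]).natDegree ≤ 48 * T ^ 2 + D ∧ l1 0 ≤ Real.exp (4 * T) * L := by
    rw [natDegree_zero, b05_zero]
    exact ⟨Nat.zero_le _, by positivity⟩
  intro s hs
  have htake : ∀ p, ∀ x ∈ s.take p, x < T := fun p x hx => hs x (List.mem_of_mem_take hx)
  have hdrop : ∀ p, ∀ x ∈ s.drop p, x < T := fun p x hx => hs x (List.mem_of_mem_drop hx)
  cases P with
  | cr p pos oA oB =>
    simp only [OP.act]
    rcases hd : s.drop p with _ | ⟨i, _ | ⟨j, r⟩⟩
    · exact hzero
    · exact hzero
    · have hr := hdrop p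
      rw [hd] at hr
      have hi : i < T := hr i (by simp)
      have hj : j < T := hr j (by simp)
      have h1 : ∀ k ∈ range T, ∀ l ∈ range T,
          (cw (20 * T ^ 2) pos oA oB i j k l * φ (s.take p ++ k :: l :: r)).natDegree ≤
            48 * T ^ 2 + D ∧
          l1 (cw (20 * T ^ 2) pos oA oB i j k l * φ (s.take p ++ k :: l :: r)) ≤ 4 ^ T * L := by
        intro k hk l hl
        rw [mem_range] at hk hl
        refine b05_mul (b05_cw T pos oA oB i j k l hi hj hk hl) (h _ ?_)
        intro x hx
        rw [List.mem_append, List.mem_cons, List.mem_cons] at hx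
        rcases hx with hx | rfl | rfl | hx
        · exact htake p x hx
        · exact hk
        · exact hl
        · exact hr x (by simp [hx])
      have h2 := b05_sums (s := range T) fun k hk => b05_sums (s := range T) (h1 k hk)
      refine ⟨h2.1, h2.2.trans ?_⟩
      rw [card_range]
      calc (T : ℝ) * (T * (4 ^ T * L)) = (T * (T * 4 ^ T)) * L := by ring
        _ ≤ Real.exp (4 * T) * L := mul_le_mul_of_nonneg_right (b05_exp T) hL
  | cup p o =>
    simp only [OP.act]
    rcases hd : s.drop p with _ | ⟨i, _ | ⟨j, r⟩⟩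
    · exact hzero
    · exact hzero
    · have hr := hdrop p
      rw [hd] at hr
      have hi : i < T := hr i (by simp)
      dsimp only
      split_ifs with hij
      · have h1 := b05_mul (b05_cup T o i hi) (h (s.take p ++ r) (by
          intro x hx
          rw [List.mem_append] at hx
          rcases hx with hx | hx
          · exact htake p x hx
          · exact hr x (by simp [hx])))
        exact ⟨h1.1, h1.2.trans (mul_le_mul_of_nonneg_right hE hL)⟩
      · exact hzero
  | cap p o =>
    simp only [OP.act]
    split_ifs with hp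
    · have h1 : ∀ i ∈ range T,
          (capw (20 * T ^ 2) o i * φ (s.take p ++ i :: i :: s.drop p)).natDegree ≤
            48 * T ^ 2 + D ∧
          l1 (capw (20 * T ^ 2) o i * φ (s.take p ++ i :: i :: s.drop p)) ≤ 1 * L := by
        intro i hi
        rw [mem_range] at hi
        refine b05_mul (b05_cap T o i hi) (h _ ?_)
        intro x hx
        rw [List.mem_append, List.mem_cons, List.mem_cons] at hx
        rcases hx with hx | rfl | rfl | hx
        · exact htake p x hx
        · exact hi
        · exact hi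
        · exact hdrop p x hx
      have h2 := b05_sums (s := range T) h1
      refine ⟨h2.1, h2.2.trans ?_⟩
      rw [card_range, one_mul]
      refine mul_le_mul_of_nonneg_right ?_ hL
      have h3 : (1 : ℝ) ≤ T := by exact_mod_cast hT
      have h4 : (T : ℝ) ≤ T * (T * 4 ^ T) := by
        have h5 : (1 : ℝ) ≤ 4 ^ T := one_le_pow₀ (by norm_num)
        nlinarith [mul_le_mul h3 h5 (by norm_num) (by positivity)]
      exact h4.trans (b05_exp T)
    · exact hzero

theorem b05_fold (T : ℕ) (hT : 1 ≤ T) (ops : List OP) : ∀ (D : ℕ) (L : ℝ), 0 ≤ L →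
    ∀ φ : List ℕ → ℤ[X], b05_Bd T D L φ →
      b05_Bd T (48 * T ^ 2 * ops.length + D) (Real.exp (4 * T) ^ ops.length * L)
        (ops.foldl (fun φ P => P.act (20 * T ^ 2) T φ) φ) := by
  induction ops with
  | nil =>
    intro D L hL φ h
    simpa using h
  | cons P ops ih =>
    intro D L hL φ h
    have h1 := ih (48 * T ^ 2 + D) (Real.exp (4 * T) * L) (by positivity) _
      (b05_act T hT P D L hL φ h)
    intro s hs
    obtain ⟨h2, h3⟩ := h1 s hs
    rw [List.foldl_cons, List.length_cons]
    refine ⟨h2.trans (by ring_nf; omega), h3.trans (le_of_eq ?_)⟩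
    rw [pow_succ]
    ring

/-- B05. Degree and size of the state sum. -/
theorem b05 (ops : List OP) : ∃ C : ℝ, 1 ≤ C ∧ ∀ T : ℕ, 1 ≤ T →
    ((PP (20 * T ^ 2) T ops).natDegree : ℝ) ≤ C * T ^ 2 ∧
      l1 (PP (20 * T ^ 2) T ops) ≤ Real.exp (C * T) := by
  refine ⟨48 * ops.length + 1, by linarith [(Nat.cast_nonneg ops.length : (0 : ℝ) ≤ ops.length)],
    fun T hT => ?_⟩
  have h0 : b05_Bd T 0 1 (fun s => if s = [0] then 1 else 0) := by
    intro s _
    dsimp only
    split_ifs
    · exact ⟨by simp, b05_one⟩
    · rw [natDegree_zero, b05_zero]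
      exact ⟨le_rfl, by norm_num⟩
  have h1 := b05_fold T hT ops 0 1 (by norm_num) _ h0 [0] (by
    intro x hx
    rw [List.mem_singleton] at hx
    omega)
  have h1' : (PP (20 * T ^ 2) T ops).natDegree ≤ 48 * T ^ 2 * ops.length + 0 ∧
      l1 (PP (20 * T ^ 2) T ops) ≤ Real.exp (4 * T) ^ ops.length * 1 := h1
  have hl : (0 : ℝ) ≤ ops.length := Nat.cast_nonneg _
  have hT' : (0 : ℝ) ≤ T := Nat.cast_nonneg _
  constructor
  · have h2 : ((PP (20 * T ^ 2) T ops).natDegree : ℝ) ≤ ((48 * T ^ 2 * ops.length + 0 : ℕ) : ℝ) := by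
      exact_mod_cast h1'.1
    refine h2.trans ?_
    push_cast
    nlinarith [sq_nonneg (T : ℝ)]
  · refine h1'.2.trans ?_
    rw [mul_one, ← Real.exp_nat_mul]
    apply Real.exp_le_exp.2
    nlinarith [mul_nonneg hl hT']

end Pool.Agent.NV

end

section

/-!
# NV, block B06: the state sums at the Galois conjugates
-/

set_option autoImplicit false

namespace Pool.Agent.NV

open Pool.Agent.Lib_helper77.VC Polynomial Finset

theorem b06_norm (N b g : ℕ) (hN : 1 ≤ N) :
    ‖(rt N ^ b) ^ (4 * g) - 1‖ = |2 * Real.sin (Real.pi * g * b / N)| := by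
  have hN' : (N : ℂ) ≠ 0 := by exact_mod_cast (by omega : N ≠ 0)
  have e : (rt N ^ b) ^ (4 * g) =
      Complex.exp (Complex.I * ((2 * (Real.pi * g * b / N) : ℝ) : ℂ)) := by
    unfold rt
    rw [← Complex.exp_nat_mul, ← Complex.exp_nat_mul]
    congr 1
    push_cast
    field_simp
    ring
  rw [e, Complex.norm_exp_I_mul_ofReal_sub_one, Real.norm_eq_abs]
  congr 3
  ring

theorem b06_sin (N b g : ℕ) (hb : b.Coprime (4 * N)) (h1 : 1 ≤ g) (h2 : g < N) :
    Real.sin (Real.pi * g * b / N) ≠ 0 := by
  intro h
  obtain ⟨k, hk⟩ := Real.sin_eq_zero_iff.1 h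
  have hN0 : (N : ℝ) ≠ 0 := by
    have : N ≠ 0 := by omega
    exact_mod_cast this
  have h3 : (k : ℝ) * N = g * b := by
    have hpi := Real.pi_ne_zero
    field_simp at hk
    linarith
  have h4 : (k : ℤ) * N = g * b := by exact_mod_cast h3
  have h5 : (N : ℤ) ∣ (g : ℤ) * b := ⟨k, by rw [← h4]; ring⟩
  have h6 : N ∣ g * b := by exact_mod_cast h5
  have h7 : Nat.Coprime N b := (Nat.Coprime.coprime_dvd_right (Dvd.intro_left 4 rfl) hb).symm
  have h8 : N ∣ g := h7.dvd_of_dvd_mul_right h6
  have := Nat.le_of_dvd (by omega) h8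
  omega

theorem b06_fp0 (N b : ℕ) (hN : 1 ≤ N) (hb : b.Coprime (4 * N)) (n : ℕ) (hn : n < N) :
    ‖aeval (rt N ^ b) (fp 0 n)‖ = Real.exp (SS N b n) := by
  induction n with
  | zero => simp [fp, SS]
  | succ n ih =>
    have e1 : fp 0 (n + 1) = fp 0 n * (X ^ (4 * (n + 1)) - 1) := by
      unfold fp
      rw [prod_Ioc_succ_top (Nat.zero_le n)]
    have e2 : SS N b (n + 1) = SS N b n +
        Real.log |2 * Real.sin (Real.pi * ((n : ℝ) + 1) * b / N)| := by
      unfold SS
      rw [sum_range_succ]
    have h3 := b06_sin N b (n + 1) hb (by omega) hn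
    push_cast at h3
    have h4 : 0 < |2 * Real.sin (Real.pi * ((n : ℝ) + 1) * b / N)| :=
      abs_pos.2 (mul_ne_zero two_ne_zero h3)
    rw [e1, e2, map_mul, norm_mul, ih (by omega), Real.exp_add, Real.exp_log h4]
    congr 1
    simp only [map_sub, map_pow, aeval_X, map_one]
    rw [b06_norm N b (n + 1) hN]
    push_cast
    rfl

section

variable {N b : ℕ} {M : ℝ} (hN : 1 ≤ N) (hb : b.Coprime (4 * N))
  (hM : ∀ n, n < N → |SS N b n| ≤ M)
include hN hb hM

theorem b06_fp (a c : ℕ) (h : c ≤ a) (ha : a < N) :
    ‖aeval (rt N ^ b) (fp c a)‖ ≤ Real.exp (2 * M) := by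
  have e : fp 0 a = fp 0 c * fp c a := by
    unfold fp
    exact (prod_Ioc_consecutive _ (Nat.zero_le c) h).symm
  have h1 := b06_fp0 N b hN hb a ha
  rw [e, map_mul, norm_mul, b06_fp0 N b hN hb c (by omega)] at h1
  have h2 : ‖aeval (rt N ^ b) (fp c a)‖ = Real.exp (SS N b a - SS N b c) := by
    rw [Real.exp_sub, eq_div_iff (Real.exp_pos _).ne']
    linarith
  rw [h2]
  apply Real.exp_le_exp.2
  have h3 := (abs_le.1 (hM a ha)).2
  have h4 := (abs_le.1 (hM c (by omega))).1
  linarith

theorem b06_gb (a n : ℕ) (h : n ≤ a) (ha : a < N) :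
    ‖aeval (rt N ^ b) (gb a n)‖ ≤ Real.exp (3 * M) := by
  have h1 := congrArg (fun P => ‖aeval (rt N ^ b) P‖) (b04a a n h)
  simp only [map_mul, norm_mul] at h1
  rw [b06_fp0 N b hN hb a ha, b06_fp0 N b hN hb n (by omega),
    b06_fp0 N b hN hb (a - n) (by omega)] at h1
  have h2 : ‖aeval (rt N ^ b) (gb a n)‖ =
      Real.exp (SS N b a - (SS N b n + SS N b (a - n))) := by
    rw [Real.exp_sub, Real.exp_add, eq_div_iff (by positivity)]
    exact h1
  rw [h2]
  apply Real.exp_le_exp.2
  have h3 := (abs_le.1 (hM a ha)).2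
  have h4 := (abs_le.1 (hM n (by omega))).1
  have h5 := (abs_le.1 (hM (a - n) (by omega))).1
  linarith

omit hN hb hM in
theorem b06_X (k : ℕ) : ‖aeval (rt N ^ b) (X ^ k : ℤ[X])‖ = 1 := by
  rw [map_pow, aeval_X, norm_pow, norm_pow, norm_rt, one_pow, one_pow]

omit hN hb hM in
theorem b06_sgn (k : ℕ) : ‖aeval (rt N ^ b) ((-1) ^ k : ℤ[X])‖ = 1 := by
  rw [map_pow, map_neg, map_one, norm_pow, norm_neg, norm_one, one_pow]

theorem b06_cw (K : ℕ) (pos oA oB : Bool) (i j k l : ℕ) (hi : i < N) (hj : j < N)
    (hk : k < N) (hl : l < N) :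
    ‖aeval (rt N ^ b) (cw K pos oA oB i j k l)‖ ≤ Real.exp (5 * M) := by
  unfold cw
  split_ifs with h
  · obtain ⟨h1, h2⟩ := h
    have d1 : decIn pos oA oB i j k l < N := by
      cases pos <;> cases oA <;> cases oB <;> simp [decIn, lin] <;> assumption
    have d2 : incOut pos oA oB i j k l < N := by
      cases pos <;> cases oA <;> cases oB <;> simp [incOut, lout] <;> assumption
    have d3 : decIn pos oA oB i j k l - decOut pos oA oB i j k l ≤ incOut pos oA oB i j k l := by
      omega
    simp only [map_mul, norm_mul]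
    rw [b06_X, b06_sgn]
    have h3 := b06_fp hN hb hM _ _ h1 d1
    have h4 := b06_gb hN hb hM _ _ d3 d2
    have e : Real.exp (5 * M) = Real.exp (2 * M) * Real.exp (3 * M) := by
      rw [← Real.exp_add]
      ring_nf
    rw [e, one_mul, one_mul]
    exact mul_le_mul h3 h4 (norm_nonneg _) (Real.exp_pos _).le
  · rw [map_zero, norm_zero]
    exact (Real.exp_pos _).le

/-- one piece -/
theorem b06_step (hM0 : 0 ≤ M) (K : ℕ) (P : OP) (φ : List ℕ → ℤ[X]) (B : ℝ) (hB : 0 ≤ B)
    (hφ : ∀ s : List ℕ, (∀ x ∈ s, x < N) → ‖aeval (rt N ^ b) (φ s)‖ ≤ B) :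
    ∀ s : List ℕ, (∀ x ∈ s, x < N) →
      ‖aeval (rt N ^ b) (P.act K N φ s)‖ ≤ (N : ℝ) ^ 2 * Real.exp (5 * M) * B := by
  intro s hs
  have hE : 1 ≤ Real.exp (5 * M) := Real.one_le_exp (by linarith)
  have hN1 : (1 : ℝ) ≤ N := by exact_mod_cast hN
  have hN2 : (1 : ℝ) ≤ (N : ℝ) ^ 2 := one_le_pow₀ hN1
  have htot : 0 ≤ (N : ℝ) ^ 2 * Real.exp (5 * M) * B := by positivity
  have hBtot : B ≤ (N : ℝ) ^ 2 * Real.exp (5 * M) * B := by
    apply le_mul_of_one_le_left hB
    exact one_le_mul_of_one_le_of_one_le hN2 hE
  have htake : ∀ p, ∀ x ∈ s.take p, x < N := fun p x hx => hs x (List.mem_of_mem_take hx)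
  have hdrop : ∀ p, ∀ x ∈ s.drop p, x < N := fun p x hx => hs x (List.mem_of_mem_drop hx)
  rcases P with ⟨p, pos, oA, oB⟩ | ⟨p, o⟩ | ⟨p, o⟩
  · simp only [OP.act]
    rcases hd : s.drop p with _ | ⟨i, _ | ⟨j, r⟩⟩
    · simpa using htot
    · simpa using htot
    · have hdp := hdrop p
      rw [hd] at hdp
      have hi : i < N := hdp i (by simp)
      have hj : j < N := hdp j (by simp)
      have hr : ∀ x ∈ r, x < N := fun x hx => hdp x (by simp [hx])
      simp only [map_sum]
      refine (norm_sum_le _ _).trans ?_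
      have hin : ∀ k ∈ range N, ‖∑ l ∈ range N, aeval (rt N ^ b)
          (cw K pos oA oB i j k l * φ (s.take p ++ k :: l :: r))‖ ≤
          N * (Real.exp (5 * M) * B) := by
        intro k hk
        refine (norm_sum_le _ _).trans ?_
        have hl : ∀ l ∈ range N, ‖aeval (rt N ^ b)
            (cw K pos oA oB i j k l * φ (s.take p ++ k :: l :: r))‖ ≤
            Real.exp (5 * M) * B := by
          intro l hl
          rw [map_mul, norm_mul]
          refine mul_le_mul (b06_cw hN hb hM K pos oA oB i j k l hi hj (mem_range.1 hk)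
            (mem_range.1 hl)) (hφ _ ?_) (norm_nonneg _) (Real.exp_pos _).le
          intro x hx
          rw [List.mem_append, List.mem_cons, List.mem_cons] at hx
          rcases hx with hx | rfl | rfl | hx
          · exact htake p x hx
          · exact mem_range.1 hk
          · exact mem_range.1 hl
          · exact hr x hx
        refine (sum_le_sum hl).trans ?_
        rw [sum_const, card_range, nsmul_eq_mul]
      refine (sum_le_sum hin).trans ?_
      rw [sum_const, card_range, nsmul_eq_mul]
      exact le_of_eq (by ring)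
  · simp only [OP.act]
    rcases hd : s.drop p with _ | ⟨i, _ | ⟨j, r⟩⟩
    · simpa using htot
    · simpa using htot
    · have hdp := hdrop p
      rw [hd] at hdp
      have hr : ∀ x ∈ r, x < N := fun x hx => hdp x (by simp [hx])
      dsimp only
      split_ifs with hij
      · rw [map_mul, norm_mul]
        have h1 : ‖aeval (rt N ^ b) (cupw K o i)‖ = 1 := by
          unfold cupw
          split_ifs <;> rw [map_mul, norm_mul, b06_sgn, b06_X, one_mul]
        rw [h1, one_mul]
        refine (hφ _ ?_).trans hBtot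
        intro x hx
        rw [List.mem_append] at hx
        rcases hx with hx | hx
        · exact htake p x hx
        · exact hr x hx
      · simpa using htot
  · simp only [OP.act]
    split_ifs with hp
    · simp only [map_sum]
      refine (norm_sum_le _ _).trans ?_
      have hl : ∀ i ∈ range N, ‖aeval (rt N ^ b)
          (capw K o i * φ (s.take p ++ i :: i :: s.drop p))‖ ≤ B := by
        intro i hi
        rw [map_mul, norm_mul]
        have h1 : ‖aeval (rt N ^ b) (capw K o i)‖ = 1 := by
          unfold capw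
          split_ifs <;> rw [map_mul, norm_mul, b06_sgn, b06_X, one_mul]
        rw [h1, one_mul]
        refine hφ _ ?_
        intro x hx
        rw [List.mem_append, List.mem_cons, List.mem_cons] at hx
        rcases hx with hx | rfl | rfl | hx
        · exact htake p x hx
        · exact mem_range.1 hi
        · exact mem_range.1 hi
        · exact hdrop p x hx
      refine (sum_le_sum hl).trans ?_
      rw [sum_const, card_range, nsmul_eq_mul]
      have h2 : (N : ℝ) ≤ (N : ℝ) ^ 2 * Real.exp (5 * M) := by
        calc (N : ℝ) = N * 1 := (mul_one _).symm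
          _ ≤ (N : ℝ) ^ 2 * Real.exp (5 * M) := by
              apply mul_le_mul _ hE zero_le_one (by positivity)
              exact le_self_pow₀ hN1 (by norm_num)
      exact mul_le_mul_of_nonneg_right h2 hB
    · simpa using htot

theorem b06_fold (hM0 : 0 ≤ M) (K : ℕ) (ops : List OP) : ∀ (φ : List ℕ → ℤ[X]) (B : ℝ), 0 ≤ B →
    (∀ s : List ℕ, (∀ x ∈ s, x < N) → ‖aeval (rt N ^ b) (φ s)‖ ≤ B) →
    ∀ s : List ℕ, (∀ x ∈ s, x < N) →
      ‖aeval (rt N ^ b) (ops.foldl (fun φ P => P.act K N φ) φ s)‖ ≤
        ((N : ℝ) ^ 2 * Real.exp (5 * M)) ^ ops.length * B := by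
  induction ops with
  | nil =>
    intro φ B hB hφ s hs
    simpa using hφ s hs
  | cons P ops ih =>
    intro φ B hB hφ s hs
    rw [List.foldl_cons, List.length_cons]
    have h1 := ih (P.act K N φ) ((N : ℝ) ^ 2 * Real.exp (5 * M) * B) (by positivity)
      (b06_step hN hb hM hM0 K P φ B hB hφ) s hs
    refine h1.trans (le_of_eq ?_)
    ring

end

/-- B06. Bound at the Galois conjugates. -/
theorem b06 (ops : List OP) : ∃ C : ℝ, 1 ≤ C ∧ ∀ N : ℕ, 2 ≤ N → ∀ b : ℕ, b.Coprime (4 * N) →
    ∀ M : ℝ, 0 ≤ M → (∀ n, n < N → |SS N b n| ≤ M) →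
      ‖aeval (rt N ^ b) (PP (20 * N ^ 2) N ops)‖ ≤ Real.exp (C * (Real.log N + M)) := by
  refine ⟨5 * ops.length + 1, by
    have : (0 : ℝ) ≤ ops.length := Nat.cast_nonneg _
    linarith, ?_⟩
  intro N hN b hb M hM0 hM
  have h1 := b06_fold (by omega) hb hM hM0 (20 * N ^ 2) ops (fun s => if s = [0] then 1 else 0) 1
    zero_le_one (by
      intro s _
      split_ifs
      · simp
      · simp) [0] (by
      intro x hx
      rw [List.mem_singleton] at hx
      omega)
  unfold PP
  refine h1.trans ?_
  have hN0 : (0 : ℝ) < N := by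
    have : 0 < N := by omega
    exact_mod_cast this
  have hlN : 0 ≤ Real.log N := Real.log_natCast_nonneg N
  have e : (N : ℝ) ^ 2 * Real.exp (5 * M) = Real.exp (2 * Real.log N + 5 * M) := by
    rw [Real.exp_add]
    congr 1
    rw [show (2 : ℝ) * Real.log N = ((2 : ℕ) : ℝ) * Real.log N by norm_num, ← Real.log_pow,
      Real.exp_log (by positivity)]
  rw [e, mul_one, ← Real.exp_nat_mul]
  apply Real.exp_le_exp.2
  have hl : (0 : ℝ) ≤ ops.length := Nat.cast_nonneg _
  have h2 : 2 * Real.log N + 5 * M ≤ 5 * (Real.log N + M) := by linarith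
  calc (ops.length : ℝ) * (2 * Real.log N + 5 * M) ≤ ops.length * (5 * (Real.log N + M)) := by
        gcongr
    _ ≤ (5 * ops.length + 1) * (Real.log N + M) := by
        have : 0 ≤ Real.log N + M := by linarith
        linarith

end Pool.Agent.NV

end

section

set_option autoImplicit false

namespace Pool.Agent.NV

open Pool.Agent.Lib_helper77.VC Polynomial Finset

/-- the state sum, pieces from top to bottom -/
noncomputable def b07_F (K T : ℕ) : List OP → List ℕ → ℤ[X]
  | [] => fun s => if s = [0] then 1 else 0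
  | P :: rops => P.act K T (b07_F K T rops)

theorem b07_foldr (K T : ℕ) (rops : List OP) :
    rops.foldr (fun P φ => P.act K T φ) (fun s => if s = [0] then 1 else 0) = b07_F K T rops := by
  induction rops with
  | nil => rfl
  | cons P rops ih =>
    rw [List.foldr_cons, ih]
    rfl

theorem b07_PP (K T : ℕ) (ops : List OP) : PP K T ops = b07_F K T ops.reverse [0] := by
  unfold PP
  rw [← b07_foldr, List.foldr_reverse]

theorem b07_take {s r : List ℕ} {p i : ℕ} (h : s.drop p = i :: r) : (s.take p).length = p := by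
  have h1 : (s.drop p).length = s.length - p := List.length_drop
  rw [h, List.length_cons] at h1
  rw [List.length_take]
  omega

theorem b07_drop {s t : List ℕ} {p : ℕ} (h : (s.take p).length = p) :
    (s.take p ++ t).drop p = t := by
  rw [List.drop_append_of_le_length h.ge, List.drop_of_length_le h.le, List.nil_append]

theorem b07_sum_range (T : ℕ) (f : ℕ → ℤ[X]) :
    ((List.range T).map f).sum = ∑ k ∈ range T, f k := by
  rw [Finset.sum_range, ← List.sum_ofFn]
  congr 1
  rw [List.ofFn_eq_map]
  rw [← List.map_coe_finRange_eq_range, List.map_map]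
  rfl

/-- one piece -/
theorem b07_act (K T : ℕ) (P : OP) (φ : List ℕ → ℤ[X]) (s : List ℕ) :
    P.act K T φ s = ((P.nb T s).map (fun s' => P.wt K s s' * φ s')).sum := by
  cases P with
  | cr p pos oA oB =>
    rcases h : s.drop p with _ | ⟨i, _ | ⟨j, r⟩⟩
    · simp [OP.act, OP.nb, h]
    · simp [OP.act, OP.nb, h]
    · have hl := b07_take h
      simp only [OP.act, OP.nb, OP.wt, h]
      rw [List.map_flatMap, List.flatMap_def, List.sum_flatten, List.map_map, ← b07_sum_range]
      congr 1
      refine List.map_congr_left fun k _ => ?_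
      simp only [Function.comp_apply, List.map_map]
      rw [← b07_sum_range]
      congr 1
      refine List.map_congr_left fun l _ => ?_
      simp only [Function.comp_apply]
      rw [b07_drop hl]
  | cup p o =>
    rcases h : s.drop p with _ | ⟨i, _ | ⟨j, r⟩⟩
    · simp [OP.act, OP.nb, h]
    · simp [OP.act, OP.nb, h]
    · simp only [OP.act, OP.nb, OP.wt, h]
      split_ifs with hij
      · simp
      · simp
  | cap p o =>
    simp only [OP.act, OP.nb, OP.wt]
    split_ifs with hp
    · have hl : (s.take p).length = p := by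
        rw [List.length_take]
        omega
      rw [List.map_map, ← b07_sum_range]
      congr 1
      refine List.map_congr_left fun i _ => ?_
      simp only [Function.comp_apply]
      rw [b07_drop hl]
    · simp

theorem b07_head (T : ℕ) (rops : List OP) (s : List ℕ) :
    ∀ L ∈ hist T rops s, ∃ L', L = s :: L' := by
  cases rops with
  | nil =>
    intro L hL
    unfold hist at hL
    split_ifs at hL with h
    · rw [List.mem_singleton] at hL
      exact ⟨[], hL⟩
    · simp at hL
  | cons P rops =>
    intro L hL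
    unfold hist at hL
    rw [List.mem_flatMap] at hL
    obtain ⟨s', -, hL⟩ := hL
    rw [List.mem_map] at hL
    obtain ⟨L', -, rfl⟩ := hL
    exact ⟨L', rfl⟩

/-- the sum over the histories -/
theorem b07_hsum (K T : ℕ) (rops : List OP) :
    ∀ s, b07_F K T rops s = ((hist T rops s).map (WW K rops)).sum := by
  induction rops with
  | nil =>
    intro s
    simp only [b07_F, hist]
    split_ifs with h
    · simp [WW]
    · simp
  | cons P rops ih =>
    intro s
    show P.act K T (b07_F K T rops) s = _
    rw [b07_act]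
    unfold hist
    rw [List.map_flatMap, List.flatMap_def, List.sum_flatten, List.map_map]
    congr 1
    refine List.map_congr_left fun s' _ => ?_
    simp only [Function.comp_apply, List.map_map]
    rw [ih s', ← List.sum_map_mul_left]
    congr 1
    refine List.map_congr_left fun L hL => ?_
    obtain ⟨L', rfl⟩ := b07_head T rops s' L hL
    rfl

/-! The filter. -/

theorem b07_range {T T' : ℕ} (h : T ≤ T') :
    (List.range T').filter (fun k => decide (k < T)) = List.range T := by
  obtain ⟨n, rfl⟩ := Nat.exists_eq_add_of_le h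
  rw [List.range_add, List.filter_append]
  have h1 : (List.range T).filter (fun k => decide (k < T)) = List.range T := by
    rw [List.filter_eq_self]
    intro a ha
    simpa using List.mem_range.mp ha
  have h2 : ((List.range n).map (fun x => T + x)).filter (fun k => decide (k < T)) = [] := by
    rw [List.filter_eq_nil_iff]
    intro a ha
    rw [List.mem_map] at ha
    obtain ⟨b, -, rfl⟩ := ha
    simp
  rw [h1, h2, List.append_nil]

theorem b07_flatMap_ite {α β : Type} (q : α → Bool) (g : α → List β) (l : List α) :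
    (l.flatMap fun a => if q a = true then g a else []) = (l.filter q).flatMap g := by
  induction l with
  | nil => rfl
  | cons a l ih =>
    rw [List.flatMap_cons, ih, List.filter_cons]
    split_ifs with h
    · rw [List.flatMap_cons]
    · rw [List.nil_append]

/-- all labels `< T` -/
def b07_q (T : ℕ) (s : List ℕ) : Bool := decide (∀ x ∈ s, x < T)

/-- all labels `< T` -/
def b07_p (T : ℕ) (L : List (List ℕ)) : Bool := decide (∀ s ∈ L, ∀ x ∈ s, x < T)

theorem b07_p_cons (T : ℕ) (s : List ℕ) (L : List (List ℕ)) :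
    b07_p T (s :: L) = (b07_q T s && b07_p T L) := by
  unfold b07_p b07_q
  rw [← Bool.decide_and]
  congr 1
  simp

theorem b07_nb {T T' : ℕ} (h : T ≤ T') (P : OP) (s : List ℕ) (hs : b07_q T s = true) :
    (P.nb T' s).filter (b07_q T) = P.nb T s := by
  have hs' : ∀ x ∈ s, x < T := by simpa [b07_q] using hs
  cases P with
  | cr p pos oA oB =>
    rcases hd : s.drop p with _ | ⟨i, _ | ⟨j, r⟩⟩
    · simp [OP.nb, hd]
    · simp [OP.nb, hd]
    · have ht : ∀ x ∈ s.take p, x < T := fun x hx => hs' x (List.mem_of_mem_take hx)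
      have hr : ∀ x ∈ r, x < T := fun x hx => hs' x (List.mem_of_mem_drop (i := p) (by
        rw [hd]
        simp [hx]))
      have hq : ∀ k l, b07_q T (s.take p ++ k :: l :: r) = (decide (k < T) && decide (l < T)) := by
        intro k l
        unfold b07_q
        rw [← Bool.decide_and]
        congr 1
        apply propext
        constructor
        · intro h
          exact ⟨h k (by simp), h l (by simp)⟩
        · rintro ⟨h1, h2⟩ x hx
          rw [List.mem_append, List.mem_cons, List.mem_cons] at hx
          rcases hx with hx | rfl | rfl | hx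
          · exact ht x hx
          · exact h1
          · exact h2
          · exact hr x hx
      simp only [OP.nb, hd]
      rw [List.filter_flatMap]
      have e : ∀ k, List.filter (b07_q T) ((List.range T').map fun l => s.take p ++ k :: l :: r) =
          if (decide (k < T)) = true then (List.range T).map (fun l => s.take p ++ k :: l :: r)
          else [] := by
        intro k
        rw [List.filter_map]
        have e1 : (b07_q T) ∘ (fun l => s.take p ++ k :: l :: r) =
            fun l => (decide (k < T) && decide (l < T)) := by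
          funext l
          exact hq k l
        rw [e1]
        by_cases hk : k < T
        · simp only [hk, decide_true, Bool.true_and, if_true]
          rw [b07_range h]
        · simp [hk]
      rw [funext e, b07_flatMap_ite, b07_range h]
  | cup p o =>
    rcases hd : s.drop p with _ | ⟨i, _ | ⟨j, r⟩⟩
    · simp [OP.nb, hd]
    · simp [OP.nb, hd]
    · simp only [OP.nb, hd]
      split_ifs with hij
      · rw [List.filter_eq_self]
        intro a ha
        rw [List.mem_singleton] at ha
        subst ha
        unfold b07_q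
        rw [decide_eq_true_iff]
        intro x hx
        rw [List.mem_append] at hx
        rcases hx with hx | hx
        · exact hs' x (List.mem_of_mem_take hx)
        · exact hs' x (List.mem_of_mem_drop (i := p) (by
            rw [hd]
            simp [hx]))
      · rfl
  | cap p o =>
    simp only [OP.nb]
    split_ifs with hp
    · rw [List.filter_map]
      have e1 : (b07_q T) ∘ (fun i => s.take p ++ i :: i :: s.drop p) =
          fun i => decide (i < T) := by
        funext i
        show b07_q T (s.take p ++ i :: i :: s.drop p) = _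
        unfold b07_q
        congr 1
        apply propext
        constructor
        · intro h
          exact h i (by simp)
        · intro h1 x hx
          rw [List.mem_append, List.mem_cons, List.mem_cons] at hx
          rcases hx with hx | rfl | rfl | hx
          · exact hs' x (List.mem_of_mem_take hx)
          · exact h1
          · exact h1
          · exact hs' x (List.mem_of_mem_drop hx)
      rw [e1, b07_range h]
    · rfl

theorem b07_hist {T T' : ℕ} (h : T ≤ T') (rops : List OP) :
    ∀ s, (hist T' rops s).filter (b07_p T) = if b07_q T s = true then hist T rops s else [] := by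
  induction rops with
  | nil =>
    intro s
    unfold hist
    by_cases h0 : s = [0]
    · simp only [h0, if_true]
      rw [List.filter_cons, List.filter_nil, b07_p_cons]
      have : b07_p T [] = true := by simp [b07_p]
      rw [this, Bool.and_true]
    · simp [h0]
  | cons P rops ih =>
    intro s
    unfold hist
    rw [List.filter_flatMap]
    by_cases hs : b07_q T s = true
    · rw [if_pos hs]
      have e : ∀ s', List.filter (b07_p T) ((hist T' rops s').map fun L => s :: L) =
          if b07_q T s' = true then (hist T rops s').map (fun L => s :: L) else [] := by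
        intro s'
        rw [List.filter_map]
        have e1 : (b07_p T) ∘ (fun L => s :: L) = b07_p T := by
          funext L
          show b07_p T (s :: L) = _
          rw [b07_p_cons, hs, Bool.true_and]
        rw [e1, ih s']
        split_ifs
        · rfl
        · rfl
      rw [funext e, b07_flatMap_ite, b07_nb h P s hs]
    · rw [if_neg hs]
      rw [List.flatMap_eq_nil_iff]
      intro s' _
      rw [List.filter_map]
      have e1 : (b07_p T) ∘ (fun L => s :: L) = fun _ => false := by
        funext L
        show b07_p T (s :: L) = _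
        rw [b07_p_cons]
        simp [hs]
      rw [e1]
      simp

/-- B07. The state sum is the sum over the histories. -/
theorem b07 (K T T' : ℕ) (hT : 1 ≤ T) (h : T ≤ T') (ops : List OP) :
    PP K T ops = (((hist T' ops.reverse [0]).filter
      (fun L => decide (∀ s ∈ L, ∀ x ∈ s, x < T))).map (WW K ops.reverse)).sum := by
  have h1 := b07_hist h ops.reverse [0]
  have h2 : b07_q T [0] = true := by
    simp [b07_q]
    omega
  rw [if_pos h2] at h1
  show _ = (((hist T' ops.reverse [0]).filter (b07_p T)).map (WW K ops.reverse)).sum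
  rw [h1, b07_PP, b07_hsum]

end Pool.Agent.NV

end

section

set_option autoImplicit false

namespace Pool.Agent.NV

open Pool.Agent.Lib_helper77.VC Polynomial Finset

theorem b08_snoc {α β : Type} (R : β → List α → List α → Prop) (P : β) (s' s : List α)
    (hR : R P s' s) : ∀ (D : List β) (L : List (List α)), Steps R D (L ++ [s']) →
      Steps R (D ++ [P]) (L ++ [s', s])
  | [], L, h => by
    obtain ⟨t, ht⟩ := h
    have hL : L = [] := by
      cases L with
      | nil => rfl
      | cons a L => simp at ht
    subst hL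
    exact ⟨s', s, [], rfl, hR, s, rfl⟩
  | Q :: D, L, h => by
    obtain ⟨a, b, L', h1, h2, h3⟩ := h
    cases L with
    | nil => simp at h1
    | cons c L1 =>
      simp only [List.cons_append, List.cons.injEq] at h1
      obtain ⟨rfl, h1⟩ := h1
      rw [← h1] at h3
      have h4 := b08_snoc R P s' s hR D L1 h3
      refine ⟨c, b, L' ++ [s], ?_, h2, ?_⟩
      · have : L1 ++ [s', s] = (L1 ++ [s']) ++ [s] := by simp
        rw [List.cons_append, this, h1]; rfl
      · have : b :: (L' ++ [s]) = L1 ++ [s', s] := by
          have h5 : L1 ++ [s', s] = (L1 ++ [s']) ++ [s] := by simp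
          rw [h5, h1]; rfl
        rw [this]; exact h4

theorem b08_rev {α β : Type} (R : β → List α → List α → Prop) :
    ∀ (D : List β) (L : List (List α)), Steps R D L →
      Steps (fun P a b => R P b a) D.reverse L.reverse
  | [], L, h => by
    obtain ⟨s, rfl⟩ := h
    exact ⟨s, rfl⟩
  | P :: D, L, h => by
    obtain ⟨s, s', L', rfl, h2, h3⟩ := h
    have h4 := b08_rev R D _ h3
    rw [List.reverse_cons] at h4
    have h5 := b08_snoc (fun P a b => R P b a) P s' s h2 D.reverse L'.reverse h4
    simpa using h5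

/-- signed number of strands with label at least `n` -/
def b08_Q (n : ℕ) : List Bool → List ℕ → ℤ
  | o :: os, x :: xs => (if n ≤ x then sg o else 0) + b08_Q n os xs
  | _, _ => 0

theorem b08_Q_append (n : ℕ) : ∀ (u w : List Bool) (a r : List ℕ), u.length = a.length →
    b08_Q n (u ++ w) (a ++ r) = b08_Q n u a + b08_Q n w r
  | [], w, [], r, _ => by simp [b08_Q]
  | [], w, x :: a, r, h => by simp at h
  | o :: u, w, [], r, h => by simp at h
  | o :: u, w, x :: a, r, h => by
    have := b08_Q_append n u w a r (by simpa using h)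
    simp only [List.cons_append, b08_Q, this]
    ring

theorem b08_take {α : Type} (p : ℕ) (s : List α) (i j : α) (r : List α)
    (h : s.drop p = i :: j :: r) : (s.take p).length = p ∧ s = s.take p ++ i :: j :: r := by
  constructor
  · have h1 : (s.drop p).length = r.length + 2 := by rw [h]; simp
    rw [List.length_drop] at h1
    rw [List.length_take]; omega
  · conv_lhs => rw [← List.take_append_drop p s, h]

theorem b08_hist_head (T : ℕ) : ∀ (rops : List OP) (s : List ℕ) (L : List (List ℕ)),
    L ∈ hist T rops s → (∃ L2, L = s :: L2) ∧ ∃ L0, L = L0 ++ [[0]]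
  | [], s, L, h => by
    unfold hist at h
    split_ifs at h with h0
    · simp only [List.mem_singleton] at h
      subst h h0
      exact ⟨⟨[], rfl⟩, [], rfl⟩
    · simp at h
  | P :: rops, s, L, h => by
    unfold hist at h
    simp only [List.mem_flatMap, List.mem_map] at h
    obtain ⟨s', hs', L1, hL1, rfl⟩ := h
    obtain ⟨_, L0, h0⟩ := b08_hist_head T rops s' L1 hL1
    exact ⟨⟨L1, rfl⟩, s :: L0, by rw [h0]; rfl⟩

theorem b08_step (K T n : ℕ) (P : OP) (s s' : List ℕ) (o o' : List Bool)
    (hs : s' ∈ P.nb T s) (hW : P.wt K s s' ≠ 0) (hn : n ∉ P.ival s s') (ho : P.ofits o' o) :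
    b08_Q n o' s' ≤ b08_Q n o s ∧ (b08_Q n o s = b08_Q n o' s' →
      P.cfits (s'.map fun x => decide (n ≤ x)) (s.map fun x => decide (n ≤ x))) := by
  cases P with
  | cr p pos oA oB =>
    obtain ⟨u, w, hu, rfl, rfl⟩ := ho
    rcases hd : s.drop p with _ | ⟨i, _ | ⟨j, r⟩⟩
    · simp [OP.nb, hd] at hs
    · simp [OP.nb, hd] at hs
    · simp only [OP.nb, hd, List.mem_flatMap, List.mem_map, List.mem_range] at hs
      obtain ⟨k, hk, l, hl, rfl⟩ := hs
      obtain ⟨ht, hs2⟩ := b08_take p s i j r hd
      have hd' : (s.take p ++ k :: l :: r).drop p = k :: l :: r := by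
        rw [List.drop_append_of_le_length (by rw [ht])]
        rw [List.drop_eq_nil_of_le (by rw [ht])]; rfl
      simp only [OP.wt, hd, hd'] at hW
      simp only [OP.ival, hd, hd', mem_Ioc, not_and, not_le] at hn
      have hc : decOut pos oA oB i j k l ≤ decIn pos oA oB i j k l ∧
          incIn pos oA oB i j k l + decIn pos oA oB i j k l =
            incOut pos oA oB i j k l + decOut pos oA oB i j k l := by
        by_contra hc
        apply hW
        unfold cw
        rw [if_neg hc]
      obtain ⟨hc1, hc2⟩ := hc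
      generalize htk : s.take p = a at *
      subst hs2
      rw [b08_Q_append n u _ a _ (by rw [hu, ht]), b08_Q_append n u _ a _ (by rw [hu, ht])]
      simp only [b08_Q]
      have key : ((if n ≤ k then sg oA else 0) + (if n ≤ l then sg oB else 0) ≤
          (if n ≤ i then sg oB else 0) + (if n ≤ j then sg oA else 0)) ∧
          ((if n ≤ i then sg oB else 0) + (if n ≤ j then sg oA else 0) =
            (if n ≤ k then sg oA else 0) + (if n ≤ l then sg oB else 0) →
            (n ≤ k ↔ n ≤ j) ∧ (n ≤ l ↔ n ≤ i)) := by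
        cases pos <;> cases oA <;> cases oB <;>
          simp only [decOut, decIn, incIn, incOut, lin, lout, sg, if_true, if_false,
            Bool.false_eq_true] at hn hc1 hc2 ⊢ <;>
          (split_ifs <;> constructor <;> (try intro) <;> omega)
      constructor
      · have := key.1
        linarith
      · intro he
        have h2 := key.2 (by linarith)
        refine ⟨a.map fun x => decide (n ≤ x), decide (n ≤ k), decide (n ≤ l),
          r.map fun x => decide (n ≤ x), by rw [List.length_map, ht], ?_, ?_⟩
        · simp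
        · simp [h2.1, h2.2]
  | cup p o1 =>
    obtain ⟨u, w, hu, rfl, rfl⟩ := ho
    rcases hd : s.drop p with _ | ⟨i, _ | ⟨j, r⟩⟩
    · simp [OP.nb, hd] at hs
    · simp [OP.nb, hd] at hs
    · simp only [OP.nb, hd] at hs
      split_ifs at hs with hij
      · simp only [List.mem_singleton] at hs
        subst hij hs
        obtain ⟨ht, hs2⟩ := b08_take p s i i r hd
        generalize htk : s.take p = a at *
        subst hs2
        have he : b08_Q n (u ++ w) (a ++ r) = b08_Q n (u ++ o1 :: (!o1) :: w) (a ++ i :: i :: r) := by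
          rw [b08_Q_append n u _ a _ (by rw [hu, ht]), b08_Q_append n u _ a _ (by rw [hu, ht])]
          simp only [b08_Q]
          cases o1 <;> simp only [sg, Bool.not_true, Bool.not_false, if_true, Bool.false_eq_true,
            if_false] <;> split_ifs <;> ring
        refine ⟨he.le, fun _ => ?_⟩
        refine ⟨a.map fun x => decide (n ≤ x), decide (n ≤ i),
          r.map fun x => decide (n ≤ x), by rw [List.length_map, ht], ?_, ?_⟩ <;> simp
      · simp at hs
  | cap p o1 =>
    obtain ⟨u, w, hu, rfl, rfl⟩ := ho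
    simp only [OP.nb] at hs
    split_ifs at hs with hp
    · simp only [List.mem_map, List.mem_range] at hs
      obtain ⟨i, hi, rfl⟩ := hs
      have ht : (s.take p).length = p := by rw [List.length_take]; omega
      have hs2 : s = s.take p ++ s.drop p := (List.take_append_drop p s).symm
      generalize htk : s.take p = a at *
      generalize hdk : s.drop p = r at *
      subst hs2
      have he : b08_Q n (u ++ o1 :: (!o1) :: w) (a ++ i :: i :: r) = b08_Q n (u ++ w) (a ++ r) := by
        rw [b08_Q_append n u _ a _ (by rw [hu, ht]), b08_Q_append n u _ a _ (by rw [hu, ht])]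
        simp only [b08_Q]
        cases o1 <;> simp only [sg, Bool.not_true, Bool.not_false, if_true, Bool.false_eq_true,
          if_false] <;> split_ifs <;> ring
      refine ⟨he.le, fun _ => ?_⟩
      refine ⟨a.map fun x => decide (n ≤ x), decide (n ≤ i),
        r.map fun x => decide (n ≤ x), by rw [List.length_map, ht], ?_, ?_⟩ <;> simp
    · simp at hs

theorem b08_main (K T n : ℕ) (h1 : 1 ≤ n) : ∀ (rops : List OP) (s : List ℕ)
    (L : List (List ℕ)) (Lo : List (List Bool)) (o : List Bool), L ∈ hist T rops s →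
    WW K rops L ≠ 0 → n ∉ passed rops L →
    Steps (fun P a b => OP.ofits P b a) rops (o :: Lo) →
    0 ≤ b08_Q n o s ∧ (b08_Q n o s = 0 →
      Steps (fun P a b => OP.cfits P b a) rops (L.map fun s => s.map fun x => decide (n ≤ x)))
  | [], s, L, Lo, o, hL, _, _, _ => by
    unfold hist at hL
    split_ifs at hL with h0
    · simp only [List.mem_singleton] at hL
      subst hL h0
      have hQ : b08_Q n o [0] = 0 := by
        cases o with
        | nil => rfl
        | cons a o =>
          have : ¬ n ≤ 0 := by omega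
          cases o <;> simp [b08_Q, this]
      exact ⟨hQ.ge, fun _ => ⟨_, rfl⟩⟩
    · simp at hL
  | P :: rops, s, L, Lo, o, hL, hW, hn, hS => by
    unfold hist at hL
    simp only [List.mem_flatMap, List.mem_map] at hL
    obtain ⟨s', hs', L1, hL1, rfl⟩ := hL
    obtain ⟨⟨L2, rfl⟩, _⟩ := b08_hist_head T rops s' L1 hL1
    obtain ⟨a, b, L', he, hR, hS'⟩ := hS
    simp only [List.cons.injEq] at he
    obtain ⟨rfl, rfl⟩ := he
    simp only [WW] at hW
    simp only [passed, mem_union, not_or] at hn
    have hW1 := left_ne_zero_of_mul hW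
    have hW2 := right_ne_zero_of_mul hW
    obtain ⟨i1, i2⟩ := b08_main K T n h1 rops s' (s' :: L2) L' b hL1 hW2 hn.2 hS'
    obtain ⟨j1, j2⟩ := b08_step K T n P s s' o b hs' hW1 hn.1 hR
    refine ⟨le_trans i1 j1, fun hz => ?_⟩
    have hz' : b08_Q n b s' = 0 := le_antisymm (by rw [← hz]; exact j1) i1
    refine ⟨_, _, _, rfl, j2 (by rw [hz, hz']), i2 hz'⟩

/-- B08. In a history of a knot all thresholds up to the largest label are passed. -/
theorem b08 (ops : List OP) (h : OKnot ops) (K T : ℕ) (L : List (List ℕ))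
    (hL : L ∈ hist T ops.reverse [0]) (hW : WW K ops.reverse L ≠ 0) (n : ℕ) (h1 : 1 ≤ n)
    (hx : ∃ s ∈ L, ∃ x ∈ s, n ≤ x) : n ∈ passed ops.reverse L := by
  by_contra hn
  obtain ⟨⟨Lo, hLo⟩, hk⟩ := h
  have hr := b08_rev OP.ofits ops _ hLo
  obtain ⟨o, Lo', hLo'⟩ : ∃ o Lo', ([true] :: Lo).reverse = o :: Lo' := by
    cases hc : ([true] :: Lo).reverse with
    | nil => simp at hc
    | cons o Lo' => exact ⟨o, Lo', rfl⟩
  rw [hLo'] at hr
  obtain ⟨_, m2⟩ := b08_main K T n h1 ops.reverse [0] L Lo' o hL hW hn hr
  have hQ : b08_Q n o [0] = 0 := by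
    have : ¬ n ≤ 0 := by omega
    cases o with
    | nil => rfl
    | cons a o => cases o <;> simp [b08_Q, this]
  have hS := b08_rev _ _ _ (m2 hQ)
  rw [List.reverse_reverse] at hS
  obtain ⟨_, L0, hL0⟩ := b08_hist_head T ops.reverse [0] L hL
  have hbot : (L.map fun s => s.map fun x => decide (n ≤ x)).reverse =
      [false] :: (L0.map fun s => s.map fun x => decide (n ≤ x)).reverse := by
    rw [hL0]
    have : decide (n ≤ 0) = false := by simp; omega
    simp
    omega
  rw [hbot] at hS
  have hS' : Steps OP.cfits ops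
      ([false] :: (L0.map fun s => s.map fun x => decide (n ≤ x)).reverse) := hS
  have hall := hk false _ hS'
  obtain ⟨s, hs, x, hxs, hnx⟩ := hx
  have hmem : (s.map fun x => decide (n ≤ x)) ∈
      ([false] :: (L0.map fun s => s.map fun x => decide (n ≤ x)).reverse) := by
    rw [← hbot, List.mem_reverse]
    exact List.mem_map_of_mem hs
  have htm : true ∈ (s.map fun x => decide (n ≤ x)) :=
    List.mem_map.2 ⟨x, hxs, decide_eq_true hnx⟩
  rcases List.mem_cons.1 hmem with h3 | h3
  · rw [h3] at htm
    simp at htm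
  · have := hall _ h3 true htm
    exact absurd this (by decide)

end Pool.Agent.NV

end

section

/-!
# NV: block B09 (helper39): the product over the passed thresholds divides the weight of a history
-/

set_option autoImplicit false

namespace Pool.Agent.NV

open Pool.Agent.Lib_helper77.VC Polynomial Finset

lemma b09_piece (K : ℕ) (P : OP) (s s' : List ℕ) :
    (∏ g ∈ P.ival s s', (X ^ (4 * g) - 1 : ℤ[X])) ∣ P.wt K s s' := by
  cases P with
  | cr p pos oA oB =>
    simp only [OP.ival, OP.wt]
    rcases s.drop p with _ | ⟨i, _ | ⟨j, r⟩⟩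
    · simp
    · simp
    · rcases s'.drop p with _ | ⟨k, _ | ⟨l, r'⟩⟩
      · simp
      · simp
      · simp only [cw]
        split_ifs with h
        · exact Dvd.dvd.mul_left (Dvd.intro _ rfl) _
        · exact dvd_zero _
  | cup p o => simp [OP.ival]
  | cap p o => simp [OP.ival]

/-- B09 -/
theorem b09 (K : ℕ) (rops : List OP) (L : List (List ℕ)) :
    (∏ g ∈ passed rops L, (X ^ (4 * g) - 1 : ℤ[X])) ∣ WW K rops L := by
  induction rops generalizing L with
  | nil => simp [passed, WW]
  | cons P rops ih =>
    match L with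
    | [] => simp [passed, WW]
    | [s] => simp [passed, WW]
    | s :: s' :: L =>
      simp only [passed, WW]
      refine dvd_trans ?_ (mul_dvd_mul (b09_piece K P s s') (ih (s' :: L)))
      rw [← Finset.prod_union_inter]
      exact Dvd.intro _ rfl

end Pool.Agent.NV

end

section

set_option autoImplicit false

namespace Pool.Agent.NV

open Pool.Agent.Lib_helper77.VC Polynomial Finset

/-! ## B10a: change of the scaling -/

theorem b10_cw (T K K' : ℕ) (h1 : 20 * T ^ 2 ≤ K) (h2 : K ≤ K') (pos oA oB : Bool)
    (i j k l : ℕ) (hi : i < T) (hj : j < T) (hk : k < T) (hl : l < T) :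
    cw K' pos oA oB i j k l = X ^ (K' - K) * cw K pos oA oB i j k l := by
  unfold cw
  split_ifs with h
  · have d1 : decIn pos oA oB i j k l < T := by
      cases pos <;> cases oA <;> cases oB <;> simp [decIn, lin] <;> assumption
    have hb := ex_bound T pos oA oB i j k l hi hj hk hl
      (((decIn pos oA oB i j k l - decOut pos oA oB i j k l : ℕ)) : ℤ) (Int.natCast_nonneg _)
      (by omega)
    have h1' : (20 * (T : ℤ) ^ 2) ≤ K := by exact_mod_cast h1
    rw [abs_le] at hb
    have e : ((K' : ℤ) + ex pos oA oB i j k l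
        ((decIn pos oA oB i j k l - decOut pos oA oB i j k l : ℕ) : ℤ)).toNat =
        (K' - K) + ((K : ℤ) + ex pos oA oB i j k l
        ((decIn pos oA oB i j k l - decOut pos oA oB i j k l : ℕ) : ℤ)).toNat := by
      have := hb.1
      omega
    simp only [e, pow_add]
    ring
  · simp

theorem b10_cup (T K K' : ℕ) (h1 : 20 * T ^ 2 ≤ K) (h2 : K ≤ K') (o : Bool) (i : ℕ)
    (hi : i < T) : cupw K' o i = X ^ (K' - K) * cupw K o i := by
  have hT : 2 * (i + 1) ≤ K := by nlinarith
  unfold cupw
  cases o
  · simp only [Bool.false_eq_true, if_false]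
    have e : K' - 2 * i = (K' - K) + (K - 2 * i) := by omega
    rw [e, pow_add]; ring
  · simp only [if_true]
    have e : K' + 2 * (i + 1) = (K' - K) + (K + 2 * (i + 1)) := by omega
    rw [e, pow_add]; ring

theorem b10_cap (T K K' : ℕ) (h1 : 20 * T ^ 2 ≤ K) (h2 : K ≤ K') (o : Bool) (i : ℕ)
    (hi : i < T) : capw K' o i = X ^ (K' - K) * capw K o i := by
  have hT : 2 * (i + 1) ≤ K := by nlinarith
  unfold capw
  cases o
  · simp only [Bool.false_eq_true, if_false]
    have e : K' - 2 * (i + 1) = (K' - K) + (K - 2 * (i + 1)) := by omega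
    rw [e, pow_add]; ring
  · simp only [if_true]
    have e : K' + 2 * i = (K' - K) + (K + 2 * i) := by omega
    rw [e, pow_add]; ring

theorem b10_act (T K K' : ℕ) (h1 : 20 * T ^ 2 ≤ K) (h2 : K ≤ K') (P : OP)
    (φ φ' : List ℕ → ℤ[X]) (c : ℕ)
    (h : ∀ s : List ℕ, (∀ x ∈ s, x < T) → φ' s = X ^ c * φ s) :
    ∀ s : List ℕ, (∀ x ∈ s, x < T) →
      P.act K' T φ' s = X ^ ((K' - K) + c) * P.act K T φ s := by
  intro s hs
  have htk : ∀ p : ℕ, ∀ x ∈ s.take p, x < T := fun p x hx => hs x (List.mem_of_mem_take hx)
  have hdr : ∀ p : ℕ, ∀ x ∈ s.drop p, x < T := fun p x hx => hs x (List.mem_of_mem_drop hx)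
  cases P with
  | cr p pos oA oB =>
    have hdp := hdr p
    have htp := htk p
    rcases hd : s.drop p with _ | ⟨i, _ | ⟨j, r⟩⟩
    · simp [OP.act, hd]
    · simp [OP.act, hd]
    · rw [hd] at hdp
      have hi : i < T := hdp i (by simp)
      have hj : j < T := hdp j (by simp)
      have hr : ∀ x ∈ r, x < T := fun x hx => hdp x (by simp [hx])
      simp only [OP.act, hd]
      rw [mul_sum]
      refine sum_congr rfl fun k hk => ?_
      rw [mul_sum]
      refine sum_congr rfl fun l hl => ?_
      rw [mem_range] at hk hl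
      rw [b10_cw T K K' h1 h2 pos oA oB i j k l hi hj hk hl, h _ ?_, pow_add]
      · ring
      · intro x hx
        simp only [List.mem_append, List.mem_cons] at hx
        rcases hx with hx | rfl | rfl | hx
        · exact htp x hx
        · exact hk
        · exact hl
        · exact hr x hx
  | cup p o =>
    have hdp := hdr p
    have htp := htk p
    rcases hd : s.drop p with _ | ⟨i, _ | ⟨j, r⟩⟩
    · simp [OP.act, hd]
    · simp [OP.act, hd]
    · rw [hd] at hdp
      have hi : i < T := hdp i (by simp)
      have hr : ∀ x ∈ r, x < T := fun x hx => hdp x (by simp [hx])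
      simp only [OP.act, hd]
      split_ifs with hij
      · rw [b10_cup T K K' h1 h2 o i hi, h _ ?_, pow_add]
        · ring
        · intro x hx
          simp only [List.mem_append] at hx
          rcases hx with hx | hx
          · exact htp x hx
          · exact hr x hx
      · simp
  | cap p o =>
    have hdp := hdr p
    have htp := htk p
    simp only [OP.act]
    split_ifs with hp
    · rw [mul_sum]
      refine sum_congr rfl fun i hi => ?_
      rw [mem_range] at hi
      rw [b10_cap T K K' h1 h2 o i hi, h _ ?_, pow_add]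
      · ring
      · intro x hx
        simp only [List.mem_append, List.mem_cons] at hx
        rcases hx with hx | rfl | rfl | hx
        · exact htp x hx
        · exact hi
        · exact hi
        · exact hdp x hx
    · simp

theorem b10_foldl (T K K' : ℕ) (h1 : 20 * T ^ 2 ≤ K) (h2 : K ≤ K') (ops : List OP) :
    ∀ (φ φ' : List ℕ → ℤ[X]) (c : ℕ),
    (∀ s : List ℕ, (∀ x ∈ s, x < T) → φ' s = X ^ c * φ s) →
    ∀ s : List ℕ, (∀ x ∈ s, x < T) →
      (ops.foldl (fun φ P => P.act K' T φ) φ') s =
        X ^ ((K' - K) * ops.length + c) * (ops.foldl (fun φ P => P.act K T φ) φ) s := by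
  induction ops with
  | nil =>
    intro φ φ' c h s hs
    simpa using h s hs
  | cons P ops ih =>
    intro φ φ' c h s hs
    rw [List.foldl_cons, List.foldl_cons,
      ih _ _ _ (b10_act T K K' h1 h2 P φ φ' c h) s hs]
    congr 2
    rw [List.length_cons]
    ring

/-- B10a -/
theorem b10a (ops : List OP) (T K K' : ℕ) (hT : 1 ≤ T) (h1 : 20 * T ^ 2 ≤ K) (h2 : K ≤ K') :
    PP K' T ops = X ^ ((K' - K) * ops.length) * PP K T ops := by
  unfold PP
  have := b10_foldl T K K' h1 h2 ops (fun s => if s = [0] then 1 else 0)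
    (fun s => if s = [0] then 1 else 0) 0 (fun s _ => by simp) [0]
    (fun x hx => by simp only [List.mem_singleton] at hx; omega)
  simpa using this

/-! ## B10b: one strand goes through -/

/-- ids of strands: `0` occurs once, every other number twice or not at all -/
def b10V (ids : List ℕ) : Prop :=
  ids.count 0 = 1 ∧ ∀ v, v ≠ 0 → ids.count v = 0 ∨ ids.count v = 2

theorem b10_lab (ops : List OP) : ∀ (o : List Bool) (L : List (List Bool)),
    Steps OP.ofits ops (o :: L) → ∀ ids : List ℕ, ids.length = o.length → b10V ids →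
    ∃ t : List ℕ, b10V t ∧ t.length = ((o :: L).getLast (List.cons_ne_nil _ _)).length ∧
      ∃ g : ℕ → ℕ, g 0 = 0 ∧ ∀ f : ℕ → Bool, ∃ L' : List (List Bool),
        Steps OP.cfits ops ((ids.map (f ∘ g)) :: L') ∧
        ((ids.map (f ∘ g)) :: L').getLast (List.cons_ne_nil _ _) = t.map f := by
  induction ops with
  | nil =>
    intro o L h ids hl hv
    obtain ⟨s, hs⟩ := h
    have hL : L = [] := by
      have := congrArg List.length hs
      simpa using this
    subst hL
    refine ⟨ids, hv, by simpa using hl, id, rfl, fun f => ⟨[], ⟨_, rfl⟩, by simp⟩⟩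
  | cons P ops ih =>
    intro o L h ids hl hv
    obtain ⟨s, s', L1, hL, hP, hS⟩ := h
    rw [List.cons.injEq] at hL
    obtain ⟨rfl, rfl⟩ := hL
    have hlast : ((o :: s' :: L1).getLast (List.cons_ne_nil _ _)) =
        ((s' :: L1).getLast (List.cons_ne_nil _ _)) := by
      rw [List.getLast_cons_cons]
    -- reduce to one step
    suffices hstep : ∃ (ids' : List ℕ) (ρ : ℕ → ℕ), ρ 0 = 0 ∧ ids'.length = s'.length ∧
        b10V ids' ∧ ∀ f : ℕ → Bool, OP.cfits P (ids.map (f ∘ ρ)) (ids'.map f) by
      obtain ⟨ids', ρ, hρ, hl', hv', hf⟩ := hstep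
      obtain ⟨t, ht, htl, g, hg, hfg⟩ := ih s' L1 hS ids' hl' hv'
      refine ⟨t, ht, by rw [htl, hlast], g ∘ ρ, by simp [hρ, hg], fun f => ?_⟩
      obtain ⟨L', h1, h2⟩ := hfg f
      refine ⟨(ids'.map (f ∘ g)) :: L', ⟨_, _, _, rfl, ?_, h1⟩, ?_⟩
      · exact hf (f ∘ g)
      · rw [List.getLast_cons_cons]
        exact h2
    cases P with
    | cr p pos oA oB =>
      obtain ⟨u, w, hu, ho, hs'⟩ := hP
      -- split ids
      have hlen : ids.length = u.length + 2 + w.length := by
        rw [hl, ho]; simp; ring
      obtain ⟨a, x, y, b, hids, ha⟩ : ∃ a x y b, ids = a ++ x :: y :: b ∧ a.length = u.length := by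
        have hsp := List.take_append_drop u.length ids
        have hdl : (ids.drop u.length).length = 2 + w.length := by
          rw [List.length_drop]; omega
        rcases hd : ids.drop u.length with _ | ⟨x, _ | ⟨y, b⟩⟩
        · rw [hd] at hdl; simp only [List.length_nil] at hdl; omega
        · rw [hd] at hdl; simp only [List.length_cons, List.length_nil] at hdl; omega
        · refine ⟨ids.take u.length, x, y, b, ?_, ?_⟩
          · rw [← hd]; exact hsp.symm
          · rw [List.length_take]; omega
      have hperm : ∀ v, (a ++ y :: x :: b).count v = ids.count v := by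
        intro v
        rw [hids]
        simp only [List.count_append, List.count_cons]
        ring
      refine ⟨a ++ y :: x :: b, id, rfl, ?_, ?_, fun f => ?_⟩
      · have : s'.length = o.length := by rw [hs', ho]; simp
        rw [this, ← hl, hids]; simp
      · refine ⟨by rw [hperm]; exact hv.1, fun v hv0 => by rw [hperm]; exact hv.2 v hv0⟩
      · refine ⟨a.map f, f x, f y, b.map f, ?_, ?_, ?_⟩
        · rw [List.length_map, ha, hu]
        · rw [hids]; simp
        · simp
    | cup p oo =>
      obtain ⟨u, w, hu, ho, hs'⟩ := hP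
      have hlen : ids.length = u.length + w.length := by
        rw [hl, ho]; simp
      -- a fresh id
      obtain ⟨z, hz0, hz⟩ : ∃ z : ℕ, z ≠ 0 ∧ z ∉ ids := by
        refine ⟨ids.sum + 1, by omega, fun hmem => ?_⟩
        have := List.le_sum_of_mem hmem
        omega
      refine ⟨ids.take p ++ z :: z :: ids.drop p, id, rfl, ?_, ?_, fun f => ?_⟩
      · have e1 : s'.length = u.length + w.length + 2 := by rw [hs']; simp; ring
        rw [e1, List.length_append, List.length_cons, List.length_cons, List.length_take,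
          List.length_drop]
        omega
      · have hc : ∀ v, (ids.take p ++ z :: z :: ids.drop p).count v =
            ids.count v + (if z = v then 2 else 0) := by
          intro v
          have e : ids.count v = (ids.take p).count v + (ids.drop p).count v := by
            rw [← List.count_append, List.take_append_drop]
          rw [e]
          simp only [List.count_append, List.count_cons, beq_iff_eq]
          split_ifs <;> omega
        refine ⟨?_, fun v hv0 => ?_⟩
        · rw [hc, if_neg hz0, hv.1]
        · rw [hc]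
          by_cases hzv : z = v
          · subst hzv
            right
            rw [if_pos rfl, List.count_eq_zero_of_not_mem hz]
          · rw [if_neg hzv, add_zero]
            exact hv.2 v hv0
      · refine ⟨(ids.take p).map f, f z, (ids.drop p).map f, ?_, ?_, ?_⟩
        · rw [List.length_map, List.length_take]; omega
        · rw [← List.map_append, List.take_append_drop]; simp
        · simp
    | cap p oo =>
      obtain ⟨u, w, hu, ho, hs'⟩ := hP
      have hlen : ids.length = u.length + 2 + w.length := by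
        rw [hl, ho]; simp; ring
      obtain ⟨a, x, y, b, hids, ha⟩ : ∃ a x y b, ids = a ++ x :: y :: b ∧ a.length = u.length := by
        have hsp := List.take_append_drop u.length ids
        have hdl : (ids.drop u.length).length = 2 + w.length := by
          rw [List.length_drop]; omega
        rcases hd : ids.drop u.length with _ | ⟨x, _ | ⟨y, b⟩⟩
        · rw [hd] at hdl; simp only [List.length_nil] at hdl; omega
        · rw [hd] at hdl; simp only [List.length_cons, List.length_nil] at hdl; omega
        · refine ⟨ids.take u.length, x, y, b, ?_, ?_⟩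
          · rw [← hd]; exact hsp.symm
          · rw [List.length_take]; omega
      have hcnt : ∀ v, ids.count v = (a ++ b).count v + (if x = v then 1 else 0) +
          (if y = v then 1 else 0) := by
        intro v
        rw [hids]
        simp only [List.count_append, List.count_cons, beq_iff_eq]
        split_ifs <;> omega
      set ρ : ℕ → ℕ := fun z => if z = max x y then min x y else z with hρ
      have hmap : ∀ v, ((a ++ b).map ρ).count v =
          (if v = max x y ∧ x ≠ y then 0 else (a ++ b).count v) +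
          (if v = min x y ∧ x ≠ y then (a ++ b).count (max x y) else 0) := by
        intro v
        have gen : ∀ c : List ℕ, (c.map ρ).count v =
          (if v = max x y ∧ x ≠ y then 0 else c.count v) +
          (if v = min x y ∧ x ≠ y then c.count (max x y) else 0) := by
          intro c
          induction c with
          | nil => simp
          | cons z c ihc =>
            rw [List.map_cons, List.count_cons, ihc, List.count_cons, List.count_cons]
            simp only [hρ, beq_iff_eq]
            by_cases hxy : x = y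
            · subst hxy
              simp only [max_self, min_self, ne_eq, not_true_eq_false, and_false, if_false,
                add_zero]
              by_cases h1 : z = x
              · simp [h1]
              · simp [h1]
            · have hne : max x y ≠ min x y := by omega
              simp only [ne_eq, hxy, not_false_eq_true, and_true]
              by_cases h1 : z = max x y
              · by_cases h2 : v = min x y
                · have : v ≠ max x y := by omega
                  have h3 : ¬ (z = v) := by omega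
                  simp only [h1, if_true, h2, hne.symm, if_false]
                  simp [hne]
                  omega
                · by_cases h4 : v = max x y
                  · simp [h1, h4, hne, hne.symm]
                  · have h3 : ¬ (max x y = v) := fun hh => h4 hh.symm
                    have h5 : ¬ (min x y = v) := fun hh => h2 hh.symm
                    simp [h1, h2, h4, h3, h5]
              · by_cases h2 : v = min x y
                · have : v ≠ max x y := by omega
                  simp only [h1, if_false, this]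
                  simp only [h2, if_true]
                  omega
                · by_cases h4 : v = max x y
                  · have h6 : ¬ (z = v) := by rw [h4]; exact h1
                    simp [h1, h4]
                  · simp only [h1, if_false, h4, h2, add_zero]
        exact gen (a ++ b)
      refine ⟨(a ++ b).map ρ, ρ, ?_, ?_, ?_, fun f => ?_⟩
      · simp only [hρ]
        split_ifs with h0
        · omega
        · rfl
      · have e1 : s'.length = u.length + w.length := by rw [hs']; simp
        have e2 : ids.length = a.length + b.length + 2 := by rw [hids]; simp; ring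
        rw [List.length_map, List.length_append, e1]; omega
      · have h0 := hv.1
        have hx2 := hcnt x
        have hy2 := hcnt y
        have h00 := hcnt 0
        rw [h0] at h00
        refine ⟨?_, fun v hv0 => ?_⟩
        · rw [hmap]
          by_cases hxy : x = y
          · subst hxy
            simp only [ne_eq, not_true_eq_false, and_false, if_false, add_zero]
            split_ifs at h00 <;> omega
          · simp only [ne_eq, hxy, not_false_eq_true, and_true]
            have hmx : max x y ≠ 0 := by omega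
            rw [if_neg hmx.symm]
            by_cases hm : min x y = 0
            · rw [if_pos hm.symm]
              -- one of x, y is 0
              rcases Nat.eq_zero_or_pos x with hx0 | hx0
              · have hy0 : y ≠ 0 := by omega
                have e3 : max x y = y := by omega
                rw [e3]
                rw [if_pos rfl, if_neg hxy] at hy2
                rcases hv.2 y hy0 with h7 | h7
                · omega
                · rw [if_pos hx0, if_neg hy0] at h00
                  omega
              · have hy0 : y = 0 := by omega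
                have hx0' : x ≠ 0 := by omega
                have e3 : max x y = x := by omega
                rw [e3]
                rw [if_pos rfl, if_neg (fun hh => hxy hh.symm)] at hx2
                rcases hv.2 x hx0' with h7 | h7
                · omega
                · rw [if_neg hx0', if_pos hy0] at h00
                  omega
            · rw [if_neg (fun hh => hm hh.symm)]
              have hx0 : x ≠ 0 := by omega
              have hy0 : y ≠ 0 := by omega
              rw [if_neg hx0, if_neg hy0] at h00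
              omega
        · have hvv := hv.2 v hv0
          have hcv := hcnt v
          rw [hmap]
          by_cases hxy : x = y
          · subst hxy
            simp only [ne_eq, not_true_eq_false, and_false, if_false, add_zero]
            split_ifs at hcv <;> omega
          · simp only [ne_eq, hxy, not_false_eq_true, and_true]
            by_cases hvm : v = max x y
            · rw [if_pos hvm, if_neg (by omega)]
              left; rfl
            · rw [if_neg hvm]
              by_cases hvn : v = min x y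
              · rw [if_pos hvn]
                have hmx : max x y ≠ 0 := by omega
                have h8 := hv.2 _ hmx
                have h9 := hcnt (max x y)
                right
                rcases Nat.lt_or_ge x y with hlt | hge
                · have e1 : max x y = y := by omega
                  have e2 : v = x := by omega
                  rw [e1] at h8 h9 ⊢
                  rw [if_neg hxy, if_pos rfl] at h9
                  rw [e2, if_pos rfl, if_neg (fun hh => hxy hh.symm)] at hcv
                  rw [e2] at hvv ⊢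
                  omega
                · have e1 : max x y = x := by omega
                  have e2 : v = y := by omega
                  rw [e1] at h8 h9 ⊢
                  rw [if_pos rfl, if_neg (fun hh => hxy hh.symm)] at h9
                  rw [e2, if_neg hxy, if_pos rfl] at hcv
                  rw [e2] at hvv ⊢
                  omega
              · rw [if_neg hvn, add_zero]
                have h10 : ¬ (x = v) := by omega
                have h11 : ¬ (y = v) := by omega
                rw [if_neg h10, if_neg h11] at hcv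
                omega
      · have hxy : ρ x = ρ y := by
          simp only [hρ]
          split_ifs <;> omega
        refine ⟨a.map (f ∘ ρ), f (ρ x), b.map (f ∘ ρ), ?_, ?_, ?_⟩
        · rw [List.length_map, ha, hu]
        · rw [hids]
          simp [hxy]
        · simp

/-- the top of a knot has one strand -/
theorem b10_top (ops : List OP) (h : OKnot ops) (o : List Bool) (L : List (List Bool))
    (ho : o.length = 1) (hL : Steps OP.ofits ops (o :: L)) :
    ((o :: L).getLast (List.cons_ne_nil _ _)).length = 1 := by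
  obtain ⟨t, ht, htl, g, hg, hf⟩ := b10_lab ops o L hL [0] (by simp [ho])
    ⟨by simp, fun v hv => by simp [hv.symm]⟩
  rw [← htl]
  by_contra hne
  have hpos : 1 ≤ t.length := by
    have := List.count_le_length (a := 0) (l := t)
    rw [ht.1] at this
    exact this
  -- an element of `t` different from 0
  obtain ⟨v, hv, hv0⟩ : ∃ v ∈ t, v ≠ 0 := by
    by_contra hcon
    push Not at hcon
    have : t.count 0 = t.length := by
      rw [List.count_eq_length]
      exact fun b hb => (hcon b hb).symm
    rw [ht.1] at this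
    exact hne this.symm
  obtain ⟨L', h1, h2⟩ := hf (fun z => decide (z = 0))
  have e : ([0] : List ℕ).map ((fun z => decide (z = 0)) ∘ g) = [true] := by simp [hg]
  rw [e] at h1
  have hall := h.2 true L' h1
  have hmem : t.map (fun z => decide (z = 0)) ∈ L' ∨ L' = [] := by
    rcases L' with _ | ⟨q, L'⟩
    · right; rfl
    · left
      rw [← h2, List.getLast_cons_cons]
      exact List.getLast_mem _
  rcases hmem with hmem | hmem
  · have := hall _ hmem (decide (v = 0)) (List.mem_map.2 ⟨v, hv, rfl⟩)
    simp [hv0] at this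
  · subst hmem
    have h3 := congrArg List.length h2
    simp at h3
    omega

/-- `± X ^ k` -/
def b10P (Q : ℤ[X]) : Prop := ∃ k : ℕ, Q = X ^ k ∨ Q = -X ^ k

theorem b10P_mul {Q R : ℤ[X]} (hQ : b10P Q) (hR : b10P R) : b10P (Q * R) := by
  obtain ⟨k, hk⟩ := hQ
  obtain ⟨l, hl⟩ := hR
  refine ⟨k + l, ?_⟩
  rcases hk with rfl | rfl <;> rcases hl with rfl | rfl
  · left; ring
  · right; ring
  · right; ring
  · left; ring

theorem b10P_sgn (m k : ℕ) : b10P ((-1) ^ m * X ^ k) := by
  refine ⟨k, ?_⟩
  rcases neg_one_pow_eq_or ℤ[X] m with h | h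
  · left; rw [h]; ring
  · right; rw [h]; ring

theorem b10_cw0 (K : ℕ) (pos oA oB : Bool) : b10P (cw K pos oA oB 0 0 0 0) := by
  have d1 : decIn pos oA oB 0 0 0 0 = 0 := by
    cases pos <;> cases oA <;> cases oB <;> rfl
  have d2 : decOut pos oA oB 0 0 0 0 = 0 := by
    cases pos <;> cases oA <;> cases oB <;> rfl
  have d3 : incIn pos oA oB 0 0 0 0 = 0 := by
    cases pos <;> cases oA <;> cases oB <;> rfl
  have d4 : incOut pos oA oB 0 0 0 0 = 0 := by
    cases pos <;> cases oA <;> cases oB <;> rfl
  have g0 : gb 0 0 = 1 := rfl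
  have f0 : fp 0 0 = 1 := by simp [fp]
  unfold cw
  simp only [d1, d2, d3, d4, le_refl, and_self, if_true, Nat.sub_self, g0, f0, mul_one]
  exact b10P_sgn _ _

theorem b10_cupw (K : ℕ) (o : Bool) : b10P (cupw K o 0) := by
  unfold cupw
  cases o
  · exact b10P_sgn _ _
  · exact b10P_sgn _ _

theorem b10_capw (K : ℕ) (o : Bool) : b10P (capw K o 0) := by
  unfold capw
  cases o
  · exact b10P_sgn _ _
  · exact b10P_sgn _ _

theorem b10_val (K : ℕ) (ops : List OP) : ∀ (o : List Bool) (L : List (List Bool)),
    Steps OP.ofits ops (o :: L) → ∀ φ : List ℕ → ℤ[X], b10P (φ (List.replicate o.length 0)) →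
    b10P ((ops.foldl (fun φ P => P.act K 1 φ) φ)
      (List.replicate ((o :: L).getLast (List.cons_ne_nil _ _)).length 0)) := by
  induction ops with
  | nil =>
    intro o L h φ hφ
    obtain ⟨s, hs⟩ := h
    have hL : L = [] := by
      have := congrArg List.length hs
      simpa using this
    subst hL
    simpa using hφ
  | cons P ops ih =>
    intro o L h φ hφ
    obtain ⟨s, s', L1, hL, hP, hS⟩ := h
    rw [List.cons.injEq] at hL
    obtain ⟨rfl, rfl⟩ := hL
    rw [List.getLast_cons_cons, List.foldl_cons]
    refine ih s' L1 hS _ ?_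
    cases P with
    | cr p pos oA oB =>
      obtain ⟨u, w, hu, ho, hs'⟩ := hP
      have e1 : s'.length = p + (2 + w.length) := by rw [hs', ← hu]; simp; ring
      have e2 : o.length = p + (2 + w.length) := by rw [ho, ← hu]; simp; ring
      have hd : (List.replicate s'.length 0).drop p = 0 :: 0 :: List.replicate w.length 0 := by
        rw [e1, List.drop_replicate]
        have : p + (2 + w.length) - p = w.length + 1 + 1 := by omega
        rw [this, List.replicate_succ, List.replicate_succ]
      have ht : (List.replicate s'.length 0).take p = List.replicate p 0 := by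
        rw [e1, List.take_replicate]
        congr 1
        omega
      have key : OP.act K 1 (.cr p pos oA oB) φ (List.replicate s'.length 0) =
          cw K pos oA oB 0 0 0 0 * φ (List.replicate o.length 0) := by
        simp only [OP.act, hd, ht, range_one, sum_singleton]
        congr 2
        rw [e2, List.replicate_add]
        congr 1
        have : 2 + w.length = w.length + 1 + 1 := by omega
        rw [this, List.replicate_succ, List.replicate_succ]
      rw [key]
      exact b10P_mul (b10_cw0 K pos oA oB) hφ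
    | cup p oo =>
      obtain ⟨u, w, hu, ho, hs'⟩ := hP
      have e1 : s'.length = p + (2 + w.length) := by rw [hs', ← hu]; simp; ring
      have e2 : o.length = p + w.length := by rw [ho, ← hu]; simp
      have hd : (List.replicate s'.length 0).drop p = 0 :: 0 :: List.replicate w.length 0 := by
        rw [e1, List.drop_replicate]
        have : p + (2 + w.length) - p = w.length + 1 + 1 := by omega
        rw [this, List.replicate_succ, List.replicate_succ]
      have ht : (List.replicate s'.length 0).take p = List.replicate p 0 := by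
        rw [e1, List.take_replicate]
        congr 1
        omega
      have key : OP.act K 1 (.cup p oo) φ (List.replicate s'.length 0) =
          cupw K oo 0 * φ (List.replicate o.length 0) := by
        simp only [OP.act, hd, ht, if_true]
        congr 2
        rw [e2, List.replicate_add]
      rw [key]
      exact b10P_mul (b10_cupw K oo) hφ
    | cap p oo =>
      obtain ⟨u, w, hu, ho, hs'⟩ := hP
      have e1 : s'.length = p + w.length := by rw [hs', ← hu]; simp
      have e2 : o.length = p + (2 + w.length) := by rw [ho, ← hu]; simp; ring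
      have hd : (List.replicate s'.length 0).drop p = List.replicate w.length 0 := by
        rw [e1, List.drop_replicate]
        congr 1
        omega
      have ht : (List.replicate s'.length 0).take p = List.replicate p 0 := by
        rw [e1, List.take_replicate]
        congr 1
        omega
      have key : OP.act K 1 (.cap p oo) φ (List.replicate s'.length 0) =
          capw K oo 0 * φ (List.replicate o.length 0) := by
        simp only [OP.act, hd, ht, range_one, sum_singleton]
        rw [if_pos (by rw [List.length_replicate]; omega)]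
        congr 2
        rw [e2, List.replicate_add]
        congr 1
        have : 2 + w.length = w.length + 1 + 1 := by omega
        rw [this, List.replicate_succ, List.replicate_succ]
      rw [key]
      exact b10P_mul (b10_capw K oo) hφ

/-- B10b -/
theorem b10b (ops : List OP) (h : OKnot ops) (K : ℕ) (_hK : 20 ≤ K) :
    ∃ k : ℕ, PP K 1 ops = X ^ k ∨ PP K 1 ops = -X ^ k := by
  obtain ⟨L, hL⟩ := h.1
  have ht := b10_top ops h [true] L rfl hL
  have := b10_val K ops [true] L hL (fun s => if s = [0] then 1 else 0) ⟨0, by simp⟩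
  rw [ht] at this
  exact this

end Pool.Agent.NV

end

section

namespace Pool.Agent.NV

open Pool.Agent.Lib_helper77.VC Polynomial Finset

theorem sum_filter_eq {α : Type} (l : List α) (p : α → Bool) (f : α → ℤ[X]) :
    ((l.filter p).map f).sum = (l.map (fun L => if p L then f L else 0)).sum := by
  induction l with
  | nil => simp
  | cons a l ih =>
    by_cases h : p a
    · simp [List.filter_cons, h, ih]
    · simp [List.filter_cons, h, ih]

theorem dvd_sub_of {α : Type} (l : List α) (p p' : α → Bool) (f : α → ℤ[X]) (D : ℤ[X])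
    (hp : ∀ L ∈ l, p L → p' L) (hD : ∀ L ∈ l, p' L → ¬ p L → D ∣ f L) :
    D ∣ ((l.filter p').map f).sum - ((l.filter p).map f).sum := by
  rw [sum_filter_eq, sum_filter_eq]
  induction l with
  | nil => simp
  | cons a l ih =>
    have i1 := ih (fun L hL => hp L (List.mem_cons_of_mem _ hL))
      (fun L hL => hD L (List.mem_cons_of_mem _ hL))
    have i2 : D ∣ (if p' a then f a else 0) - (if p a then f a else 0) := by
      have h1 := hp a List.mem_cons_self
      have h2 := hD a List.mem_cons_self
      by_cases c : p a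
      · simp [c, h1 c]
      · by_cases c' : p' a
        · simpa [c, c'] using h2 c' c
        · simp [c, c']
    simp only [List.map_cons, List.sum_cons]
    have e : ((if p' a then f a else 0) + (l.map fun L => if p' L then f L else 0).sum) -
        ((if p a then f a else 0) + (l.map fun L => if p L then f L else 0).sum) =
        ((if p' a then f a else 0) - (if p a then f a else 0)) +
        ((l.map fun L => if p' L then f L else 0).sum -
          (l.map fun L => if p L then f L else 0).sum) := by ring
    rw [e]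
    exact dvd_add i2 i1

theorem prod_dvd (T : ℕ) (S : Finset ℕ) (h : ∀ n, 1 ≤ n → n ≤ T → n ∈ S) :
    (∏ h ∈ range T, (X ^ (4 * (h + 1)) - 1 : ℤ[X])) ∣ ∏ g ∈ S, (X ^ (4 * g) - 1 : ℤ[X]) := by
  have e : (∏ h ∈ range T, (X ^ (4 * (h + 1)) - 1 : ℤ[X])) =
      ∏ g ∈ (range T).image (· + 1), (X ^ (4 * g) - 1 : ℤ[X]) := by
    rw [prod_image]
    intro a _ b _ hab
    simpa using hab
  rw [e]
  apply prod_dvd_prod_of_subset
  intro g hg
  simp only [mem_image, mem_range] at hg
  obtain ⟨a, ha, rfl⟩ := hg
  exact h _ (by omega) (by omega)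

/-- B11. assembly -/
theorem nvdata (D : Diagram) (h : IsKnot D) : Nonempty (NVData fun N => kashaev N D) := by
  obtain ⟨ops, ho, hk⟩ := b01 D h
  obtain ⟨C1, hC1, hb⟩ := b05 ops
  obtain ⟨C2, hC2, hc⟩ := b06 ops
  refine ⟨⟨fun T => PP (20 * T ^ 2) T ops, max C1 C2, le_max_of_le_left hC1, ?_, ?_, ?_, ?_, ?_,
    ?_⟩⟩
  · intro T T' hT hTT
    have hK : 20 * T ^ 2 ≤ 20 * T' ^ 2 := by gcongr
    refine ⟨(20 * T' ^ 2 - 20 * T ^ 2) * ops.length, ?_⟩
    have e1 := b07 (20 * T' ^ 2) T T' hT hTT ops
    have e2 := b07 (20 * T' ^ 2) T' T' (hT.trans hTT) le_rfl ops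
    show _ ∣ PP (20 * T' ^ 2) T' ops - X ^ ((20 * T' ^ 2 - 20 * T ^ 2) * ops.length) *
      PP (20 * T ^ 2) T ops
    rw [← b10a ops T (20 * T ^ 2) (20 * T' ^ 2) hT le_rfl hK, e1, e2]
    apply dvd_sub_of
    · intro L _ h1
      rw [decide_eq_true_eq] at h1 ⊢
      exact fun s hs x hx => (h1 s hs x hx).trans_le hTT
    · intro L hL _ h2
      rw [decide_eq_true_eq] at h2
      push Not at h2
      obtain ⟨s, hs, x, hx, hTx⟩ := h2
      by_cases hW : WW (20 * T' ^ 2) ops.reverse L = 0
      · rw [hW]; exact dvd_zero _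
      · refine (prod_dvd T (passed ops.reverse L) ?_).trans (b09 _ _ _)
        intro n hn1 hnT
        exact b08 ops ho _ T' L hL hW n hn1 ⟨s, hs, x, hx, hnT.trans hTx⟩
  · intro N hN
    rw [hk N]
    exact b03 ops ho N hN _ le_rfl
  · intro T hT
    exact (hb T hT).1.trans (by gcongr; exact le_max_left _ _)
  · intro T hT
    exact (hb T hT).2.trans (by gcongr; exact le_max_left _ _)
  · intro N hN b hbN M hM hS
    refine (hc N hN b hbN M hM hS).trans ?_
    have : 0 ≤ Real.log N + M := by
      have : 0 ≤ Real.log N := Real.log_nonneg (by exact_mod_cast (by omega : 1 ≤ N))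
      linarith
    gcongr
    exact le_max_right _ _
  · exact b10b ops ho _ (by norm_num)

end Pool.Agent.NV

end
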