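import Pool.Agent.Lib_helper43.NV.F2

set_option autoImplicit false

section

set_option autoImplicit false

namespace Pool.Agent.NV

open Pool.Agent.Lib_helper77.VC Polynomial Finset

theorem c1_step (p m : ℕ) [hp : Fact p.Prime] :
    cyclotomic m (ZMod p) ∣ cyclotomic (m * p) (ZMod p) := by
  by_cases h : p ∣ m
  · rw [cyclotomic_mul_prime_dvd_eq_pow (ZMod p) h]
    exact dvd_pow_self _ hp.1.ne_zero
  · rw [cyclotomic_mul_prime_eq_pow_of_not_dvd (ZMod p) h]
    exact dvd_pow_self _ (by have := hp.1.two_le; omega)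

theorem c1_dvd (p n : ℕ) [hp : Fact p.Prime] (k : ℕ) :
    cyclotomic n (ZMod p) ∣ cyclotomic (n * p ^ k) (ZMod p) := by
  induction k with
  | zero => simp
  | succ k ih =>
    rw [pow_succ, ← mul_assoc]
    exact ih.trans (c1_step p _)

/-- C1 -/
theorem c1 (p n k : ℕ) (hp : p.Prime) (hn : 0 < n) (hk : 0 < k) :
    ∃ A B : ℤ[X], cyclotomic (n * p ^ k) ℤ = cyclotomic n ℤ * A + C (p : ℤ) * B := by
  haveI : Fact p.Prime := ⟨hp⟩
  obtain ⟨A', hA'⟩ := c1_dvd p n k
  obtain ⟨A, hA⟩ := Polynomial.map_surjective (Int.castRingHom (ZMod p))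
    (ZMod.ringHom_surjective _) A'
  have h0 : (cyclotomic (n * p ^ k) ℤ - cyclotomic n ℤ * A).map (Int.castRingHom (ZMod p)) = 0 := by
    rw [Polynomial.map_sub, Polynomial.map_mul, hA, map_cyclotomic, map_cyclotomic, hA', sub_self]
  have h1 : C (p : ℤ) ∣ cyclotomic (n * p ^ k) ℤ - cyclotomic n ℤ * A := by
    rw [Polynomial.C_dvd_iff_dvd_coeff]
    intro i
    have := congrArg (fun f => f.coeff i) h0
    simp only [coeff_map, coeff_zero, eq_intCast] at this
    exact (ZMod.intCast_zmod_eq_zero_iff_dvd _ p).1 this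
  obtain ⟨B, hB⟩ := h1
  exact ⟨A, B, by rw [← hB]; ring⟩

end Pool.Agent.NV

end

section

/-!
# NV block C2: product over the conjugates (helper25)
-/

set_option autoImplicit false

namespace Pool.Agent.NV

open Polynomial Finset

/-- the product of the values at the primitive roots of unity is an integer -/
theorem c2_int (n : ℕ) (B : ℤ[X]) :
    ∃ r : ℤ, ∏ μ ∈ primitiveRoots n ℂ, aeval μ B = (r : ℂ) := by
  have h1 := resultant_eq_prod_eval ((cyclotomic n ℤ).map (Int.castRingHom ℂ))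
    (B.map (Int.castRingHom ℂ)) B.natDegree natDegree_map_le (IsAlgClosed.splits _)
  refine ⟨resultant (cyclotomic n ℤ) B ((cyclotomic n ℤ).map (Int.castRingHom ℂ)).natDegree
    B.natDegree, ?_⟩
  have h2 := resultant_map_map (cyclotomic n ℤ) B
    ((cyclotomic n ℤ).map (Int.castRingHom ℂ)).natDegree B.natDegree (Int.castRingHom ℂ)
  rw [eq_intCast] at h2
  rw [← h2, h1, map_cyclotomic, (cyclotomic.monic n ℂ).leadingCoeff, one_pow, one_mul]
  by_cases hn : n = 0
  · subst hn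
    simp
  have hn' : NeZero (n : ℂ) := ⟨by exact_mod_cast hn⟩
  rw [Polynomial.cyclotomic.roots_eq_primitiveRoots_val]
  rw [Finset.prod_eq_multiset_prod]
  congr 1
  refine Multiset.map_congr rfl fun μ _ => ?_
  rw [eval_map, aeval_def]
  rfl

/-- C2 -/
theorem c2 (n : ℕ) (hn : 0 < n) (Q A B : ℤ[X]) (M : ℕ)
    (h : Q = cyclotomic n ℤ * A + C (M : ℤ) * B) (ζ : ℂ) (hζ : IsPrimitiveRoot ζ n)
    (h0 : aeval ζ Q ≠ 0) :
    (M : ℝ) ^ n.totient ≤ ∏ b ∈ (range n).filter (fun b => b.Coprime n), ‖aeval (ζ ^ b) Q‖ := by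
  have hne : NeZero n := ⟨hn.ne'⟩
  -- reindex
  have hre : ∏ b ∈ (range n).filter (fun b => b.Coprime n), ‖aeval (ζ ^ b) Q‖ =
      ∏ μ ∈ primitiveRoots n ℂ, ‖aeval μ Q‖ := by
    refine Finset.prod_bij (fun b _ => ζ ^ b) ?_ ?_ ?_ ?_
    · intro b hb
      rw [mem_filter, mem_range] at hb
      rw [mem_primitiveRoots hn]
      exact hζ.pow_of_coprime b hb.2
    · intro a ha b hb hab
      rw [mem_filter, mem_range] at ha hb
      exact hζ.pow_inj ha.1 hb.1 hab
    · intro μ hμ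
      rw [mem_primitiveRoots hn] at hμ
      obtain ⟨i, hi, hc, he⟩ := hζ.isPrimitiveRoot_iff.1 hμ
      exact ⟨i, by rw [mem_filter, mem_range]; exact ⟨hi, hc⟩, he⟩
    · intro b _
      rfl
  rw [hre]
  have hcyc : ∀ μ ∈ primitiveRoots n ℂ, aeval μ (cyclotomic n ℤ) = 0 := by
    intro μ hμ
    rw [mem_primitiveRoots hn] at hμ
    have h1 := hμ.isRoot_cyclotomic hn
    rw [IsRoot.def, ← map_cyclotomic n (Int.castRingHom ℂ), eval_map] at h1
    rw [aeval_def]
    exact h1
  have hval : ∀ μ ∈ primitiveRoots n ℂ, aeval μ Q = (M : ℂ) * aeval μ B := by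
    intro μ hμ
    rw [h, map_add, map_mul, map_mul, hcyc μ hμ, zero_mul, zero_add, aeval_C]
    simp
  have hζm : ζ ∈ primitiveRoots n ℂ := (mem_primitiveRoots hn).2 hζ
  have hBne : ∀ μ ∈ primitiveRoots n ℂ, aeval μ B ≠ 0 := by
    intro μ hμ hz
    have hμ' := (mem_primitiveRoots hn).1 hμ
    have h1 : cyclotomic n ℤ ∣ B := by
      rw [cyclotomic_eq_minpoly hμ' hn]
      exact minpoly.isIntegrallyClosed_dvd (hμ'.isIntegral hn) hz
    obtain ⟨D, hD⟩ := h1
    apply h0
    rw [hval ζ hζm, hD, map_mul, hcyc ζ hζm, zero_mul, mul_zero]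
  have h2 : ∏ μ ∈ primitiveRoots n ℂ, ‖aeval μ Q‖ =
      (M : ℝ) ^ n.totient * ‖∏ μ ∈ primitiveRoots n ℂ, aeval μ B‖ := by
    rw [Finset.prod_congr rfl (fun μ hμ => by rw [hval μ hμ, norm_mul]), Finset.prod_mul_distrib,
      Finset.prod_const, hζ.card_primitiveRoots, norm_prod, Complex.norm_natCast]
  rw [h2]
  obtain ⟨r, hr⟩ := c2_int n B
  have hr0 : r ≠ 0 := by
    rintro rfl
    rw [Int.cast_zero, Finset.prod_eq_zero_iff] at hr
    obtain ⟨μ, hμ, hz⟩ := hr
    exact hBne μ hμ hz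
  have h3 : (1 : ℝ) ≤ ‖∏ μ ∈ primitiveRoots n ℂ, aeval μ B‖ := by
    rw [hr, Complex.norm_intCast]
    exact_mod_cast Int.one_le_abs hr0
  exact le_mul_of_one_le_right (by positivity) h3

end Pool.Agent.NV

end

section

set_option autoImplicit false

namespace Pool.Agent.NV

open Pool.Agent.Lib_helper77.VC Polynomial Finset ArithmeticFunction

theorem c3_aux (m k : ℕ) (hm : 1 ≤ m) :
    cyclotomic (4 * m) ℤ ^ k ∣ ∏ h ∈ range (m * k), (X ^ (4 * (h + 1)) - 1 : ℤ[X]) := by
  induction k with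
  | zero => simp
  | succ k ih =>
    rw [Nat.mul_succ, Finset.prod_range_add, pow_succ]
    refine mul_dvd_mul ih ?_
    have h1 : (m - 1) ∈ range m := by simp; omega
    refine dvd_trans ?_ (Finset.dvd_prod_of_mem
      (fun x => (X ^ (4 * (m * k + x + 1)) - 1 : ℤ[X])) h1)
    have h2 : 4 * (m * k + (m - 1) + 1) = (4 * m) * (k + 1) := by
      have : m - 1 + 1 = m := by omega
      calc 4 * (m * k + (m - 1) + 1) = 4 * (m * k + (m - 1 + 1)) := by ring
        _ = (4 * m) * (k + 1) := by rw [this]; ring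
    show cyclotomic (4 * m) ℤ ∣ (X ^ (4 * (m * k + (m - 1) + 1)) - 1 : ℤ[X])
    rw [h2]
    refine dvd_trans (cyclotomic.dvd_X_pow_sub_one (4 * m) ℤ) ?_
    have h3 := sub_dvd_pow_sub_pow (X ^ (4 * m) : ℤ[X]) 1 (k + 1)
    rwa [one_pow, ← pow_mul] at h3

/-- C3a -/
theorem c3a (m T : ℕ) (hm : 1 ≤ m) :
    cyclotomic (4 * m) ℤ ^ (T / m) ∣ ∏ h ∈ range T, (X ^ (4 * (h + 1)) - 1 : ℤ[X]) := by
  refine dvd_trans (c3_aux m (T / m) hm) ?_
  exact Finset.prod_dvd_prod_of_subset _ _ _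
    (Finset.range_subset_range.2 (Nat.mul_div_le T m))

theorem c3_prim (N : ℕ) (hN : 1 ≤ N) : IsPrimitiveRoot (rt N) (4 * N) := by
  have h := Complex.isPrimitiveRoot_exp (4 * N) (by omega)
  have h2 : Complex.exp (2 * Real.pi * Complex.I / ((4 * N : ℕ) : ℂ)) = rt N := by
    unfold rt
    congr 1
    have : (N : ℂ) ≠ 0 := by exact_mod_cast (by omega : N ≠ 0)
    push_cast
    field_simp
    ring
  rwa [h2] at h

theorem c3_dvd (N : ℕ) (hN : 1 ≤ N) (Q : ℤ[X]) :
    aeval (rt N) Q = 0 ↔ cyclotomic (4 * N) ℤ ∣ Q := by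
  have hp := c3_prim N hN
  rw [cyclotomic_eq_minpoly hp (by omega)]
  exact minpoly.isIntegrallyClosed_dvd_iff (hp.isIntegral (by omega)) Q

theorem c3_step {J : ℕ → ℂ} (d : NVData J) (m e : ℕ) (hm : 1 ≤ m) (he : 1 ≤ e)
    (h : cyclotomic (4 * m) ℤ ^ e ∣ d.P (m * e)) : Van d.P m e := by
  intro T hT hT2
  have h0 : 1 ≤ m * e := Nat.one_le_iff_ne_zero.2 (Nat.mul_ne_zero (by omega) (by omega))
  obtain ⟨a, ha⟩ := d.cong (m * e) T h0 hT2
  have h1 := c3a m (m * e) hm
  rw [Nat.mul_div_cancel_left e (by omega)] at h1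
  have h2 := dvd_trans h1 ha
  have h3 : cyclotomic (4 * m) ℤ ^ e ∣ X ^ a * d.P (m * e) := Dvd.dvd.mul_left h _
  have h4 := dvd_add h2 h3
  rwa [sub_add_cancel] at h4

/-- C3b -/
theorem c3b {J : ℕ → ℂ} (d : NVData J) (N : ℕ) (hN : 1 ≤ N) : J N = 0 ↔ Van d.P N 1 := by
  have h1 : J N = 0 ↔ cyclotomic (4 * N) ℤ ∣ d.P N := by
    rw [← c3_dvd N hN, ← norm_eq_zero, d.val N hN, norm_eq_zero]
  rw [h1]
  constructor
  · intro h
    refine c3_step d N 1 hN le_rfl ?_
    rwa [mul_one, pow_one]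
  · intro h
    have := h N hN (by omega)
    rwa [pow_one] at this

/-- C3c -/
theorem c3c {J : ℕ → ℂ} (d : NVData J) (m e : ℕ) (hm : 1 ≤ m) (h : ¬ Van d.P m (e + 1)) :
    ¬ cyclotomic (4 * m) ℤ ^ (e + 1) ∣ d.P (m * (e + 1)) :=
  fun h1 => h (c3_step d m (e + 1) hm (by omega) h1)

end Pool.Agent.NV

end

section

set_option autoImplicit false

namespace Pool.Agent.NV

open Pool.Agent.Lib_helper77.VC Polynomial Finset ArithmeticFunction

/-- `f ∣ hasseDeriv j (f ^ e * g)` for `j < e` -/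
theorem c4_dvd (f : ℤ[X]) (e : ℕ) : ∀ (g : ℤ[X]) (j : ℕ), j < e → f ∣ hasseDeriv j (f ^ e * g) := by
  induction e with
  | zero => intro g j hj; omega
  | succ e ih =>
    intro g j hj
    rw [pow_succ', mul_assoc, hasseDeriv_mul]
    refine Finset.dvd_sum fun ij hij => ?_
    rw [HasAntidiagonal.mem_antidiagonal] at hij
    rcases Nat.eq_zero_or_pos ij.1 with h0 | h0
    · rw [h0, hasseDeriv_zero']
      exact dvd_mul_right _ _
    · exact (ih g ij.2 (by omega)).mul_left _

/-- `hasseDeriv e (f ^ e * g) = f' ^ e * g` modulo `f` -/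
theorem c4_top (f : ℤ[X]) (e : ℕ) (g : ℤ[X]) :
    f ∣ hasseDeriv e (f ^ e * g) - derivative f ^ e * g := by
  induction e with
  | zero => simp
  | succ e ih =>
    have h1 : hasseDeriv (e + 1) (f ^ (e + 1) * g) =
        ∑ ij ∈ antidiagonal (e + 1), hasseDeriv ij.1 f * hasseDeriv ij.2 (f ^ e * g) := by
      rw [pow_succ', mul_assoc, hasseDeriv_mul]
    have h2 : (1, e) ∈ antidiagonal (e + 1) := by rw [HasAntidiagonal.mem_antidiagonal]; ring
    rw [h1, ← Finset.add_sum_erase _ _ h2]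
    have h3 : f ∣ ∑ ij ∈ (antidiagonal (e + 1)).erase (1, e),
        hasseDeriv ij.1 f * hasseDeriv ij.2 (f ^ e * g) := by
      refine Finset.dvd_sum fun ij hij => ?_
      rw [mem_erase, HasAntidiagonal.mem_antidiagonal] at hij
      obtain ⟨hne, hs⟩ := hij
      rcases Nat.eq_zero_or_pos ij.1 with h0 | h0
      · rw [h0, hasseDeriv_zero']
        exact dvd_mul_right _ _
      · refine (c4_dvd f e g ij.2 ?_).mul_left _
        by_contra hcon
        apply hne
        have : ij.1 = 1 := by omega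
        have : ij.2 = e := by omega
        ext <;> assumption
    have h4 : hasseDeriv 1 f * hasseDeriv e (f ^ e * g) +
        ∑ ij ∈ (antidiagonal (e + 1)).erase (1, e),
          hasseDeriv ij.1 f * hasseDeriv ij.2 (f ^ e * g) - derivative f ^ (e + 1) * g =
        derivative f * (hasseDeriv e (f ^ e * g) - derivative f ^ e * g) +
          ∑ ij ∈ (antidiagonal (e + 1)).erase (1, e),
            hasseDeriv ij.1 f * hasseDeriv ij.2 (f ^ e * g) := by
      rw [hasseDeriv_one']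
      ring
    show f ∣ hasseDeriv 1 f * hasseDeriv e (f ^ e * g) + _ - _
    rw [h4]
    exact dvd_add (ih.mul_left _) h3

/-- distinct cyclotomic polynomials are relatively prime over `ℤ` -/
theorem c4_rel (a b : ℕ) (ha : 0 < a) (hb : 0 < b) (h : a ≠ b) :
    IsRelPrime (cyclotomic a ℤ) (cyclotomic b ℤ) := by
  have h1 := cyclotomic.irreducible ha
  have h2 := cyclotomic.irreducible hb
  rw [h1.isRelPrime_iff_not_dvd]
  intro hd
  have h3 := h1.associated_of_dvd h2 hd
  have h4 := eq_of_monic_of_associated (cyclotomic.monic a ℤ) (cyclotomic.monic b ℤ) h3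
  exact h (cyclotomic_injective (R := ℤ) h4)

/-- `rt m` is a primitive `4m`-th root of unity -/
theorem c4_prim (m : ℕ) (hm : 1 ≤ m) : IsPrimitiveRoot (rt m) (4 * m) := by
  have h := Complex.isPrimitiveRoot_exp (4 * m) (by omega)
  have e : rt m = Complex.exp (2 * Real.pi * Complex.I / ((4 * m : ℕ) : ℂ)) := by
    rw [rt]
    congr 1
    have : (m : ℂ) ≠ 0 := by exact_mod_cast (by omega : m ≠ 0)
    push_cast
    field_simp
    ring
  rw [e]
  exact h

/-- modulo `f`, a product of `f * A + M * B` -/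
theorem c4_prod (f : ℤ[X]) (F : Finset ℕ) (u : ℕ → ℤ[X]) (p : ℕ → ℕ)
    (h : ∀ q ∈ F, ∃ A B : ℤ[X], u q = f * A + C (p q : ℤ) * B) (E : ℕ → ℕ) :
    ∃ A B : ℤ[X], ∏ q ∈ F, u q ^ E q = f * A + C (((∏ q ∈ F, p q ^ E q : ℕ) : ℤ)) * B := by
  classical
  induction F using Finset.induction_on with
  | empty => exact ⟨0, 1, by simp⟩
  | insert q F hq ih =>
    obtain ⟨A, B, hAB⟩ := ih fun r hr => h r (mem_insert_of_mem hr)
    obtain ⟨A1, B1, h1⟩ := h q (mem_insert_self _ _)
    have h2 : f ∣ u q ^ E q - (C (p q : ℤ) * B1) ^ E q := by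
      have h3 : f ∣ u q - C (p q : ℤ) * B1 := ⟨A1, by rw [h1]; ring⟩
      exact h3.trans (sub_dvd_pow_sub_pow _ _ _)
    obtain ⟨A2, h2⟩ := h2
    rw [prod_insert hq, prod_insert hq, hAB]
    have h4 : u q ^ E q = f * A2 + C ((p q : ℤ) ^ E q) * B1 ^ E q := by
      rw [← h2]
      simp only [map_pow, mul_pow]
      ring
    rw [h4]
    refine ⟨A2 * (f * A + C (((∏ q ∈ F, p q ^ E q : ℕ) : ℤ)) * B) +
      C ((p q : ℤ) ^ E q) * B1 ^ E q * A, B1 ^ E q * B, ?_⟩
    push_cast
    simp only [map_mul, map_pow, map_prod]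
    ring

/-- C4 -/
theorem c4 {J : ℕ → ℂ} (d : NVData J) (m e : ℕ) (hm : 1 ≤ m) (h1 : Van d.P m e)
    (h2 : ¬ Van d.P m (e + 1)) (F : Finset ℕ) (E : ℕ → ℕ) (hF : Good d.P m F E) :
    ∃ a : ℕ, ∃ A B : ℤ[X], X ^ a * hasseDeriv e (d.P (m * (e + 1))) =
        cyclotomic (4 * m) ℤ * A + C (((∏ q ∈ F, q.minFac ^ E q : ℕ) : ℤ)) * B ∧
      aeval (rt m) (hasseDeriv e (d.P (m * (e + 1)))) ≠ 0 := by
  classical
  set f : ℤ[X] := cyclotomic (4 * m) ℤ with hf
  have hf0 : f ≠ 0 := cyclotomic_ne_zero _ _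
  have h4m : 0 < 4 * m := by omega
  set T : ℕ := m * (e + 1) with hT
  have hT1 : 1 ≤ T := by rw [hT]; exact Nat.mul_pos hm (by omega)
  -- a large `T'`
  set T' : ℕ := T + ∑ q ∈ F, m * q * E q with hT'
  have hTT' : T ≤ T' := by omega
  obtain ⟨a, ha⟩ := d.cong T T' hT1 hTT'
  have h3 : f ^ (e + 1) ∣ d.P T' - X ^ a * d.P T := by
    have h5 := (c3a m T hm).trans ha
    rwa [hT, Nat.mul_div_cancel_left _ hm, ← hT] at h5
  obtain ⟨R, hR⟩ := h3
  obtain ⟨G, hG⟩ := h1 T hT1 (by rw [hT]; exact Nat.mul_le_mul_left _ (by omega))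
  have h6 : f ^ e ∣ d.P T' := h1 T' (by omega)
    (le_trans (by rw [hT]; exact Nat.mul_le_mul_left _ (by omega)) hTT')
  have hpos : ∀ q ∈ F, 2 ≤ q := fun q hq => (hF q hq).1.two_le
  have h7 : ∏ q ∈ F, cyclotomic (4 * (m * q)) ℤ ^ E q ∣ d.P T' := by
    refine Finset.prod_dvd_of_isRelPrime ?_ ?_
    · intro q hq r hr hqr
      refine IsRelPrime.pow (c4_rel _ _ ?_ ?_ ?_)
      · have := hpos q hq
        positivity
      · have := hpos r hr
        positivity
      · intro h
        apply hqr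
        have h8 : m * q = m * r := by omega
        exact Nat.eq_of_mul_eq_mul_left hm h8
    · intro q hq
      have h8 : m * q * E q ≤ ∑ q ∈ F, m * q * E q :=
        Finset.single_le_sum (f := fun q => m * q * E q) (fun _ _ => Nat.zero_le _) hq
      exact (hF q hq).2.2 T' (by omega) (by omega)
  have h9 : f ^ e * ∏ q ∈ F, cyclotomic (4 * (m * q)) ℤ ^ E q ∣ d.P T' := by
    refine IsRelPrime.mul_dvd ?_ h6 h7
    refine IsRelPrime.pow_left (IsRelPrime.prod_right fun q hq => IsRelPrime.pow_right ?_)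
    refine c4_rel _ _ h4m ?_ ?_
    · have := hpos q hq
      positivity
    · intro h
      have h8 : m = m * q := by omega
      have h10 : m * 1 = m * q := by omega
      have := Nat.eq_of_mul_eq_mul_left hm h10
      have := hpos q hq
      omega
  obtain ⟨S, hS⟩ := h9
  obtain ⟨A, B, hAB⟩ := c4_prod f F (fun q => cyclotomic (4 * (m * q)) ℤ) Nat.minFac (by
    intro q hq
    obtain ⟨hq1, -, -⟩ := hF q hq
    obtain ⟨p, k, hp, hk, hpk⟩ := (isPrimePow_nat_iff _).1 hq1
    have h10 : q.minFac = p := by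
      rw [← hpk]
      exact hp.pow_minFac hk.ne'
    obtain ⟨A, B, hAB⟩ := c1 p (4 * m) k hp h4m hk
    refine ⟨A, B, ?_⟩
    rw [h10, ← hAB]
    congr 1
    rw [← hpk]
    ring) E
  set M : ℕ := ∏ q ∈ F, q.minFac ^ E q with hM
  -- `X ^ a * G` modulo `f`
  have h11 : X ^ a * G = f * (A * S - R) + C (M : ℤ) * (B * S) := by
    have h12 : f ^ e * (X ^ a * G) = f ^ e * (f * (A * S - R) + C (M : ℤ) * (B * S)) := by
      have h13 : f ^ e * (f * A + C (M : ℤ) * B) * S - X ^ a * (f ^ e * G) =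
          f ^ (e + 1) * R := by
        rw [← hAB, ← hS, ← hG, hR]
      have h14 : f ^ (e + 1) = f ^ e * f := pow_succ _ _
      rw [h14] at h13
      linear_combination -h13
    exact mul_left_cancel₀ (pow_ne_zero _ hf0) h12
  obtain ⟨W, hW⟩ := c4_top f e G
  rw [← hG] at hW
  have hW' : hasseDeriv e (d.P T) = derivative f ^ e * G + f * W := by
    linear_combination hW
  refine ⟨a, derivative f ^ e * (A * S - R) + X ^ a * W, derivative f ^ e * (B * S), ?_, ?_⟩
  · rw [hW']
    linear_combination derivative f ^ e * h11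
  · -- nonvanishing
    have hprim := c4_prim m hm
    have hroot : aeval (rt m) f = 0 := by
      rw [hf, aeval_def, eval₂_eq_eval_map, map_cyclotomic]
      exact hprim.isRoot_cyclotomic h4m
    have hmin : f = minpoly ℤ (rt m) := cyclotomic_eq_minpoly hprim h4m
    rw [hW', map_add, map_mul, map_mul, map_pow, hroot, zero_mul, add_zero]
    refine mul_ne_zero (pow_ne_zero _ ?_) ?_
    · -- simple root
      intro h
      have : NeZero ((4 * m : ℕ) : ℂ) := ⟨by exact_mod_cast h4m.ne'⟩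
      have h15 : (cyclotomic (4 * m) ℂ).Separable :=
        separable_cyclotomic _ _
      have h16 : (cyclotomic (4 * m) ℂ).IsRoot (rt m) := hprim.isRoot_cyclotomic h4m
      have h17 : aeval (rt m) (derivative f) = (derivative (cyclotomic (4 * m) ℂ)).eval (rt m) := by
        rw [hf, aeval_def, eval₂_eq_eval_map, ← derivative_map, map_cyclotomic]
      rw [h17] at h
      have h18 := h15.eval₂_derivative_ne_zero (RingHom.id ℂ) (x := rt m)
        (by rw [eval₂_id]; exact h16)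
      rw [eval₂_id] at h18
      exact h18 h
    · intro h
      have h15 : f ∣ G := by
        rw [hmin]
        exact minpoly.isIntegrallyClosed_dvd (hprim.isIntegral h4m) h
      refine c3c d m e hm h2 ?_
      rw [← hT, hG, pow_succ]
      exact mul_dvd_mul_left _ h15

end Pool.Agent.NV

end

section

set_option autoImplicit false

namespace Pool.Agent.NV

open Pool.Agent.Lib_helper77.VC Polynomial Finset ArithmeticFunction

/-- C5a -/
theorem c5a (Q : ℤ[X]) (e : ℕ) (v : ℂ) (hv : ‖v‖ = 1) :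
    ‖aeval v (hasseDeriv e Q)‖ ≤ (Q.natDegree : ℝ) ^ e * l1 Q := by
  rw [hasseDeriv_apply, Polynomial.sum_def, map_sum]
  refine (norm_sum_le _ _).trans ?_
  unfold l1
  rw [mul_sum]
  refine sum_le_sum fun i hi => ?_
  rw [aeval_monomial, norm_mul, norm_pow, hv, one_pow, mul_one]
  have e1 : algebraMap ℤ ℂ (((i.choose e : ℕ) : ℤ) * Q.coeff i) =
      (((i.choose e : ℕ) : ℂ)) * ((Q.coeff i : ℤ) : ℂ) := by
    simp
  rw [e1, norm_mul, Complex.norm_natCast, Complex.norm_intCast]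
  have h1 : ((i.choose e : ℕ) : ℝ) ≤ (Q.natDegree : ℝ) ^ e := by
    have h2 : i.choose e ≤ i ^ e := Nat.choose_le_pow i e
    have h3 : i ^ e ≤ Q.natDegree ^ e := Nat.pow_le_pow_left (le_natDegree_of_mem_supp i hi) e
    exact_mod_cast h2.trans h3
  exact mul_le_mul_of_nonneg_right h1 (abs_nonneg _)

theorem c5_rt (m : ℕ) (hm : 1 ≤ m) : IsPrimitiveRoot (rt m) (4 * m) := by
  have h := Complex.isPrimitiveRoot_exp (4 * m) (by omega)
  have e : rt m = Complex.exp (2 * Real.pi * Complex.I / ((4 * m : ℕ) : ℂ)) := by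
    unfold rt
    congr 1
    have hm' : (m : ℂ) ≠ 0 := by exact_mod_cast (by omega : m ≠ 0)
    push_cast
    field_simp
    ring
  rw [e]
  exact h

theorem c5_log (F : Finset ℕ) (E : ℕ → ℕ) (hF : ∀ q ∈ F, IsPrimePow q) :
    ∑ q ∈ F, (E q : ℝ) * vonMangoldt q =
      Real.log (((∏ q ∈ F, q.minFac ^ E q : ℕ)) : ℝ) := by
  push_cast
  rw [Real.log_prod]
  · refine sum_congr rfl fun q hq => ?_
    rw [Real.log_pow, vonMangoldt_apply, if_pos (hF q hq)]
  · intro q hq
    have := Nat.minFac_pos q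
    positivity

/-- C5b -/
theorem c5b {J : ℕ → ℂ} (d : NVData J) : ∃ C1 : ℝ, 1 ≤ C1 ∧ ∀ m e : ℕ, 1 ≤ m → Van d.P m e →
    ¬ Van d.P m (e + 1) → ∀ (F : Finset ℕ) (E : ℕ → ℕ), Good d.P m F E →
      ∑ q ∈ F, (E q : ℝ) * vonMangoldt q ≤ C1 * m * (e + 1) * (1 + Real.log (e + 1)) := by
  refine ⟨2 * d.C + 2, by linarith [d.hC], fun m e hm h1 h2 F E hF => ?_⟩
  obtain ⟨a, A, B, hAB, hne⟩ := c4 d m e hm h1 h2 F E hF
  set T := m * (e + 1) with hT
  set M : ℕ := ∏ q ∈ F, q.minFac ^ E q with hM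
  have hT1 : 1 ≤ T := Nat.mul_pos (by omega) (by omega)
  have hn : 0 < 4 * m := by omega
  have hrt := c5_rt m hm
  have h0 : aeval (rt m) (X ^ a * hasseDeriv e (d.P T)) ≠ 0 := by
    rw [map_mul, map_pow, aeval_X]
    exact mul_ne_zero (pow_ne_zero _ (rt_ne m)) hne
  have hprod := c2 (4 * m) hn _ A B M hAB (rt m) hrt h0
  set Bd : ℝ := (d.C * T ^ 2) ^ e * Real.exp (d.C * T) with hBd
  have hC := d.hC
  have hT' : (1 : ℝ) ≤ T := by exact_mod_cast hT1
  have hCT : (1 : ℝ) ≤ d.C * T ^ 2 := by nlinarith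
  have hBd0 : 0 < Bd := by positivity
  have hfac : ∀ b ∈ (range (4 * m)).filter (fun b => b.Coprime (4 * m)),
      ‖aeval (rt m ^ b) (X ^ a * hasseDeriv e (d.P T))‖ ≤ Bd := by
    intro b _
    have hv : ‖rt m ^ b‖ = 1 := by rw [norm_pow, norm_rt, one_pow]
    rw [map_mul, map_pow, aeval_X, norm_mul, norm_pow, hv, one_pow, one_mul]
    refine (c5a _ _ _ hv).trans ?_
    have hl : 0 ≤ l1 (d.P T) := sum_nonneg fun i _ => abs_nonneg _
    refine mul_le_mul ?_ (d.norm T hT1) hl (by positivity)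
    exact pow_le_pow_left₀ (Nat.cast_nonneg _) (d.deg T hT1) e
  have hprod2 : (M : ℝ) ^ (4 * m).totient ≤ Bd ^ (4 * m).totient := by
    refine hprod.trans ?_
    refine (prod_le_prod (fun b _ => norm_nonneg _) hfac).trans ?_
    rw [prod_const]
    apply le_of_eq
    congr 1
    rw [Nat.totient_eq_card_coprime]
    congr 1
    ext b
    simp only [mem_filter, Nat.coprime_comm]
  have htot : (4 * m).totient ≠ 0 := (Nat.totient_pos.2 hn).ne'
  have hMB : (M : ℝ) ≤ Bd :=
    le_of_pow_le_pow_left₀ htot hBd0.le hprod2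
  have hM1 : 1 ≤ M := by
    rw [hM]
    exact Finset.prod_pos fun q _ => Nat.pow_pos (Nat.minFac_pos q)
  have hlogM : Real.log M ≤ Real.log Bd :=
    Real.log_le_log (by exact_mod_cast (by omega : 0 < M)) hMB
  rw [c5_log F E (fun q hq => (hF q hq).1), ← hM]
  refine hlogM.trans ?_
  have hlogB : Real.log Bd = e * (Real.log d.C + 2 * (Real.log m + Real.log (e + 1))) +
      d.C * (m * (e + 1)) := by
    have hTe : (T : ℝ) = m * (e + 1) := by rw [hT]; push_cast; ring
    have hm0 : (m : ℝ) ≠ 0 := by exact_mod_cast (by omega : m ≠ 0)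
    have he0 : (e : ℝ) + 1 ≠ 0 := by positivity
    rw [hBd, Real.log_mul (by positivity) (Real.exp_pos _).ne', Real.log_exp, Real.log_pow,
      Real.log_mul (by positivity) (by positivity), Real.log_pow, hTe, Real.log_mul hm0 he0]
    push_cast
    ring
  rw [hlogB]
  have hm1 : (1 : ℝ) ≤ m := by exact_mod_cast hm
  have he : (0 : ℝ) ≤ e := Nat.cast_nonneg _
  have l1' : Real.log d.C ≤ d.C := (Real.log_le_sub_one_of_pos (by linarith)).trans (by linarith)
  have l2 : Real.log (m : ℝ) ≤ m := (Real.log_le_sub_one_of_pos (by linarith)).trans (by linarith)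
  have l3 : 0 ≤ Real.log ((e : ℝ) + 1) := Real.log_nonneg (by linarith)
  have k1 : (e : ℝ) * Real.log d.C ≤ d.C * (m * (e + 1)) := by
    have : (e : ℝ) * Real.log d.C ≤ e * d.C := mul_le_mul_of_nonneg_left l1' he
    have : (e : ℝ) * d.C ≤ d.C * (m * (e + 1)) := by
      rw [mul_comm]
      apply mul_le_mul_of_nonneg_left _ (by linarith)
      nlinarith
    linarith
  have k2 : (e : ℝ) * (2 * Real.log m) ≤ 2 * (m * (e + 1)) := by
    have : (e : ℝ) * (2 * Real.log m) ≤ e * (2 * m) :=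
      mul_le_mul_of_nonneg_left (by linarith) he
    nlinarith
  have k3 : (e : ℝ) * (2 * Real.log (e + 1)) ≤ 2 * (m * (e + 1)) * Real.log (e + 1) := by
    have : (e : ℝ) ≤ m * (e + 1) := by nlinarith
    nlinarith [mul_le_mul_of_nonneg_right this l3]
  have k4 : 0 ≤ (m : ℝ) * (e + 1) := by positivity
  nlinarith [mul_nonneg (mul_nonneg (by linarith : (0:ℝ) ≤ 2 * d.C) k4) l3]

end Pool.Agent.NV

end

section

set_option autoImplicit false

namespace Pool.Agent.NV

open Pool.Agent.Lib_helper77.VC Polynomial Finset ArithmeticFunction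

/-- `log |2 sin (π x / N)|` -/
noncomputable def c6_g (N x : ℕ) : ℝ := Real.log |2 * Real.sin (Real.pi * x / N)|

theorem c6_sinmod (N x : ℕ) (hN : 0 < N) :
    |Real.sin (Real.pi * x / N)| = |Real.sin (Real.pi * ((x % N : ℕ) : ℝ) / N)| := by
  have hN' : (N : ℝ) ≠ 0 := by exact_mod_cast hN.ne'
  have h : Real.pi * (x : ℝ) / N = Real.pi * ((x % N : ℕ) : ℝ) / N + ((x / N : ℕ) : ℝ) * Real.pi := by
    have : (x : ℝ) = ((x % N : ℕ) : ℝ) + (N : ℝ) * ((x / N : ℕ) : ℝ) := by
      exact_mod_cast (Nat.mod_add_div x N).symm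
    rw [this]
    field_simp
  rw [h, Real.sin_add_nat_mul_pi, abs_mul, abs_pow, abs_neg, abs_one, one_pow, one_mul]

theorem c6_gmod (N x : ℕ) (hN : 0 < N) : c6_g N (x % N) = c6_g N x := by
  unfold c6_g
  rw [abs_mul, abs_mul, c6_sinmod N x hN]

theorem c6_g_val (N : ℕ) [NeZero N] (x : ℕ) : c6_g N (x : ZMod N).val = c6_g N x := by
  rw [ZMod.val_natCast, c6_gmod N x (Nat.pos_of_ne_zero (NeZero.ne N))]

theorem c6_char (N : ℕ) [NeZero N] (k : ℕ) :
    ‖ZMod.stdAddChar (k : ZMod N) - 1‖ = 2 * |Real.sin (Real.pi * k / N)| := by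
  have h := ZMod.stdAddChar_coe (N := N) (k : ℤ)
  have e : ((k : ℤ) : ZMod N) = (k : ZMod N) := by push_cast; rfl
  rw [e] at h
  rw [h]
  have h2 := Complex.norm_exp_I_mul_ofReal_sub_one (2 * Real.pi * k / N)
  have h3 : Complex.I * ((2 * Real.pi * k / N : ℝ) : ℂ) =
      2 * Real.pi * Complex.I * ((k : ℤ) : ℂ) / N := by
    push_cast
    ring
  rw [h3] at h2
  rw [h2, Real.norm_eq_abs, abs_mul, abs_two]
  congr 3
  ring

theorem c6_sumZ {A : Type*} [AddCommMonoid A] (N : ℕ) [NeZero N] (f : ZMod N → A) :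
    ∑ j, f j = ∑ k ∈ range N, f (k : ZMod N) := by
  symm
  refine Finset.sum_nbij' (fun k => (k : ZMod N)) (fun j => j.val) ?_ ?_ ?_ ?_ ?_
  · intro k _
    exact mem_univ _
  · intro j _
    exact mem_range.mpr (ZMod.val_lt j)
  · intro k hk
    exact ZMod.val_cast_of_lt (mem_range.mp hk)
  · intro j _
    exact ZMod.natCast_zmod_val j
  · intro k _
    rfl

theorem c6_sin_le (a b : ℝ) (h0 : 0 ≤ a) (h1 : a ≤ b) (h2 : a + b ≤ Real.pi) :
    Real.sin a ≤ Real.sin b := by
  rcases le_total b (Real.pi / 2) with h | h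
  · exact Real.sin_le_sin_of_le_of_le_pi_div_two (by linarith [Real.pi_pos]) h h1
  · rw [← Real.sin_pi_sub b]
    exact Real.sin_le_sin_of_le_of_le_pi_div_two (by linarith [Real.pi_pos]) (by linarith)
      (by linarith)

theorem c6_pos (N x : ℕ) (h1 : 1 ≤ x) (h2 : x < N) : 0 < Real.sin (Real.pi * x / N) := by
  have hN : (0 : ℝ) < N := by exact_mod_cast (by omega : 0 < N)
  have hx : (0 : ℝ) < x := by exact_mod_cast h1
  have hx2 : (x : ℝ) < N := by exact_mod_cast h2
  apply Real.sin_pos_of_pos_of_lt_pi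
  · have := Real.pi_pos
    positivity
  · rw [div_lt_iff₀ hN]
    have := Real.pi_pos
    nlinarith

/-- `sin (π x / N) ≥ 2 min(x, N-x) / N` -/
theorem c6_sinlow (N x : ℕ) (h1 : 1 ≤ x) (h2 : x < N) :
    2 * ((min x (N - x) : ℕ) : ℝ) / N ≤ Real.sin (Real.pi * x / N) := by
  have hN : (0 : ℝ) < N := by exact_mod_cast (by omega : 0 < N)
  have hpi := Real.pi_pos
  have key : ∀ y : ℕ, 2 * y ≤ N → 2 * (y : ℝ) / N ≤ Real.sin (Real.pi * y / N) := by
    intro y hy
    have hy' : 2 * (y : ℝ) ≤ N := by exact_mod_cast hy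
    have h := Real.mul_le_sin (x := Real.pi * y / N) (by positivity) (by
      rw [div_le_div_iff₀ hN (by norm_num)]
      nlinarith)
    refine le_trans (le_of_eq ?_) h
    field_simp
  rcases le_total x (N - x) with h | h
  · rw [min_eq_left h]
    exact key x (by omega)
  · rw [min_eq_right h]
    refine (key (N - x) (by omega)).trans (le_of_eq ?_)
    rw [← Real.sin_pi_sub (Real.pi * x / N)]
    congr 1
    rw [Nat.cast_sub h2.le]
    field_simp

theorem c6_tel (f : ℕ → ℝ) (a b : ℕ) (hab : a ≤ b) (h : ∀ x, a ≤ x → x < b → f x ≤ f (x + 1)) :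
    ∑ x ∈ Ico a b, |f (x + 1) - f x| = f b - f a := by
  induction b, hab using Nat.le_induction with
  | base => simp
  | succ b hab ih =>
    rw [Finset.sum_Ico_succ_top hab, ih (fun x h1 h2 => h x h1 (by omega)),
      abs_of_nonneg (by linarith [h b hab (by omega)])]
    ring

theorem c6_tel' (f : ℕ → ℝ) (a b : ℕ) (hab : a ≤ b) (h : ∀ x, a ≤ x → x < b → f (x + 1) ≤ f x) :
    ∑ x ∈ Ico a b, |f (x + 1) - f x| = f a - f b := by
  induction b, hab using Nat.le_induction with
  | base => simp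
  | succ b hab ih =>
    rw [Finset.sum_Ico_succ_top hab, ih (fun x h1 h2 => h x h1 (by omega)),
      abs_of_nonpos (by linarith [h b hab (by omega)])]
    ring

theorem c6_g_mono (N x y : ℕ) (hx : 1 ≤ x) (hx2 : x < N)
    (h : Real.sin (Real.pi * x / N) ≤ Real.sin (Real.pi * y / N)) : c6_g N x ≤ c6_g N y := by
  have hp := c6_pos N x hx hx2
  unfold c6_g
  apply Real.log_le_log
  · positivity
  · rw [abs_of_pos (by positivity), abs_of_pos (by linarith)]
    linarith

theorem c6_g_le (N x : ℕ) : c6_g N x ≤ Real.log 2 := by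
  unfold c6_g
  rcases eq_or_ne (Real.sin (Real.pi * x / N)) 0 with h | h
  · rw [h, mul_zero, abs_zero, Real.log_zero]
    exact Real.log_nonneg (by norm_num)
  · apply Real.log_le_log
    · positivity
    · rw [abs_mul, abs_two]
      have := Real.abs_sin_le_one (Real.pi * x / N)
      linarith

theorem c6_g_ge (N x : ℕ) (h1 : 1 ≤ x) (h2 : x < N) : -Real.log N ≤ c6_g N x := by
  have hN : (0 : ℝ) < N := by exact_mod_cast (by omega : 0 < N)
  have hp := c6_pos N x h1 h2
  have h := c6_sinlow N x h1 h2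
  unfold c6_g
  rw [← Real.log_inv, abs_of_pos (by positivity)]
  apply Real.log_le_log (by positivity)
  have h3 : (1 : ℝ) ≤ ((min x (N - x) : ℕ) : ℝ) := by
    exact_mod_cast (by omega : 1 ≤ min x (N - x))
  have h4 : (N : ℝ)⁻¹ ≤ 2 * ((min x (N - x) : ℕ) : ℝ) / N := by
    rw [inv_eq_one_div]
    gcongr
    linarith
  linarith

/-- total variation -/
theorem c6_var (N : ℕ) (hN : 2 ≤ N) :
    ∑ x ∈ range N, |c6_g N (x + 1) - c6_g N x| ≤ 6 * Real.log N := by
  have hN0 : (0 : ℝ) < N := by exact_mod_cast (by omega : 0 < N)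
  have hpi := Real.pi_pos
  have hl2 : Real.log 2 ≤ Real.log N := Real.log_le_log (by norm_num) (by exact_mod_cast hN)
  set m := (N + 1) / 2 with hm
  have hm1 : 1 ≤ m := by omega
  have hm2 : m ≤ N - 1 := by omega
  have e1 : ∑ x ∈ range N, |c6_g N (x + 1) - c6_g N x| =
      ∑ x ∈ Ico 0 1, |c6_g N (x + 1) - c6_g N x| + ∑ x ∈ Ico 1 m, |c6_g N (x + 1) - c6_g N x| +
        ∑ x ∈ Ico m (N - 1), |c6_g N (x + 1) - c6_g N x| +
          ∑ x ∈ Ico (N - 1) N, |c6_g N (x + 1) - c6_g N x| := by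
    rw [Finset.sum_Ico_consecutive _ (by omega) hm1, Finset.sum_Ico_consecutive _ (by omega) hm2,
      Finset.sum_Ico_consecutive _ (by omega) (by omega), Finset.range_eq_Ico]
  have e2 : ∑ x ∈ Ico 1 m, |c6_g N (x + 1) - c6_g N x| = c6_g N m - c6_g N 1 := by
    apply c6_tel _ _ _ hm1
    intro x h1 h2
    apply c6_g_mono N x _ h1 (by omega)
    apply c6_sin_le
    · positivity
    · gcongr
      linarith
    · rw [← add_div, div_le_iff₀ hN0]
      have : 2 * (x : ℝ) + 1 ≤ N := by exact_mod_cast (by omega : 2 * x + 1 ≤ N)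
      push_cast
      nlinarith
  have e3 : ∑ x ∈ Ico m (N - 1), |c6_g N (x + 1) - c6_g N x| = c6_g N m - c6_g N (N - 1) := by
    apply c6_tel' _ _ _ hm2
    intro x h1 h2
    apply c6_g_mono N (x + 1) _ (by omega) (by omega)
    rw [← Real.sin_pi_sub (Real.pi * ((x + 1 : ℕ) : ℝ) / N), ← Real.sin_pi_sub (Real.pi * x / N)]
    have h3 : (x : ℝ) + 1 ≤ N := by exact_mod_cast (by omega : x + 1 ≤ N)
    have h4 : (N : ℝ) ≤ 2 * x + 1 := by exact_mod_cast (by omega : N ≤ 2 * x + 1)
    have e4 : Real.pi - Real.pi * ((x + 1 : ℕ) : ℝ) / N = Real.pi * (N - (x + 1)) / N := by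
      push_cast
      field_simp
    have e5 : Real.pi - Real.pi * (x : ℝ) / N = Real.pi * (N - x) / N := by
      field_simp
    rw [e4, e5]
    apply c6_sin_le
    · apply div_nonneg _ hN0.le
      apply mul_nonneg hpi.le
      linarith
    · gcongr
      linarith
    · rw [← add_div, div_le_iff₀ hN0]
      nlinarith
  have e4 : ∑ x ∈ Ico 0 1, |c6_g N (x + 1) - c6_g N x| = |c6_g N 1 - c6_g N 0| := by
    simp
  have e5 : ∑ x ∈ Ico (N - 1) N, |c6_g N (x + 1) - c6_g N x| = |c6_g N N - c6_g N (N - 1)| := by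
    have : Ico (N - 1) N = {N - 1} := by
      ext x
      simp only [mem_Ico, mem_singleton]
      omega
    rw [this, sum_singleton]
    congr 3
    omega
  have g0 : c6_g N 0 = 0 := by
    unfold c6_g
    simp
  have gN : c6_g N N = 0 := by
    rw [← c6_gmod N N (by omega), Nat.mod_self, g0]
  have a1 := c6_g_ge N 1 le_rfl (by omega)
  have a2 := c6_g_ge N (N - 1) (by omega) (by omega)
  have b1 := c6_g_le N 1
  have b2 := c6_g_le N (N - 1)
  have b3 := c6_g_le N m
  rw [e1, e2, e3, e4, e5, g0, gN]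
  have c1 : |c6_g N 1 - 0| ≤ Real.log N := by
    rw [sub_zero, abs_le]
    constructor <;> linarith
  have c2 : |0 - c6_g N (N - 1)| ≤ Real.log N := by
    rw [zero_sub, abs_neg, abs_le]
    constructor <;> linarith
  linarith

/-- `∏ 2 sin (π x / N) = N` -/
theorem c6_tot (N : ℕ) (hN : 1 ≤ N) : ∑ x ∈ range N, c6_g N x = Real.log N := by
  obtain ⟨n, rfl⟩ : ∃ n, N = n + 1 := ⟨N - 1, by omega⟩
  have hN0 : ((n + 1 : ℕ) : ℝ) ≠ 0 := by positivity
  have hμ : IsPrimitiveRoot (ZMod.stdAddChar ((1 : ℕ) : ZMod (n + 1))) (n + 1) := by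
    have h := ZMod.stdAddChar_coe (N := n + 1) ((1 : ℕ) : ℤ)
    have e : (((1 : ℕ) : ℤ) : ZMod (n + 1)) = ((1 : ℕ) : ZMod (n + 1)) := by push_cast; rfl
    rw [e] at h
    rw [h]
    have := Complex.isPrimitiveRoot_exp (n + 1) (by omega)
    convert this using 2
    push_cast
    ring
  have h := hμ.prod_one_sub_pow_eq_order
  have h2 : ∏ k ∈ range n, ‖(1 : ℂ) - ZMod.stdAddChar ((1 : ℕ) : ZMod (n + 1)) ^ (k + 1)‖ =
      ((n + 1 : ℕ) : ℝ) := by
    rw [← norm_prod, h]
    have : ((n : ℂ) + 1) = ((n + 1 : ℕ) : ℂ) := by push_cast; rfl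
    rw [this, Complex.norm_natCast]
  have h3 : ∀ k ∈ range n, ‖(1 : ℂ) - ZMod.stdAddChar ((1 : ℕ) : ZMod (n + 1)) ^ (k + 1)‖ =
      |2 * Real.sin (Real.pi * ((k + 1 : ℕ) : ℝ) / ((n + 1 : ℕ) : ℝ))| := by
    intro k _
    rw [← AddChar.map_nsmul_eq_pow, norm_sub_rev]
    have : (k + 1) • ((1 : ℕ) : ZMod (n + 1)) = ((k + 1 : ℕ) : ZMod (n + 1)) := by
      simp
    rw [this, c6_char, abs_mul, abs_two]
  rw [Finset.prod_congr rfl h3] at h2
  rw [Finset.sum_range_succ', ← h2, Real.log_prod]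
  · have : c6_g (n + 1) 0 = 0 := by
      unfold c6_g
      simp
    rw [this, add_zero]
    rfl
  · intro k hk
    have := c6_pos (n + 1) (k + 1) (by omega) (by have := mem_range.mp hk; omega)
    positivity

theorem c6_geom (c : ℂ) (hc : ‖c‖ = 1) (h1 : c ≠ 1) (n : ℕ) :
    ‖∑ h ∈ range n, c ^ (h + 1)‖ ≤ 2 / ‖c - 1‖ := by
  have h : ∑ h ∈ range n, c ^ (h + 1) = c * ((c ^ n - 1) / (c - 1)) := by
    rw [← geom_sum_eq h1, Finset.mul_sum]
    apply Finset.sum_congr rfl
    intro i _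
    ring
  rw [h, norm_mul, hc, one_mul, norm_div]
  gcongr
  refine (norm_sub_le _ _).trans ?_
  rw [norm_pow, hc, one_pow, norm_one]
  norm_num

/-- the function on `ZMod N` -/
noncomputable def c6_G (N : ℕ) (x : ZMod N) : ℂ := (c6_g N x.val : ℂ)

theorem c6_norm_char (N : ℕ) [NeZero N] (x : ZMod N) : ‖ZMod.stdAddChar x‖ = 1 := by
  rw [ZMod.stdAddChar_apply]
  exact Circle.norm_coe _

theorem c6_dft (N : ℕ) (hN : 2 ≤ N) [NeZero N] (k : ZMod N) :
    ‖ZMod.dft (c6_G N) k‖ * ‖ZMod.stdAddChar k - 1‖ ≤ 6 * Real.log N := by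
  rw [← norm_mul]
  have h : ZMod.dft (c6_G N) k * (ZMod.stdAddChar k - 1) =
      ∑ j : ZMod N, ZMod.stdAddChar (-(j * k)) * (c6_G N (j + 1) - c6_G N j) := by
    rw [mul_sub, mul_one]
    simp only [mul_sub, Finset.sum_sub_distrib]
    congr 1
    · rw [ZMod.dft_apply, Finset.sum_mul]
      rw [← Equiv.sum_comp (Equiv.addRight (1 : ZMod N))]
      apply Finset.sum_congr rfl
      intro j _
      rw [smul_eq_mul, mul_right_comm, ← AddChar.map_add_eq_mul]
      simp only [Equiv.coe_addRight]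
      congr 2
      ring
  rw [h]
  refine (norm_sum_le _ _).trans ?_
  rw [c6_sumZ]
  refine le_trans (le_of_eq ?_) (c6_var N hN)
  apply Finset.sum_congr rfl
  intro x _
  rw [norm_mul, c6_norm_char, one_mul]
  unfold c6_G
  have : ((x : ZMod N) + 1) = ((x + 1 : ℕ) : ZMod N) := by push_cast; rfl
  rw [this, c6_g_val, c6_g_val, ← Complex.ofReal_sub, Complex.norm_real, Real.norm_eq_abs]

/-- C6a. finite Fourier series of `log |2 sin|` -/
theorem c6a : ∃ C : ℝ, 1 ≤ C ∧ ∀ N : ℕ, 2 ≤ N → ∀ b : ℕ, b.Coprime N → ∀ n, n < N →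
    |SS N b n| ≤ C * Real.log N * (1 + ∑ k ∈ Ico 1 N,
      1 / ((min k (N - k) : ℕ) : ℝ) * (1 / |Real.sin (Real.pi * k * b / N)|)) := by
  refine ⟨2, by norm_num, ?_⟩
  intro N hN b hb n hn
  have : NeZero N := ⟨by omega⟩
  have hN0 : (0 : ℝ) < N := by exact_mod_cast (by omega : 0 < N)
  have hlog : 0 ≤ Real.log N := Real.log_nonneg (by exact_mod_cast (by omega : 1 ≤ N))
  have inv : ∀ x : ZMod N, c6_G N x = (N : ℂ)⁻¹ * ∑ j : ZMod N,
      ZMod.stdAddChar (j * x) * ZMod.dft (c6_G N) j := by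
    intro x
    have := ZMod.invDFT_apply (ZMod.dft (c6_G N)) x
    rw [LinearEquiv.symm_apply_apply] at this
    rw [this]
    simp only [smul_eq_mul]
  have hS : ((SS N b n : ℝ) : ℂ) = (N : ℂ)⁻¹ * ∑ j : ZMod N, ZMod.dft (c6_G N) j *
      ∑ h ∈ range n, ZMod.stdAddChar (j * (b : ZMod N)) ^ (h + 1) := by
    have e1 : ((SS N b n : ℝ) : ℂ) = ∑ h ∈ range n, c6_G N (((h + 1) * b : ℕ) : ZMod N) := by
      unfold SS c6_G
      rw [Complex.ofReal_sum]
      apply Finset.sum_congr rfl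
      intro h _
      rw [c6_g_val]
      unfold c6_g
      congr 5
      push_cast
      ring
    rw [e1]
    have e2 : ∀ h ∈ range n, c6_G N (((h + 1) * b : ℕ) : ZMod N) = (N : ℂ)⁻¹ * ∑ j : ZMod N,
        ZMod.dft (c6_G N) j * ZMod.stdAddChar (j * (b : ZMod N)) ^ (h + 1) := by
      intro h _
      rw [inv]
      congr 1
      apply Finset.sum_congr rfl
      intro j _
      rw [mul_comm, ← AddChar.map_nsmul_eq_pow]
      congr 2
      rw [nsmul_eq_mul]
      push_cast
      ring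
    rw [Finset.sum_congr rfl e2, ← Finset.mul_sum, Finset.sum_comm]
    congr 1
    apply Finset.sum_congr rfl
    intro j _
    rw [Finset.mul_sum]
  have hb1 : |SS N b n| ≤ (N : ℝ)⁻¹ * ∑ j : ZMod N, ‖ZMod.dft (c6_G N) j‖ *
      ‖∑ h ∈ range n, ZMod.stdAddChar (j * (b : ZMod N)) ^ (h + 1)‖ := by
    rw [← Real.norm_eq_abs, ← Complex.norm_real, hS, norm_mul, norm_inv, Complex.norm_natCast]
    gcongr
    refine (norm_sum_le _ _).trans (le_of_eq ?_)
    apply Finset.sum_congr rfl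
    intro j _
    rw [norm_mul]
  refine hb1.trans ?_
  rw [c6_sumZ, Finset.range_eq_Ico, Finset.sum_eq_sum_Ico_succ_bot (by omega)]
  have t0 : ‖ZMod.dft (c6_G N) ((0 : ℕ) : ZMod N)‖ *
      ‖∑ h ∈ range n, ZMod.stdAddChar (((0 : ℕ) : ZMod N) * (b : ZMod N)) ^ (h + 1)‖ ≤
        N * Real.log N := by
    have e1 : ZMod.dft (c6_G N) ((0 : ℕ) : ZMod N) = (Real.log N : ℂ) := by
      rw [Nat.cast_zero, ZMod.dft_apply_zero, c6_sumZ, ← c6_tot N (by omega), Complex.ofReal_sum]
      apply Finset.sum_congr rfl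
      intro x _
      unfold c6_G
      rw [c6_g_val]
    have e2 : ‖∑ h ∈ range n, ZMod.stdAddChar (((0 : ℕ) : ZMod N) * (b : ZMod N)) ^ (h + 1)‖ ≤
        N := by
      refine (norm_sum_le _ _).trans ?_
      have : ∀ h ∈ range n, ‖ZMod.stdAddChar (((0 : ℕ) : ZMod N) * (b : ZMod N)) ^ (h + 1)‖ =
          1 := by
        intro h _
        rw [norm_pow, c6_norm_char, one_pow]
      rw [Finset.sum_congr rfl this]
      simp only [sum_const, card_range, nsmul_eq_mul, mul_one]
      exact_mod_cast hn.le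
    rw [e1, Complex.norm_real, Real.norm_eq_abs, abs_of_nonneg hlog, mul_comm]
    gcongr
  have t1 : ∀ k ∈ Ico (0 + 1) N, ‖ZMod.dft (c6_G N) (k : ZMod N)‖ *
      ‖∑ h ∈ range n, ZMod.stdAddChar ((k : ZMod N) * (b : ZMod N)) ^ (h + 1)‖ ≤
        2 * N * Real.log N * (1 / ((min k (N - k) : ℕ) : ℝ) *
          (1 / |Real.sin (Real.pi * k * b / N)|)) := by
    intro k hk
    rw [mem_Ico] at hk
    have ek : (k : ZMod N) * (b : ZMod N) = ((k * b : ℕ) : ZMod N) := by push_cast; rfl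
    have hne : (k : ZMod N) * (b : ZMod N) ≠ 0 := by
      rw [ek]
      intro h
      rw [ZMod.natCast_eq_zero_iff] at h
      have h' := (Nat.Coprime.dvd_of_dvd_mul_right hb.symm h)
      exact absurd (Nat.le_of_dvd (by omega) h') (by omega)
    have hne1 : ZMod.stdAddChar ((k : ZMod N) * (b : ZMod N)) ≠ 1 := by
      intro h
      apply hne
      apply ZMod.injective_stdAddChar
      rw [h, AddChar.map_zero_eq_one]
    have g1 := c6_geom _ (c6_norm_char N _) hne1 n
    rw [ek, c6_char] at g1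
    have hs0 : 0 < |Real.sin (Real.pi * ((k * b : ℕ) : ℝ) / N)| := by
      have h1 : 0 < ‖ZMod.stdAddChar ((k : ZMod N) * (b : ZMod N)) - 1‖ :=
        norm_pos_iff.mpr (sub_ne_zero.mpr hne1)
      rw [ek, c6_char] at h1
      linarith
    have es : Real.pi * ((k * b : ℕ) : ℝ) / N = Real.pi * k * b / N := by
      push_cast
      ring
    rw [es] at g1 hs0
    have d1 := c6_dft N hN (k : ZMod N)
    rw [c6_char] at d1
    have hsl := c6_sinlow N k (by omega) hk.2
    have hp := c6_pos N k (by omega) hk.2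
    rw [abs_of_pos hp] at d1
    have hm : (1 : ℝ) ≤ ((min k (N - k) : ℕ) : ℝ) := by
      exact_mod_cast (by omega : 1 ≤ min k (N - k))
    have d2 : ‖ZMod.dft (c6_G N) (k : ZMod N)‖ ≤ 2 * N * Real.log N *
        (1 / ((min k (N - k) : ℕ) : ℝ)) := by
      rw [mul_one_div, le_div_iff₀ (by linarith)]
      have h3 : ‖ZMod.dft (c6_G N) (k : ZMod N)‖ * (2 * (2 * ((min k (N - k) : ℕ) : ℝ) / N)) ≤
          6 * Real.log N := by
        refine le_trans ?_ d1
        gcongr
      have h4 : ‖ZMod.dft (c6_G N) (k : ZMod N)‖ * ((min k (N - k) : ℕ) : ℝ) =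
          (N / 4) * (‖ZMod.dft (c6_G N) (k : ZMod N)‖ *
            (2 * (2 * ((min k (N - k) : ℕ) : ℝ) / N))) := by
        field_simp
        ring
      rw [h4]
      calc (N : ℝ) / 4 * (‖ZMod.dft (c6_G N) (k : ZMod N)‖ *
            (2 * (2 * ((min k (N - k) : ℕ) : ℝ) / N))) ≤ (N : ℝ) / 4 * (6 * Real.log N) := by
            gcongr
        _ ≤ 2 * N * Real.log N := by
            have : 0 ≤ (N : ℝ) * Real.log N := by positivity
            linarith
    rw [ek, ← mul_assoc]
    refine mul_le_mul d2 (g1.trans (le_of_eq ?_)) (norm_nonneg _) (by positivity)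
    field_simp
  have t2 := Finset.sum_le_sum t1
  rw [← Finset.mul_sum] at t2
  have hsum : 0 ≤ ∑ k ∈ Ico (0 + 1) N, (1 / ((min k (N - k) : ℕ) : ℝ) *
      (1 / |Real.sin (Real.pi * k * b / N)|)) := by
    apply Finset.sum_nonneg
    intro k _
    positivity
  rw [zero_add] at *
  set W := ∑ k ∈ Ico 1 N, (1 / ((min k (N - k) : ℕ) : ℝ) *
      (1 / |Real.sin (Real.pi * k * b / N)|)) with hW
  calc (N : ℝ)⁻¹ * _ ≤ (N : ℝ)⁻¹ * (N * Real.log N + 2 * N * Real.log N * W) := by
        gcongr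
    _ = Real.log N + 2 * Real.log N * W := by
        field_simp
    _ ≤ _ := by
        nlinarith

end Pool.Agent.NV

end

section

set_option autoImplicit false

namespace Pool.Agent.NV

open Pool.Agent.Lib_helper77.VC Polynomial Finset ArithmeticFunction

theorem c6b_rep (f : ℕ → ℝ) (M : ℕ) (hper : ∀ x, f (x + M) = f x) (m : ℕ) :
    ∑ x ∈ range (m * M), f x = m * ∑ x ∈ range M, f x := by
  induction m with
  | zero => simp
  | succ m ih =>
    have hm : ∀ j x, f (x + j * M) = f x := by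
      intro j
      induction j with
      | zero => simp
      | succ j ihj =>
        intro x
        rw [Nat.succ_mul, ← add_assoc, hper, ihj]
    rw [Nat.succ_mul, Finset.sum_range_add, ih]
    have : ∑ x ∈ range M, f (m * M + x) = ∑ x ∈ range M, f x := by
      apply Finset.sum_congr rfl
      intro x _
      rw [add_comm, hm]
    rw [this]
    push_cast
    ring

theorem c6b_harm (M : ℕ) (hM : 1 ≤ M) :
    ∑ x ∈ Ico 1 M, 1 / ((min x (M - x) : ℕ) : ℝ) ≤ 2 * (1 + Real.log M) := by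
  have h1 : ∑ x ∈ Ico 1 M, (1 / (x : ℝ)) ≤ 1 + Real.log M := by
    have h := harmonic_le_one_add_log M
    refine le_trans ?_ h
    rw [harmonic_eq_sum_Icc]
    push_cast
    simp only [one_div]
    apply Finset.sum_le_sum_of_subset_of_nonneg
    · intro x hx
      rw [mem_Ico] at hx
      rw [mem_Icc]
      omega
    · intro x _ _
      positivity
  have h2 : ∑ x ∈ Ico 1 M, (1 / ((M - x : ℕ) : ℝ)) = ∑ x ∈ Ico 1 M, (1 / (x : ℝ)) := by
    refine Finset.sum_nbij' (fun x => M - x) (fun x => M - x) ?_ ?_ ?_ ?_ ?_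
    · intro x hx
      simp only [mem_Ico] at *
      omega
    · intro x hx
      simp only [mem_Ico] at *
      omega
    · intro x hx
      simp only [mem_Ico] at *
      omega
    · intro x hx
      simp only [mem_Ico] at *
      omega
    · intro x _
      rfl
  calc ∑ x ∈ Ico 1 M, 1 / ((min x (M - x) : ℕ) : ℝ)
      ≤ ∑ x ∈ Ico 1 M, (1 / (x : ℝ) + 1 / ((M - x : ℕ) : ℝ)) := by
        apply Finset.sum_le_sum
        intro x hx
        rcases le_total x (M - x) with h | h
        · rw [min_eq_left h]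
          have : 0 ≤ 1 / ((M - x : ℕ) : ℝ) := by positivity
          linarith
        · rw [min_eq_right h]
          have : 0 ≤ 1 / (x : ℝ) := by positivity
          linarith
    _ ≤ 2 * (1 + Real.log M) := by
        rw [Finset.sum_add_distrib, h2]
        linarith

theorem c6b_one (M : ℕ) (hM : 1 ≤ M) :
    ∑ x ∈ range M, 1 / |Real.sin (Real.pi * x / M)| ≤ M * (1 + Real.log M) := by
  have hM0 : (0 : ℝ) < M := by exact_mod_cast hM
  rw [Finset.range_eq_Ico, Finset.sum_eq_sum_Ico_succ_bot (by omega)]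
  have h0 : 1 / |Real.sin (Real.pi * ((0 : ℕ) : ℝ) / M)| = 0 := by simp
  rw [h0, zero_add, zero_add]
  calc ∑ x ∈ Ico 1 M, 1 / |Real.sin (Real.pi * x / M)|
      ≤ ∑ x ∈ Ico 1 M, (M / 2) * (1 / ((min x (M - x) : ℕ) : ℝ)) := by
        apply Finset.sum_le_sum
        intro x hx
        rw [mem_Ico] at hx
        have h1 := c6_sinlow M x hx.1 hx.2
        have h2 := c6_pos M x hx.1 hx.2
        have hm : (1 : ℝ) ≤ ((min x (M - x) : ℕ) : ℝ) := by
          exact_mod_cast (by omega : 1 ≤ min x (M - x))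
        rw [abs_of_pos h2]
        calc 1 / Real.sin (Real.pi * x / M) ≤ 1 / (2 * ((min x (M - x) : ℕ) : ℝ) / M) := by
              gcongr
          _ = (M / 2) * (1 / ((min x (M - x) : ℕ) : ℝ)) := by
              field_simp
    _ = (M / 2) * ∑ x ∈ Ico 1 M, (1 / ((min x (M - x) : ℕ) : ℝ)) := by
        rw [Finset.mul_sum]
    _ ≤ (M / 2) * (2 * (1 + Real.log M)) := by
        gcongr
        exact c6b_harm M hM
    _ = M * (1 + Real.log M) := by ring

theorem c6b_perm (M : ℕ) [NeZero M] (u : ℕ) (hu : u.Coprime M) :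
    ∑ b ∈ range M, 1 / |Real.sin (Real.pi * ((u * b : ℕ) : ℝ) / M)| =
      ∑ b ∈ range M, 1 / |Real.sin (Real.pi * b / M)| := by
  have hM : 0 < M := Nat.pos_of_ne_zero (NeZero.ne M)
  let F : ZMod M → ℝ := fun x => 1 / |Real.sin (Real.pi * x.val / M)|
  have hF : ∀ x : ℕ, F (x : ZMod M) = 1 / |Real.sin (Real.pi * x / M)| := by
    intro x
    show 1 / |Real.sin (Real.pi * ((x : ZMod M).val : ℝ) / M)| = _
    rw [ZMod.val_natCast, ← c6_sinmod M x hM]
  have h1 := Equiv.sum_comp (Units.mulLeft (ZMod.unitOfCoprime u hu)) F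
  simp only [Units.mulLeft_apply, ZMod.coe_unitOfCoprime] at h1
  rw [c6_sumZ, c6_sumZ] at h1
  calc ∑ b ∈ range M, 1 / |Real.sin (Real.pi * ((u * b : ℕ) : ℝ) / M)| =
        ∑ b ∈ range M, F ((u : ZMod M) * (b : ZMod M)) := by
        apply Finset.sum_congr rfl
        intro b _
        rw [← hF (u * b)]
        push_cast
        rfl
    _ = _ := h1
    _ = _ := by
        apply Finset.sum_congr rfl
        intro b _
        rw [hF b]

theorem c6b_k (N k : ℕ) (hN : 2 ≤ N) (hk : 1 ≤ k) (hkN : k < N) :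
    ∑ b ∈ range (4 * N), 1 / |Real.sin (Real.pi * k * b / N)| ≤ 4 * N * (1 + Real.log N) := by
  have hg : 0 < Nat.gcd k N := Nat.gcd_pos_of_pos_left _ (by omega)
  obtain ⟨d, k', M, hd, hco, hk', hM'⟩ : ∃ d k' M : ℕ, 0 < d ∧ k'.Coprime M ∧ k = k' * d ∧
      N = M * d := ⟨Nat.gcd k N, k / Nat.gcd k N, N / Nat.gcd k N, hg,
    Nat.coprime_div_gcd_div_gcd hg, (Nat.div_mul_cancel (Nat.gcd_dvd_left _ _)).symm,
    (Nat.div_mul_cancel (Nat.gcd_dvd_right _ _)).symm⟩
  have hM : 1 ≤ M := by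
    rcases Nat.eq_zero_or_pos M with h | h
    · rw [h, zero_mul] at hM'
      omega
    · exact h
  have : NeZero M := ⟨by omega⟩
  have hd0 : (0 : ℝ) < d := by exact_mod_cast hd
  have hM0 : (0 : ℝ) < M := by exact_mod_cast hM
  have e1 : ∀ b : ℕ, 1 / |Real.sin (Real.pi * k * b / N)| =
      1 / |Real.sin (Real.pi * ((k' * b : ℕ) : ℝ) / M)| := by
    intro b
    rw [hk', hM']
    congr 3
    push_cast
    field_simp
  have e2 : 4 * N = (4 * d) * M := by rw [hM']; ring
  rw [Finset.sum_congr rfl (fun b _ => e1 b), e2, c6b_rep, c6b_perm M k' hco]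
  · have h1 := c6b_one M hM
    have hlog : Real.log M ≤ Real.log N := by
      apply Real.log_le_log hM0
      rw [hM']
      push_cast
      have : (1 : ℝ) ≤ d := by exact_mod_cast hd
      nlinarith
    calc ((4 * d : ℕ) : ℝ) * ∑ b ∈ range M, 1 / |Real.sin (Real.pi * b / M)|
        ≤ ((4 * d : ℕ) : ℝ) * (M * (1 + Real.log M)) := by gcongr
      _ = 4 * N * (1 + Real.log M) := by
          rw [hM']
          push_cast
          ring
      _ ≤ 4 * N * (1 + Real.log N) := by gcongr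
  · intro x
    rw [c6_sinmod M (k' * (x + M)) (by omega), c6_sinmod M (k' * x) (by omega)]
    congr 6
    rw [mul_add, Nat.add_mul_mod_self_right]

/-- C6b -/
theorem c6b : ∃ C : ℝ, 1 ≤ C ∧ ∀ N : ℕ, 2 ≤ N →
    ∑ b ∈ (range (4 * N)).filter (fun b => b.Coprime (4 * N)), ∑ k ∈ Ico 1 N,
      1 / ((min k (N - k) : ℕ) : ℝ) * (1 / |Real.sin (Real.pi * k * b / N)|) ≤
        C * N * Real.log N ^ 2 := by
  refine ⟨72, by norm_num, ?_⟩
  intro N hN
  have hN0 : (0 : ℝ) < N := by exact_mod_cast (by omega : 0 < N)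
  have hlog2 : (1 : ℝ) / 2 ≤ Real.log N := by
    have h1 : Real.log 2 ≤ Real.log N := Real.log_le_log (by norm_num) (by exact_mod_cast hN)
    have h2 := Real.log_two_gt_d9
    linarith
  calc ∑ b ∈ (range (4 * N)).filter (fun b => b.Coprime (4 * N)), ∑ k ∈ Ico 1 N,
      1 / ((min k (N - k) : ℕ) : ℝ) * (1 / |Real.sin (Real.pi * k * b / N)|)
      ≤ ∑ b ∈ range (4 * N), ∑ k ∈ Ico 1 N,
      1 / ((min k (N - k) : ℕ) : ℝ) * (1 / |Real.sin (Real.pi * k * b / N)|) := by
        apply Finset.sum_le_sum_of_subset_of_nonneg (Finset.filter_subset _ _)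
        intro b _ _
        apply Finset.sum_nonneg
        intro k _
        positivity
    _ = ∑ k ∈ Ico 1 N, 1 / ((min k (N - k) : ℕ) : ℝ) *
        ∑ b ∈ range (4 * N), (1 / |Real.sin (Real.pi * k * b / N)|) := by
        rw [Finset.sum_comm]
        apply Finset.sum_congr rfl
        intro k _
        rw [Finset.mul_sum]
    _ ≤ ∑ k ∈ Ico 1 N, 1 / ((min k (N - k) : ℕ) : ℝ) * (4 * N * (1 + Real.log N)) := by
        apply Finset.sum_le_sum
        intro k hk
        rw [mem_Ico] at hk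
        have := c6b_k N k hN hk.1 hk.2
        gcongr
    _ = (∑ k ∈ Ico 1 N, 1 / ((min k (N - k) : ℕ) : ℝ)) * (4 * N * (1 + Real.log N)) := by
        rw [Finset.sum_mul]
    _ ≤ (2 * (1 + Real.log N)) * (4 * N * (1 + Real.log N)) := by
        have := c6b_harm N (by omega)
        gcongr
    _ ≤ 72 * N * Real.log N ^ 2 := by
        have h3 : 1 + Real.log N ≤ 3 * Real.log N := by linarith
        have h4 : (1 + Real.log N) ^ 2 ≤ (3 * Real.log N) ^ 2 := by
          gcongr
        nlinarith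

end Pool.Agent.NV

end

section

/-!
# NV block C6c: `n ≤ C φ(n) log (n + 1)` (helper25)
-/

set_option autoImplicit false

namespace Pool.Agent.NV

open Polynomial Finset ArithmeticFunction

theorem c6c_prod (S : Finset ℕ) : (∀ p ∈ S, 2 ≤ p) →
    ∏ p ∈ S, (p : ℝ) ≤ (S.card + 1) * ∏ p ∈ S, ((p : ℝ) - 1) := by
  induction S using Finset.induction_on_max with
  | empty => intro _; simp
  | insert a s ha ih =>
    intro h
    have has : a ∉ s := fun h' => lt_irrefl _ (ha a h')
    have h2 : 2 ≤ a := h a (mem_insert_self _ _)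
    have hs : s ⊆ Ico 2 a := fun p hp => mem_Ico.2 ⟨h p (mem_insert_of_mem hp), ha p hp⟩
    have hc : s.card ≤ a - 2 := by
      have := Finset.card_le_card hs
      rwa [Nat.card_Ico] at this
    have hcR : (s.card : ℝ) + 2 ≤ a := by
      have : s.card + 2 ≤ a := by omega
      exact_mod_cast this
    have ih' := ih fun p hp => h p (mem_insert_of_mem hp)
    rw [Finset.prod_insert has, Finset.prod_insert has, Finset.card_insert_of_notMem has]
    have hP : 0 ≤ ∏ p ∈ s, ((p : ℝ) - 1) := Finset.prod_nonneg fun p hp => by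
      have : (2 : ℝ) ≤ p := by exact_mod_cast h p (mem_insert_of_mem hp)
      linarith
    push_cast
    have h3 : (a : ℝ) * (s.card + 1) ≤ (s.card + 1 + 1) * ((a : ℝ) - 1) := by nlinarith
    calc (a : ℝ) * ∏ p ∈ s, (p : ℝ) ≤ a * ((s.card + 1) * ∏ p ∈ s, ((p : ℝ) - 1)) :=
          mul_le_mul_of_nonneg_left ih' (by positivity)
      _ = (a * (s.card + 1)) * ∏ p ∈ s, ((p : ℝ) - 1) := by ring
      _ ≤ ((s.card + 1 + 1) * ((a : ℝ) - 1)) * ∏ p ∈ s, ((p : ℝ) - 1) :=
          mul_le_mul_of_nonneg_right h3 hP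
      _ = _ := by ring

/-- C6c -/
theorem c6c : ∃ C : ℝ, 1 ≤ C ∧ ∀ N : ℕ, 1 ≤ N → (N : ℝ) ≤ C * N.totient * Real.log (N + 1) := by
  refine ⟨3, by norm_num, fun N hN => ?_⟩
  have hNR : (1 : ℝ) ≤ N := by exact_mod_cast hN
  have h2 : ∀ p ∈ N.primeFactors, 2 ≤ p := fun p hp => (Nat.prime_of_mem_primeFactors hp).two_le
  have h1 := c6c_prod N.primeFactors h2
  have h3 := Nat.totient_mul_prod_primeFactors N
  have hP0 : 0 < ∏ p ∈ N.primeFactors, ((p : ℝ) - 1) := Finset.prod_pos fun p hp => by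
    have : (2 : ℝ) ≤ p := by exact_mod_cast h2 p hp
    linarith
  have h3' : (N.totient : ℝ) * ∏ p ∈ N.primeFactors, (p : ℝ) =
      N * ∏ p ∈ N.primeFactors, ((p : ℝ) - 1) := by
    have h4 : ((∏ p ∈ N.primeFactors, (p - 1) : ℕ) : ℝ) =
        ∏ p ∈ N.primeFactors, ((p : ℝ) - 1) := by
      rw [Nat.cast_prod]
      refine Finset.prod_congr rfl fun p hp => ?_
      rw [Nat.cast_sub (by have := h2 p hp; omega)]
      simp
    rw [← h4]
    have h5 := congrArg (fun n : ℕ => (n : ℝ)) h3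
    simpa only [Nat.cast_mul, Nat.cast_prod] using h5
  have h5 : (N : ℝ) ≤ N.totient * (N.primeFactors.card + 1) := by
    have h6 : (N : ℝ) * ∏ p ∈ N.primeFactors, ((p : ℝ) - 1) ≤
        (N.totient * (N.primeFactors.card + 1)) * ∏ p ∈ N.primeFactors, ((p : ℝ) - 1) := by
      rw [← h3', mul_assoc]
      exact mul_le_mul_of_nonneg_left h1 (by positivity)
    exact le_of_mul_le_mul_right h6 hP0
  have h7 : 2 ^ N.primeFactors.card ≤ N := by
    have h8 : 2 ^ N.primeFactors.card ≤ ∏ p ∈ N.primeFactors, p :=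
      Finset.pow_card_le_prod _ _ _ h2
    exact h8.trans (Nat.le_of_dvd (by omega) (Nat.prod_primeFactors_dvd N))
  have h9 : (N.primeFactors.card : ℝ) * Real.log 2 ≤ Real.log (N + 1) := by
    rw [← Real.log_pow]
    refine Real.log_le_log (by positivity) ?_
    have : ((2 ^ N.primeFactors.card : ℕ) : ℝ) ≤ N := by exact_mod_cast h7
    push_cast at this
    linarith
  have h10 : Real.log 2 ≤ Real.log (N + 1) := Real.log_le_log (by norm_num) (by linarith)
  have h11 : (0.6931471803 : ℝ) < Real.log 2 := Real.log_two_gt_d9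
  have h12 : (N.primeFactors.card : ℝ) + 1 ≤ 3 * Real.log (N + 1) := by
    have h13 : ((N.primeFactors.card : ℝ) + 1) * Real.log 2 ≤ 2 * Real.log (N + 1) := by linarith
    have h14 : 0 ≤ (N.primeFactors.card : ℝ) + 1 := by positivity
    nlinarith
  calc (N : ℝ) ≤ N.totient * (N.primeFactors.card + 1) := h5
    _ ≤ N.totient * (3 * Real.log (N + 1)) := mul_le_mul_of_nonneg_left h12 (by positivity)
    _ = _ := by ring

end Pool.Agent.NV

end

section

set_option autoImplicit false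

namespace Pool.Agent.NV

open Pool.Agent.Lib_helper77.VC Polynomial Finset

/-- C6d. (from C6a, C6b) -/
theorem c6d : ∃ C : ℝ, 1 ≤ C ∧ ∀ N : ℕ, 2 ≤ N → ∃ M : ℕ → ℝ, (∀ b, 0 ≤ M b) ∧
    (∀ b : ℕ, b.Coprime (4 * N) → ∀ n, n < N → |SS N b n| ≤ M b) ∧
      ∑ b ∈ (range (4 * N)).filter (fun b => b.Coprime (4 * N)), M b ≤
        C * N * Real.log N ^ 3 := by
  obtain ⟨C1, h1, ha⟩ := c6a
  obtain ⟨C2, h2, hb⟩ := c6b
  refine ⟨C1 * (16 + C2), by nlinarith, ?_⟩
  intro N hN
  have hN' : (2 : ℝ) ≤ N := by exact_mod_cast hN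
  have hlog : (1 / 2 : ℝ) ≤ Real.log N := by
    have := Real.log_two_gt_d9
    have h3 := Real.log_le_log (by norm_num : (0:ℝ) < 2) hN'
    linarith
  set G : ℕ → ℝ := fun b => ∑ k ∈ Ico 1 N,
      1 / ((min k (N - k) : ℕ) : ℝ) * (1 / |Real.sin (Real.pi * k * b / N)|) with hG
  have hG0 : ∀ b, 0 ≤ G b := by
    intro b
    apply sum_nonneg
    intro k _
    positivity
  refine ⟨fun b => C1 * Real.log N * (1 + G b), ?_, ?_, ?_⟩
  · intro b
    have := hG0 b
    positivity
  · intro b hbN n hn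
    exact ha N hN b (Nat.Coprime.coprime_mul_left_right hbN) n hn
  · rw [← mul_sum, sum_add_distrib]
    have hc : ∑ _b ∈ (range (4 * N)).filter (fun b => b.Coprime (4 * N)), (1 : ℝ) ≤ 4 * N := by
      rw [sum_const, nsmul_eq_mul, mul_one]
      have := card_filter_le (range (4 * N)) (fun b => b.Coprime (4 * N))
      rw [card_range] at this
      exact_mod_cast this
    have hs := hb N hN
    have e : C1 * Real.log N * ((∑ _b ∈ (range (4 * N)).filter (fun b => b.Coprime (4 * N)), (1 : ℝ)) +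
        ∑ b ∈ (range (4 * N)).filter (fun b => b.Coprime (4 * N)), G b) ≤
        C1 * Real.log N * (4 * N + C2 * N * Real.log N ^ 2) := by
      gcongr
    refine e.trans ?_
    have h4 : (4 * N : ℝ) ≤ 16 * N * Real.log N ^ 2 := by nlinarith [sq_nonneg (Real.log N - 1/2)]
    have h5 : C1 * Real.log N * (4 * N + C2 * N * Real.log N ^ 2) ≤
        C1 * Real.log N * (16 * N * Real.log N ^ 2 + C2 * N * Real.log N ^ 2) := by gcongr
    refine h5.trans (le_of_eq ?_)
    ring

end Pool.Agent.NV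

end

section

set_option autoImplicit false

namespace Pool.Agent.NV

open Pool.Agent.Lib_helper77.VC Polynomial Finset ArithmeticFunction

/-- `rt m` is a primitive `4m`-th root of unity -/
theorem c7_prim (m : ℕ) (hm : 1 ≤ m) : IsPrimitiveRoot (rt m) (4 * m) := by
  have h := Complex.isPrimitiveRoot_exp (4 * m) (by omega)
  have e : rt m = Complex.exp (2 * Real.pi * Complex.I / ((4 * m : ℕ) : ℂ)) := by
    rw [rt]
    congr 1
    have : (m : ℂ) ≠ 0 := by exact_mod_cast (by omega : m ≠ 0)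
    push_cast
    field_simp
    ring
  rw [e]
  exact h

theorem c7_norm (m : ℕ) (hm : 1 ≤ m) : ‖rt m‖ = 1 :=
  (c7_prim m hm).norm'_eq_one (by omega)

theorem c7_log (F : Finset ℕ) (E : ℕ → ℕ) (hF : ∀ q ∈ F, IsPrimePow q) :
    Real.log ((∏ q ∈ F, q.minFac ^ E q : ℕ) : ℝ) = ∑ q ∈ F, (E q : ℝ) * vonMangoldt q := by
  rw [Nat.cast_prod, Real.log_prod]
  · refine Finset.sum_congr rfl fun q hq => ?_
    rw [vonMangoldt_apply, if_pos (hF q hq), Nat.cast_pow, Real.log_pow]
  · intro q hq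
    have : 0 < q.minFac := Nat.minFac_pos q
    positivity

theorem c7_pos (F : Finset ℕ) (E : ℕ → ℕ) : 0 < ((∏ q ∈ F, q.minFac ^ E q : ℕ) : ℝ) := by
  have : 0 < ∏ q ∈ F, q.minFac ^ E q :=
    Finset.prod_pos fun q _ => pow_pos (Nat.minFac_pos q) _
  exact_mod_cast this

theorem c7_tot (m : ℕ) (hm : 1 ≤ m) : m.totient ≤ (4 * m).totient :=
  Nat.le_of_dvd (Nat.totient_pos.2 (by omega)) (Nat.totient_dvd_of_dvd (Dvd.intro_left 4 rfl))

/-- the product over the conjugates -/
theorem c7_prod {J : ℕ → ℂ} (d : NVData J) (m : ℕ) (hm : 1 ≤ m)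
    (h2 : ¬ Van d.P m 1) (F : Finset ℕ) (E : ℕ → ℕ) (hF : Good d.P m F E) :
    ((∏ q ∈ F, q.minFac ^ E q : ℕ) : ℝ) ^ (4 * m).totient ≤
      ∏ b ∈ (range (4 * m)).filter (fun b => b.Coprime (4 * m)), ‖aeval (rt m ^ b) (d.P m)‖ := by
  obtain ⟨a, A, B, h3, h4⟩ := c4 d m 0 hm (fun T _ _ => by simp) h2 F E hF
  rw [hasseDeriv_zero', zero_add, mul_one] at h3 h4
  have h5 := c2 (4 * m) (by omega) _ A B _ h3 (rt m) (c7_prim m hm) (by
    rw [map_mul, map_pow, aeval_X]
    refine mul_ne_zero (pow_ne_zero _ ?_) h4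
    intro h
    have := c7_norm m hm
    rw [h] at this
    simp at this)
  refine h5.trans (le_of_eq (Finset.prod_congr rfl fun b _ => ?_))
  rw [map_mul, map_pow, aeval_X, norm_mul, norm_pow, norm_pow, c7_norm m hm]
  simp

/-- C7 (from C2, C4, C6c, C6d). -/
theorem c7 {J : ℕ → ℂ} (d : NVData J) : ∃ C1 : ℝ, 1 ≤ C1 ∧ ∀ m : ℕ, 1 ≤ m →
    ¬ Van d.P m 1 → ∀ (F : Finset ℕ) (E : ℕ → ℕ), Good d.P m F E →
      ∑ q ∈ F, (E q : ℝ) * vonMangoldt q ≤ C1 * Real.log (m + 1) ^ 4 := by
  obtain ⟨C2, hC2, hc⟩ := c6c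
  obtain ⟨C3, hC3, hd⟩ := c6d
  have hC := d.hC
  refine ⟨d.C * (1 + C3 * C2), ?_, ?_⟩
  · have : 1 ≤ 1 + C3 * C2 := by
      have : 0 ≤ C3 * C2 := by positivity
      linarith
    nlinarith
  intro m hm h2 F E hF
  have hprod := c7_prod d m hm h2 F E hF
  have hpos := c7_pos F E
  rw [← c7_log F E fun q hq => (hF q hq).1]
  set M : ℝ := ((∏ q ∈ F, q.minFac ^ E q : ℕ) : ℝ) with hM
  have h4 : 0 < (4 * m).totient := Nat.totient_pos.2 (by omega)
  rcases (show m = 1 ∨ 2 ≤ m by omega) with h1 | h1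
  · subst h1
    have h5 : ∏ b ∈ (range (4 * 1)).filter (fun b => b.Coprime (4 * 1)),
        ‖aeval (rt 1 ^ b) (d.P 1)‖ = 1 := by
      refine Finset.prod_eq_one fun b _ => ?_
      obtain ⟨k, hk | hk⟩ := d.one
      · rw [hk, map_pow, aeval_X, norm_pow, norm_pow, c7_norm 1 hm]
        simp
      · rw [hk, map_neg, map_pow, aeval_X, norm_neg, norm_pow, norm_pow, c7_norm 1 hm]
        simp
    rw [h5] at hprod
    have h6 : M ≤ 1 := by
      by_contra h7
      push Not at h7
      have := one_lt_pow₀ h7 h4.ne'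
      linarith
    have h7 : Real.log M ≤ 0 := Real.log_nonpos hpos.le h6
    have h8 : 0 ≤ d.C * (1 + C3 * C2) * Real.log ((1 : ℕ) + 1) ^ 4 := by
      have : 0 ≤ Real.log (((1 : ℕ) : ℝ) + 1) := Real.log_nonneg (by norm_num)
      positivity
    linarith
  · obtain ⟨b, hb0, hb, hbs⟩ := hd m h1
    have h5 : ∏ x ∈ (range (4 * m)).filter (fun b => b.Coprime (4 * m)),
        ‖aeval (rt m ^ x) (d.P m)‖ ≤
        Real.exp (d.C * ((4 * m).totient * Real.log m + C3 * m * Real.log m ^ 3)) := by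
      calc _ ≤ ∏ x ∈ (range (4 * m)).filter (fun b => b.Coprime (4 * m)),
            Real.exp (d.C * (Real.log m + b x)) := by
            refine Finset.prod_le_prod (fun _ _ => norm_nonneg _) fun x hx => ?_
            rw [mem_filter] at hx
            exact d.conj m h1 x hx.2 (b x) (hb0 x) (hb x hx.2)
        _ = Real.exp (d.C * ((4 * m).totient * Real.log m +
            ∑ x ∈ (range (4 * m)).filter (fun b => b.Coprime (4 * m)), b x)) := by
            rw [← Real.exp_sum, ← Finset.mul_sum, Finset.sum_add_distrib, Finset.sum_const,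
              nsmul_eq_mul]
            congr 5
            rw [Nat.totient_eq_card_coprime]
            congr 2
            ext x
            exact Nat.coprime_comm
        _ ≤ _ := by
            apply Real.exp_le_exp.2
            have : 0 ≤ d.C := by linarith
            gcongr
    have h6 : (4 * m).totient * Real.log M ≤
        d.C * ((4 * m).totient * Real.log m + C3 * m * Real.log m ^ 3) := by
      rw [← Real.log_pow]
      have h7 := Real.log_le_log (pow_pos hpos _) (hprod.trans h5)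
      rwa [Real.log_exp] at h7
    have h7 := hc m hm
    have htot : (m.totient : ℝ) ≤ (4 * m).totient := by exact_mod_cast c7_tot m hm
    set φ : ℝ := ((4 * m).totient : ℝ) with hφ
    have hφ0 : 0 < φ := by
      rw [hφ]
      exact_mod_cast h4
    set l : ℝ := Real.log m with hl
    set L : ℝ := Real.log (m + 1) with hL
    have hm2 : (2 : ℝ) ≤ m := by exact_mod_cast h1
    have hl0 : 0 ≤ l := Real.log_nonneg (by linarith)
    have hlL : l ≤ L := Real.log_le_log (by linarith) (by linarith)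
    have hL1 : 1 ≤ L := by
      rw [hL, Real.le_log_iff_exp_le (by linarith)]
      have := Real.exp_one_lt_d9
      linarith
    have h8 : (m : ℝ) ≤ C2 * φ * L := h7.trans (by gcongr)
    have h9 : φ * Real.log M ≤ φ * (d.C * (1 + C3 * C2) * L ^ 4) := by
      refine h6.trans ?_
      have h10 : φ * l ≤ φ * L ^ 4 := by
        have : L ≤ L ^ 4 := le_self_pow₀ hL1 (by norm_num)
        gcongr
        linarith
      have h11 : C3 * m * l ^ 3 ≤ C3 * (C2 * φ * L) * L ^ 3 := by
        gcongr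
      have h12 : φ * l + C3 * m * l ^ 3 ≤ φ * L ^ 4 + C3 * (C2 * φ * L) * L ^ 3 := by linarith
      calc d.C * (φ * l + C3 * m * l ^ 3) ≤
            d.C * (φ * L ^ 4 + C3 * (C2 * φ * L) * L ^ 3) := by
            have : 0 ≤ d.C := by linarith
            gcongr
        _ = φ * (d.C * (1 + C3 * C2) * L ^ 4) := by ring
    exact le_of_mul_le_mul_left h9 hφ0

end Pool.Agent.NV

end

section

/-!
# NV block C8: the order of vanishing (helper83)
-/

set_option autoImplicit false

namespace Pool.Agent.NV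

open Pool.Agent.Lib_helper77.VC Polynomial Finset ArithmeticFunction

/-- the polynomial `P 1 = ± X^k` does not vanish at `i` -/
theorem c8_one {J : ℕ → ℂ} (d : NVData J) : ¬ Van d.P 1 (0 + 1) := by
  intro h
  have h1 := h 1 le_rfl le_rfl
  rw [zero_add, pow_one, mul_one] at h1
  have hroot : aeval (Complex.I) (cyclotomic 4 ℤ) = 0 := by
    have h4 : IsPrimitiveRoot Complex.I 4 := by
      refine IsPrimitiveRoot.mk_of_lt _ (by norm_num) (by exact Complex.I_pow_four) ?_
      intro l hl hl4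
      interval_cases l
      · intro h0
        have := congrArg Complex.im h0
        simp at this
      · rw [Complex.I_sq]
        norm_num
      · rw [pow_succ, Complex.I_sq]
        intro h0
        have := congrArg Complex.im h0
        simp at this
    have h5 := h4.isRoot_cyclotomic (by norm_num)
    rw [IsRoot.def, ← map_cyclotomic 4 (Int.castRingHom ℂ), eval_map] at h5
    rw [aeval_def]
    exact h5
  obtain ⟨A, hA⟩ := h1
  have h2 : aeval Complex.I (d.P 1) = 0 := by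
    rw [hA, map_mul, hroot, zero_mul]
  obtain ⟨k, hk | hk⟩ := d.one
  · rw [hk, map_pow, aeval_X] at h2
    exact pow_ne_zero k Complex.I_ne_zero h2
  · rw [hk, map_neg, map_pow, aeval_X, neg_eq_zero] at h2
    exact pow_ne_zero k Complex.I_ne_zero h2

/-- the real variable inequality -/
theorem c8_real (c a b s L : ℝ) (hc : 0 ≤ c) (ha : 2 / 3 ≤ a) (hb : a + 1 / 3 ≤ b)
    (hs : s = 5 + 2 * c) (hL0 : 0 ≤ L) (hL : L ≤ s ^ 2 * a ^ 2) :
    c + a + L + Real.log (1 + L) ≤ s ^ 2 * b ^ 2 := by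
  have hs0 : 0 < s := by rw [hs]; linarith
  have ha0 : 0 < a := by linarith
  have h1 : Real.log (1 + L) ≤ 2 * (s * a) := by
    have h2 : 1 + L ≤ (1 + s * a) ^ 2 := by nlinarith [mul_pos hs0 ha0]
    have h3 : Real.log (1 + L) ≤ Real.log ((1 + s * a) ^ 2) :=
      Real.log_le_log (by linarith) h2
    rw [Real.log_pow] at h3
    have h4 : Real.log (1 + s * a) ≤ s * a := by
      have := Real.log_le_sub_one_of_pos (show 0 < 1 + s * a by positivity)
      linarith
    push_cast at h3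
    linarith
  have h2 : a ^ 2 + 2 / 3 * a ≤ b ^ 2 := by nlinarith
  have h3 : s ^ 2 * (a ^ 2 + 2 / 3 * a) ≤ s ^ 2 * b ^ 2 :=
    mul_le_mul_of_nonneg_left h2 (by positivity)
  have h4 : c ≤ 3 / 2 * c * a := by nlinarith
  have h5 : 3 / 2 * c * a + a + 2 * (s * a) ≤ s ^ 2 * (2 / 3 * a) := by
    have h6 : 3 / 2 * c + 1 + 2 * s ≤ 2 / 3 * s ^ 2 := by
      rw [hs]
      nlinarith
    nlinarith
  nlinarith

/-- C8 (from C5b). The order of vanishing. -/
theorem c8 {J : ℕ → ℂ} (d : NVData J) : ∃ C2 : ℝ, 1 ≤ C2 ∧ ∀ m : ℕ, 1 ≤ m →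
    ∃ e : ℕ, Van d.P m e ∧ ¬ Van d.P m (e + 1) ∧
      Real.log (e + 1) ≤ C2 * Real.log (m + 1) ^ 2 := by
  obtain ⟨C1, hC1, h5⟩ := c5b d
  have hlog3 : 0 ≤ Real.log (3 * C1) := Real.log_nonneg (by linarith)
  set c : ℝ := Real.log (3 * C1) with hc
  refine ⟨(5 + 2 * c) ^ 2, by nlinarith, ?_⟩
  intro m
  induction m using Nat.strong_induction_on with
  | _ m ih =>
    intro hm
    have hV0 : ∀ n, Van d.P n 0 := by
      intro n T _ _
      rw [pow_zero]
      exact one_dvd _
    rcases eq_or_lt_of_le hm with hm1 | hm2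
    · subst hm1
      refine ⟨0, hV0 1, c8_one d, ?_⟩
      rw [Nat.cast_zero, zero_add, Real.log_one]
      positivity
    · -- `m = m' p^k`
      obtain ⟨p, hp, hpm⟩ := Nat.exists_prime_and_dvd (show m ≠ 1 by omega)
      obtain ⟨k, m', hm', hmk⟩ := Nat.exists_eq_pow_mul_and_not_dvd (show m ≠ 0 by omega) p
        hp.ne_one
      have hk : k ≠ 0 := by
        rintro rfl
        rw [pow_zero, one_mul] at hmk
        exact hm' (hmk ▸ hpm)
      have hm'0 : 1 ≤ m' := by
        rcases Nat.eq_zero_or_pos m' with h | h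
        · exact absurd (h ▸ dvd_zero p) hm'
        · exact h
      have hpk : 2 ≤ p ^ k := by
        calc 2 ≤ p := hp.two_le
          _ = p ^ 1 := (pow_one p).symm
          _ ≤ p ^ k := Nat.pow_le_pow_right hp.pos (by omega)
      have hm2' : 2 * m' ≤ m := by
        rw [hmk]
        exact Nat.mul_le_mul_right m' hpk
      obtain ⟨e', hv1, hv2, hL⟩ := ih m' (by omega) hm'0
      have hlogp : 1 / 2 ≤ Real.log p := by
        have h1 : Real.log 2 ≤ Real.log p := Real.log_le_log (by norm_num)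
          (by exact_mod_cast hp.two_le)
        have h2 := Real.log_two_gt_d9
        linarith
      have hbd : ∀ e, Van d.P m e → (e : ℝ) ≤ 2 * (C1 * m' * (e' + 1) * (1 + Real.log (e' + 1))) := by
        intro e he
        have hg : Good d.P m' {p ^ k} (fun _ => e) := by
          intro q hq
          rw [mem_singleton] at hq
          subst hq
          refine ⟨hp.isPrimePow.pow hk, ?_, ?_⟩
          · exact Nat.Coprime.pow_left k ((Nat.Prime.coprime_iff_not_dvd hp).2 hm')
          · rw [mul_comm, ← hmk]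
            exact he
        have h6 := h5 m' e' hm'0 hv1 hv2 {p ^ k} (fun _ => e) hg
        rw [sum_singleton, vonMangoldt_apply_pow hk, vonMangoldt_apply_prime hp] at h6
        have h7 : (e : ℝ) * (1 / 2) ≤ e * Real.log p :=
          mul_le_mul_of_nonneg_left hlogp (Nat.cast_nonneg e)
        linarith
      have hex : ∃ e, ¬ Van d.P m e := by
        by_contra hcon
        push Not at hcon
        obtain ⟨n, hn⟩ := exists_nat_gt (2 * (C1 * m' * (e' + 1) * (1 + Real.log (e' + 1))))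
        exact absurd (hbd n (hcon n)) (not_le.2 hn)
      classical
      have hfind := Nat.find_spec hex
      have hne : Nat.find hex ≠ 0 := by
        intro h0
        rw [h0] at hfind
        exact hfind (hV0 m)
      obtain ⟨e, he⟩ := Nat.exists_eq_succ_of_ne_zero hne
      have hVe : Van d.P m e := by
        by_contra hcon
        have := Nat.find_min' hex hcon
        omega
      refine ⟨e, hVe, by rw [he] at hfind; exact hfind, ?_⟩
      -- the bound
      have hm'R : (1 : ℝ) ≤ m' := by exact_mod_cast hm'0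
      have he'R : (1 : ℝ) ≤ (e' : ℝ) + 1 := by
        have : (0 : ℝ) ≤ e' := Nat.cast_nonneg e'
        linarith
      have hL0 : 0 ≤ Real.log ((e' : ℝ) + 1) := Real.log_nonneg he'R
      set L : ℝ := Real.log ((e' : ℝ) + 1) with hLdef
      have hprod : 1 ≤ C1 * m' * (e' + 1) * (1 + L) := by
        have h1 : 1 ≤ C1 * (m' : ℝ) := by nlinarith
        have h2 : 1 ≤ C1 * (m' : ℝ) * (e' + 1) := by nlinarith
        nlinarith
      have h8 : (e : ℝ) + 1 ≤ 3 * C1 * m' * (e' + 1) * (1 + L) := by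
        have := hbd e hVe
        linarith
      have h9 : Real.log ((e : ℝ) + 1) ≤ c + Real.log m' + L + Real.log (1 + L) := by
        have h10 : Real.log ((e : ℝ) + 1) ≤ Real.log (3 * C1 * m' * (e' + 1) * (1 + L)) :=
          Real.log_le_log (by positivity) h8
        rw [Real.log_mul (by positivity) (by positivity),
          Real.log_mul (by positivity) (by positivity),
          Real.log_mul (by positivity) (by positivity)] at h10
        exact h10
      have h11 : Real.log m' ≤ Real.log ((m' : ℝ) + 1) :=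
        Real.log_le_log (by linarith) (by linarith)
      have ha : 2 / 3 ≤ Real.log ((m' : ℝ) + 1) := by
        have h1 : Real.log 2 ≤ Real.log ((m' : ℝ) + 1) :=
          Real.log_le_log (by norm_num) (by linarith)
        have h2 := Real.log_two_gt_d9
        linarith
      have hb : Real.log ((m' : ℝ) + 1) + 1 / 3 ≤ Real.log ((m : ℝ) + 1) := by
        have h1 : (2 : ℝ) * m' ≤ m := by exact_mod_cast hm2'
        have h2 : ((m' : ℝ) + 1) * (3 / 2) ≤ m + 1 := by linarith
        have h3 := Real.log_le_log (by positivity) h2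
        rw [Real.log_mul (by positivity) (by positivity)] at h3
        have h4 := Real.one_sub_inv_le_log_of_pos (show (0 : ℝ) < 3 / 2 by norm_num)
        norm_num at h4
        linarith
      have hfin := c8_real c (Real.log ((m' : ℝ) + 1)) (Real.log ((m : ℝ) + 1)) (5 + 2 * c) L hlog3
        ha hb rfl hL0 hL
      linarith

end Pool.Agent.NV

end

section

/-!
# NV block C9: the lower bound (helper83)
-/

set_option autoImplicit false

namespace Pool.Agent.NV

open Pool.Agent.Lib_helper77.VC Polynomial Finset ArithmeticFunction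

/-- `rt N` is a primitive `4N`-th root of unity -/
theorem c9_prim (N : ℕ) (hN : 1 ≤ N) : IsPrimitiveRoot (rt N) (4 * N) := by
  have h := Complex.isPrimitiveRoot_exp (4 * N) (by omega)
  have h2 : rt N = Complex.exp (2 * Real.pi * Complex.I / ((4 * N : ℕ) : ℂ)) := by
    have hN' : (N : ℂ) ≠ 0 := by exact_mod_cast (by omega : N ≠ 0)
    unfold rt
    congr 1
    push_cast
    field_simp
    norm_num
  rw [h2]
  exact h

/-- C9 (from C2, C6c, C6d). The lower bound. -/
theorem c9 {J : ℕ → ℂ} (d : NVData J) : ∃ C3 : ℝ, 1 ≤ C3 ∧ ∀ N : ℕ, 2 ≤ N → J N ≠ 0 →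
    |Real.log ‖J N‖| ≤ C3 * N * Real.log N ^ 3 := by
  obtain ⟨C, hC, h6⟩ := c6d
  have hdC := d.hC
  refine ⟨d.C * (12 + C), by nlinarith, ?_⟩
  intro N hN hJ
  obtain ⟨M, hM0, hM1, hM2⟩ := h6 N hN
  have hval := d.val N (by omega)
  have hne : aeval (rt N) (d.P N) ≠ 0 := by
    rw [← norm_ne_zero_iff, ← hval]
    exact norm_ne_zero_iff.2 hJ
  have hprod := c2 (4 * N) (by omega) (d.P N) 0 (d.P N) 1 (by simp) (rt N) (c9_prim N (by omega))
    hne
  set S := (range (4 * N)).filter (fun b => b.Coprime (4 * N)) with hS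
  have h1S : 1 ∈ S := by
    rw [hS, mem_filter, mem_range]
    exact ⟨by omega, Nat.coprime_one_left _⟩
  have hNR : (2 : ℝ) ≤ N := by exact_mod_cast hN
  have hlog : 2 / 3 ≤ Real.log N := by
    have h1 : Real.log 2 ≤ Real.log N := Real.log_le_log (by norm_num) hNR
    have h2 := Real.log_two_gt_d9
    linarith
  have hlog3 : Real.log N ≤ 3 * Real.log N ^ 3 := by
    have : 1 / 3 ≤ Real.log N ^ 2 := by nlinarith
    nlinarith
  have hJpos : 0 < ‖J N‖ := norm_pos_iff.2 hJ
  rw [← mul_prod_erase S _ h1S, pow_one, ← hval, Nat.cast_one, one_pow] at hprod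
  have hb : ∀ b ∈ S, ‖aeval (rt N ^ b) (d.P N)‖ ≤ Real.exp (d.C * (Real.log N + M b)) := by
    intro b hbS
    rw [hS, mem_filter] at hbS
    exact d.conj N hN b hbS.2 (M b) (hM0 b) (hM1 b hbS.2)
  have hsum0 : ∑ b ∈ S.erase 1, M b ≤ ∑ b ∈ S, M b :=
    sum_le_sum_of_subset_of_nonneg (erase_subset _ _) (fun b _ _ => hM0 b)
  have hcard : ((S.erase 1).card : ℝ) ≤ 4 * N := by
    have : (S.erase 1).card ≤ 4 * N := by
      calc (S.erase 1).card ≤ S.card := card_le_card (erase_subset _ _)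
        _ ≤ (range (4 * N)).card := card_filter_le _ _
        _ = 4 * N := card_range _
    exact_mod_cast this
  have hprod2 : ∏ b ∈ S.erase 1, ‖aeval (rt N ^ b) (d.P N)‖ ≤
      Real.exp (∑ b ∈ S.erase 1, d.C * (Real.log N + M b)) := by
    rw [Real.exp_sum]
    exact prod_le_prod (fun b _ => norm_nonneg _) (fun b hb' => hb b (mem_of_mem_erase hb'))
  have hsum : ∑ b ∈ S.erase 1, d.C * (Real.log N + M b) ≤ d.C * (12 + C) * N * Real.log N ^ 3 := by
    rw [← mul_sum, sum_add_distrib, sum_const, nsmul_eq_mul]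
    have h1 : ((S.erase 1).card : ℝ) * Real.log N ≤ 4 * N * Real.log N :=
      mul_le_mul_of_nonneg_right hcard (by linarith)
    have h2 : 4 * (N : ℝ) * Real.log N ≤ 4 * N * (3 * Real.log N ^ 3) :=
      mul_le_mul_of_nonneg_left hlog3 (by positivity)
    have h3 : ((S.erase 1).card : ℝ) * Real.log N + ∑ b ∈ S.erase 1, M b ≤
        (12 + C) * N * Real.log N ^ 3 := by linarith
    calc d.C * (((S.erase 1).card : ℝ) * Real.log N + ∑ b ∈ S.erase 1, M b) ≤
        d.C * ((12 + C) * N * Real.log N ^ 3) := mul_le_mul_of_nonneg_left h3 (by linarith)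
      _ = d.C * (12 + C) * N * Real.log N ^ 3 := by ring
  rw [abs_le]
  constructor
  · -- lower bound
    have h1 : 1 ≤ ‖J N‖ * Real.exp (∑ b ∈ S.erase 1, d.C * (Real.log N + M b)) :=
      hprod.trans (mul_le_mul_of_nonneg_left hprod2 hJpos.le)
    have h2 := Real.log_le_log one_pos h1
    rw [Real.log_one, Real.log_mul hJpos.ne' (Real.exp_pos _).ne', Real.log_exp] at h2
    linarith
  · -- upper bound
    have h1 := hb 1 h1S
    rw [pow_one, ← hval] at h1
    have h2 := Real.log_le_log hJpos h1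
    rw [Real.log_exp] at h2
    have h3 : M 1 ≤ ∑ b ∈ S, M b := single_le_sum (fun b _ => hM0 b) h1S
    have h4 : Real.log N + M 1 ≤ (12 + C) * N * Real.log N ^ 3 := by
      have h5 : Real.log N ≤ 12 * N * Real.log N ^ 3 := by
        have : 0 ≤ Real.log N ^ 3 := by positivity
        nlinarith
      linarith
    calc Real.log ‖J N‖ ≤ d.C * (Real.log N + M 1) := h2
      _ ≤ d.C * ((12 + C) * N * Real.log N ^ 3) := mul_le_mul_of_nonneg_left h4 (by linarith)
      _ = d.C * (12 + C) * N * Real.log N ^ 3 := by ring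

end Pool.Agent.NV

end

section

set_option autoImplicit false

namespace Pool.Agent.NV

open Pool.Agent.Lib_helper77.VC Polynomial Finset ArithmeticFunction

theorem c10_good {J : ℕ → ℂ} (d : NVData J) (m : ℕ) (hm : 1 ≤ m) (F : Finset ℕ)
    (hF : ∀ q ∈ F, IsPrimePow q ∧ q.Coprime m ∧ J (m * q) = 0) : Good d.P m F (fun _ => 1) := by
  intro q hq
  obtain ⟨h1, h2, h3⟩ := hF q hq
  refine ⟨h1, h2, (c3b d (m * q) ?_).1 h3⟩
  exact Nat.mul_pos hm h1.pos

/-- C10. assembly of the arithmetic part -/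
theorem arith {J : ℕ → ℂ} (d : NVData J) : ∃ C : ℝ, 1 ≤ C ∧
    (∀ m : ℕ, 1 ≤ m → J m ≠ 0 → ∀ F : Finset ℕ,
      (∀ q ∈ F, IsPrimePow q ∧ q.Coprime m ∧ J (m * q) = 0) →
        ∑ q ∈ F, vonMangoldt q ≤ C * Real.log (m + 1) ^ 4) ∧
    (∀ m : ℕ, 1 ≤ m → ∀ F : Finset ℕ,
      (∀ q ∈ F, IsPrimePow q ∧ q.Coprime m ∧ J (m * q) = 0) →
        ∑ q ∈ F, vonMangoldt q ≤ Real.exp (C * Real.log (m + 1) ^ 2)) ∧
    (∀ N : ℕ, 2 ≤ N → J N ≠ 0 → |Real.log ‖J N‖| ≤ C * N * Real.log N ^ 3) := by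
  obtain ⟨A, hA1, hA⟩ := c7 d
  obtain ⟨B, hB1, hB⟩ := c5b d
  obtain ⟨D, hD1, hD⟩ := c8 d
  obtain ⟨E, hE1, hE⟩ := c9 d
  have hl2 : 0 < Real.log 2 := Real.log_pos (by norm_num)
  obtain ⟨G, hG⟩ : ∃ G : ℝ, G = Real.log B / Real.log 2 ^ 2 + 1 / Real.log 2 + 2 * D := ⟨_, rfl⟩
  have hlogm : ∀ m : ℕ, 1 ≤ m → Real.log 2 ≤ Real.log ((m : ℝ) + 1) := by
    intro m hm
    have hm' : (1 : ℝ) ≤ m := by exact_mod_cast hm
    exact Real.log_le_log (by norm_num) (by linarith)
  refine ⟨max A (max G E), le_max_of_le_left hA1, ?_, ?_, ?_⟩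
  · intro m hm hJ F hF
    have h1 := hA m hm (fun h => hJ ((c3b d m hm).2 h)) F (fun _ => 1) (c10_good d m hm F hF)
    have h2 : ∑ q ∈ F, vonMangoldt q = ∑ q ∈ F, (((fun _ => 1 : ℕ → ℕ) q : ℕ) : ℝ) *
        vonMangoldt q := by
      refine Finset.sum_congr rfl fun q _ => ?_
      simp
    rw [h2]
    refine h1.trans ?_
    have h3 : 0 ≤ Real.log ((m : ℝ) + 1) := hl2.le.trans (hlogm m hm)
    have h4 : A ≤ max A (max G E) := le_max_left _ _
    gcongr
  · intro m hm F hF
    obtain ⟨e, he1, he2, he3⟩ := hD m hm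
    have h1 := hB m e hm he1 he2 F (fun _ => 1) (c10_good d m hm F hF)
    have h2 : ∑ q ∈ F, vonMangoldt q = ∑ q ∈ F, (((fun _ => 1 : ℕ → ℕ) q : ℕ) : ℝ) *
        vonMangoldt q := by
      refine Finset.sum_congr rfl fun q _ => ?_
      simp
    rw [h2]
    refine h1.trans ?_
    have hm' : (1 : ℝ) ≤ m := by exact_mod_cast hm
    have he0 : (0 : ℝ) ≤ e := Nat.cast_nonneg e
    have hB0 : (0 : ℝ) < B := by linarith
    have h3 : 1 + Real.log ((e : ℝ) + 1) ≤ (e : ℝ) + 1 := by
      have := Real.log_le_sub_one_of_pos (show (0 : ℝ) < (e : ℝ) + 1 by linarith)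
      linarith
    have h4 : B * m * ((e : ℝ) + 1) * (1 + Real.log ((e : ℝ) + 1)) ≤
        B * m * ((e : ℝ) + 1) * ((e : ℝ) + 1) := by
      have : 0 ≤ B * m * ((e : ℝ) + 1) := by positivity
      exact mul_le_mul_of_nonneg_left h3 this
    refine h4.trans ?_
    have h5 : B * m * ((e : ℝ) + 1) * ((e : ℝ) + 1) =
        Real.exp (Real.log B + Real.log m + 2 * Real.log ((e : ℝ) + 1)) := by
      have e1 : Real.log B + Real.log m + 2 * Real.log ((e : ℝ) + 1) =
          Real.log B + Real.log m + Real.log ((e : ℝ) + 1) + Real.log ((e : ℝ) + 1) := by ring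
      rw [e1, Real.exp_add, Real.exp_add, Real.exp_add, Real.exp_log hB0,
        Real.exp_log (by linarith : (0 : ℝ) < m), Real.exp_log (by linarith)]
    rw [h5]
    apply Real.exp_le_exp.2
    obtain ⟨l, hl⟩ : ∃ l : ℝ, l = Real.log ((m : ℝ) + 1) := ⟨_, rfl⟩
    have hl1 : Real.log 2 ≤ l := by
      rw [hl]
      exact hlogm m hm
    have hl0 : 0 < l := lt_of_lt_of_le hl2 hl1
    have h6 : Real.log m ≤ l := by
      rw [hl]
      exact Real.log_le_log (by linarith) (by linarith)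
    have h7 : Real.log m ≤ 1 / Real.log 2 * l ^ 2 := by
      refine h6.trans ?_
      rw [div_mul_eq_mul_div, one_mul, le_div_iff₀ hl2]
      nlinarith
    have hlB : 0 ≤ Real.log B := Real.log_nonneg hB1
    have h8 : Real.log B ≤ Real.log B / Real.log 2 ^ 2 * l ^ 2 := by
      rw [div_mul_eq_mul_div, le_div_iff₀ (by positivity)]
      have : Real.log 2 ^ 2 ≤ l ^ 2 := by gcongr
      exact mul_le_mul_of_nonneg_left this hlB
    have h9 : 2 * Real.log ((e : ℝ) + 1) ≤ 2 * D * l ^ 2 := by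
      rw [hl]
      linarith
    have h10 : Real.log B + Real.log m + 2 * Real.log ((e : ℝ) + 1) ≤ G * l ^ 2 := by
      rw [hG]
      linarith
    refine h10.trans ?_
    rw [← hl]
    have h11 : G ≤ max A (max G E) := le_max_of_le_right (le_max_left _ _)
    exact mul_le_mul_of_nonneg_right h11 (by positivity)
  · intro N hN hJ
    refine (hE N hN hJ).trans ?_
    have h1 : E ≤ max A (max G E) := le_max_of_le_right (le_max_right _ _)
    have h2 : 0 ≤ Real.log (N : ℝ) := Real.log_nonneg (by exact_mod_cast (by omega : 1 ≤ N))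
    gcongr

end Pool.Agent.NV

end
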