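import Pool.Agent.Lib_helper43.NV.Defs

set_option autoImplicit false

section

set_option autoImplicit false

namespace Pool.Agent.NV

open Pool.Agent.Lib_helper77.VC Polynomial Finset ArithmeticFunction

/-! ## Counting -/


/-- the multiplicative function `m ^ (-s)` -/
noncomputable def k1_f (s : ℝ) : ℕ →* ℝ where
  toFun m := (m : ℝ) ^ (-s)
  map_one' := by simp
  map_mul' a b := by
    push_cast
    exact Real.mul_rpow (Nat.cast_nonneg a) (Nat.cast_nonneg b)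

lemma k1_f_apply (s : ℝ) (m : ℕ) : k1_f s m = (m : ℝ) ^ (-s) := rfl

lemma k1_f_nonneg (s : ℝ) (m : ℕ) : 0 ≤ k1_f s m := by
  rw [k1_f_apply]; positivity

lemma k1_log {y : ℝ} (hy : 16 ≤ y) : 4 * Real.log 2 ≤ Real.log y ∧ 1 ≤ Real.log y := by
  have h16 : Real.log 16 = 4 * Real.log 2 := by
    rw [show (16 : ℝ) = 2 ^ (4 : ℕ) by norm_num, Real.log_pow]; norm_num
  have h1 : Real.log 16 ≤ Real.log y := Real.log_le_log (by norm_num) hy
  have h2 := Real.log_two_gt_d9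
  constructor <;> linarith

/-- `p ^ (-s) ≤ 2 / 3` -/
lemma k1_two_thirds {y : ℝ} (hy : 16 ≤ y) {p : ℕ} (hp : p.Prime) :
    k1_f (1 - 1 / Real.log y) p ≤ 2 / 3 := by
  obtain ⟨h4, h1⟩ := k1_log hy
  have hl2 : 0 < Real.log 2 := Real.log_pos (by norm_num)
  have hly : 0 < Real.log y := by linarith
  have hs : 0 ≤ 1 - 1 / Real.log y := by
    have : 1 / Real.log y ≤ 1 := by rw [div_le_one hly]; exact h1
    linarith
  rw [k1_f_apply]
  have hp2 : (2 : ℝ) ≤ p := by exact_mod_cast hp.two_le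
  calc (p : ℝ) ^ (-(1 - 1 / Real.log y)) ≤ (2 : ℝ) ^ (-(1 - 1 / Real.log y)) :=
        Real.rpow_le_rpow_of_nonpos (by norm_num) hp2 (by linarith)
    _ = Real.exp (Real.log 2 * (-(1 - 1 / Real.log y))) := Real.rpow_def_of_pos (by norm_num) _
    _ ≤ Real.exp (-Real.log 2 + 1 / 4) := by
      apply Real.exp_le_exp.mpr
      have : Real.log 2 * (1 / Real.log y) ≤ 1 / 4 := by
        rw [mul_one_div, div_le_div_iff₀ hly (by norm_num)]
        linarith
      nlinarith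
    _ = 1 / 2 * Real.exp (1 / 4) := by
      rw [Real.exp_add, Real.exp_neg, Real.exp_log (by norm_num)]; norm_num
    _ ≤ 1 / 2 * (4 / 3) := by
      gcongr
      have h : Real.exp (1 / 4) ^ 4 ≤ (4 / 3 : ℝ) ^ 4 := by
        rw [← Real.exp_nat_mul]
        norm_num
        exact (Real.exp_one_lt_d9.le).trans (by norm_num)
      exact le_of_pow_le_pow_left₀ (by norm_num) (by norm_num) h
    _ = 2 / 3 := by norm_num

/-- `p ^ (-s) ≤ e / p` for `p ≤ y` -/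
lemma k1_e {y : ℝ} (hy : 16 ≤ y) {p : ℕ} (hp : 1 ≤ p) (hpy : (p : ℝ) ≤ y) :
    k1_f (1 - 1 / Real.log y) p ≤ 3 * (p : ℝ)⁻¹ := by
  obtain ⟨h4, h1⟩ := k1_log hy
  have hly : 0 < Real.log y := by linarith
  have hp0 : (0 : ℝ) < p := by exact_mod_cast hp
  rw [k1_f_apply, show -(1 - 1 / Real.log y) = 1 / Real.log y + (-1) by ring,
    Real.rpow_add hp0, Real.rpow_neg_one]
  gcongr
  rw [Real.rpow_def_of_pos hp0]
  calc Real.exp (Real.log p * (1 / Real.log y)) ≤ Real.exp 1 := by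
        apply Real.exp_le_exp.mpr
        rw [mul_one_div, div_le_one hly]
        exact Real.log_le_log hp0 hpy
    _ ≤ 3 := (Real.exp_one_lt_d9.le).trans (by norm_num)

/-- K1. Rankin -/
theorem k1 : ∃ C : ℝ, 1 ≤ C ∧ ∀ y : ℝ, 16 ≤ y → ∀ X : ℕ,
    ∑ m ∈ Sm X y, (m : ℝ) ^ (-(1 - 1 / Real.log y)) ≤ Real.exp (C * Real.log y) := by
  classical
  refine ⟨18, by norm_num, ?_⟩
  intro y hy X
  obtain ⟨h4, h1⟩ := k1_log hy
  obtain ⟨s, hs⟩ : ∃ s, s = 1 - 1 / Real.log y := ⟨_, rfl⟩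
  set N : ℕ := ⌊y⌋₊ + 1 with hN
  have hlt : ∀ {p : ℕ}, p.Prime → ‖k1_f s p‖ < 1 := by
    intro p hp
    rw [Real.norm_of_nonneg (k1_f_nonneg _ _), hs]
    exact (k1_two_thirds hy hp).trans_lt (by norm_num)
  have hsum := (EulerProduct.summable_and_hasSum_smoothNumbers_prod_primesBelow_geometric
    (f := k1_f s) hlt N).2
  have hsum' : HasSum ((N.smoothNumbers).indicator (fun m => k1_f s m))
      (∏ p ∈ N.primesBelow, (1 - k1_f s p)⁻¹) := hasSum_subtype_iff_indicator.mp hsum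
  have hle : ∑ m ∈ Sm X y, (N.smoothNumbers).indicator (fun m => k1_f s m) m ≤
      ∏ p ∈ N.primesBelow, (1 - k1_f s p)⁻¹ := by
    apply sum_le_hasSum _ _ hsum'
    intro m _
    exact Set.indicator_nonneg (fun m _ => k1_f_nonneg s m) m
  have heq : ∑ m ∈ Sm X y, (m : ℝ) ^ (-(1 - 1 / Real.log y)) =
      ∑ m ∈ Sm X y, (N.smoothNumbers).indicator (fun m => k1_f s m) m := by
    apply sum_congr rfl
    intro m hm
    rw [Sm, mem_filter, mem_Icc] at hm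
    rw [Set.indicator_of_mem, k1_f_apply, hs]
    rw [Nat.mem_smoothNumbers']
    intro p hp hpm
    have := hm.2 p hp hpm
    have h' : p ≤ ⌊y⌋₊ := Nat.le_floor this
    omega
  rw [heq]
  refine hle.trans ?_
  have hprod : ∏ p ∈ N.primesBelow, (1 - k1_f s p)⁻¹ ≤
      ∏ p ∈ N.primesBelow, Real.exp (9 * (p : ℝ)⁻¹) := by
    apply prod_le_prod
    · intro p hp
      have := (Nat.mem_primesBelow.mp hp).2
      have h2 := k1_two_thirds hy this
      rw [← hs] at h2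
      exact inv_nonneg.mpr (by linarith)
    · intro p hp
      obtain ⟨hpN, hpp⟩ := Nat.mem_primesBelow.mp hp
      have h2 := k1_two_thirds hy hpp
      have hpy : (p : ℝ) ≤ y := by
        have : p ≤ ⌊y⌋₊ := by omega
        exact (Nat.cast_le.mpr this).trans (Nat.floor_le (by linarith))
      have h3 := k1_e hy hpp.one_le hpy
      rw [← hs] at h2 h3
      have h0 := k1_f_nonneg s p
      obtain ⟨t, ht⟩ : ∃ t, t = k1_f s p := ⟨_, rfl⟩
      rw [← ht] at h0 h2 h3 ⊢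
      have h5 : 0 < 1 - t := by linarith
      have h6 : (1 - t)⁻¹ = t / (1 - t) + 1 := by
        field_simp
        ring
      have h7 : t / (1 - t) ≤ 3 * t := by
        rw [div_le_iff₀ h5]
        nlinarith
      calc (1 - t)⁻¹ = t / (1 - t) + 1 := h6
        _ ≤ 3 * t + 1 := by linarith
        _ ≤ Real.exp (3 * t) := Real.add_one_le_exp _
        _ ≤ Real.exp (9 * (p : ℝ)⁻¹) := by
          apply Real.exp_le_exp.mpr
          linarith
  refine hprod.trans ?_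
  rw [← Real.exp_sum]
  apply Real.exp_le_exp.mpr
  rw [← mul_sum]
  have hsub : ∑ p ∈ N.primesBelow, (p : ℝ)⁻¹ ≤ ∑ i ∈ range ⌊y⌋₊, ((i + 1 : ℕ) : ℝ)⁻¹ := by
    have e : ∑ i ∈ range ⌊y⌋₊, ((i + 1 : ℕ) : ℝ)⁻¹ = ∑ p ∈ Ico 1 N, (p : ℝ)⁻¹ := by
      rw [sum_Ico_eq_sum_range]
      apply sum_congr
      · rw [hN]; rfl
      · intro i _
        rw [add_comm]
    rw [e]
    apply sum_le_sum_of_subset_of_nonneg
    · intro p hp
      obtain ⟨hpN, hpp⟩ := Nat.mem_primesBelow.mp hp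
      exact mem_Ico.mpr ⟨hpp.one_le, hpN⟩
    · intro p _ _
      positivity
  have hharm : ∑ i ∈ range ⌊y⌋₊, ((i + 1 : ℕ) : ℝ)⁻¹ ≤ 1 + Real.log y := by
    have h := harmonic_floor_le_one_add_log y (by linarith)
    refine le_trans (le_of_eq ?_) h
    rw [harmonic]
    push_cast
    rfl
  nlinarith

end Pool.Agent.NV

end

section

set_option autoImplicit false

namespace Pool.Agent.NV

open Pool.Agent.Lib_helper77.VC Polynomial Finset ArithmeticFunction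

theorem k2_mem (X : ℕ) (y : ℝ) (m : ℕ) (h : m ∈ Sm X y) : 1 ≤ m ∧ m ≤ X := by
  classical
  unfold Sm at h
  have h1 := (Finset.mem_filter.1 h).1
  exact Finset.mem_Icc.1 h1

theorem k2_log (y : ℝ) (hy : 16 ≤ y) : 1 < Real.log y := by
  rw [Real.lt_log_iff_exp_lt (by linarith)]
  have := Real.exp_one_lt_d9
  linarith

/-- K2 (from K1) -/
theorem k2 : ∃ C : ℝ, 1 ≤ C ∧ ∀ y : ℝ, 16 ≤ y → ∀ X : ℕ, 1 ≤ X →
    ((Sm X y).card : ℝ) ≤ X * Real.exp (-(Real.log X / Real.log y) + C * Real.log y) := by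
  obtain ⟨C, hC, h⟩ := k1
  refine ⟨C, hC, fun y hy X hX => ?_⟩
  have hly := k2_log y hy
  have hX0 : (0 : ℝ) < X := by exact_mod_cast hX
  obtain ⟨s, hs⟩ : ∃ s : ℝ, s = 1 - 1 / Real.log y := ⟨_, rfl⟩
  have hs0 : 0 ≤ s := by
    rw [hs, sub_nonneg, div_le_one (by linarith)]
    exact hly.le
  have h1 : ∀ m ∈ Sm X y, (1 : ℝ) ≤ (X : ℝ) ^ s * (m : ℝ) ^ (-s) := by
    intro m hm
    obtain ⟨h2, h3⟩ := k2_mem X y m hm
    have hm0 : (0 : ℝ) < m := by exact_mod_cast h2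
    have h4 : (m : ℝ) ≤ X := by exact_mod_cast h3
    have h5 : (m : ℝ) ^ s ≤ (X : ℝ) ^ s := Real.rpow_le_rpow hm0.le h4 hs0
    have h6 : (m : ℝ) ^ s * (m : ℝ) ^ (-s) = 1 := by
      rw [← Real.rpow_add hm0]
      simp
    calc (1 : ℝ) = (m : ℝ) ^ s * (m : ℝ) ^ (-s) := h6.symm
      _ ≤ _ := mul_le_mul_of_nonneg_right h5 (Real.rpow_nonneg hm0.le _)
  have h2 : ((Sm X y).card : ℝ) ≤ ∑ m ∈ Sm X y, (X : ℝ) ^ s * (m : ℝ) ^ (-s) := by
    have := Finset.sum_le_sum h1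
    rw [Finset.sum_const, nsmul_eq_mul, mul_one] at this
    exact this
  rw [← Finset.mul_sum] at h2
  have h3 := h y hy X
  rw [← hs] at h3
  refine h2.trans ((mul_le_mul_of_nonneg_left h3 (Real.rpow_nonneg hX0.le _)).trans (le_of_eq ?_))
  rw [Real.exp_add, ← mul_assoc]
  congr 1
  have h4 : (X : ℝ) * Real.exp (-(Real.log X / Real.log y)) =
      Real.exp (Real.log X) * Real.exp (-(Real.log X / Real.log y)) := by
    rw [Real.exp_log hX0]
  rw [h4, ← Real.exp_add, Real.rpow_def_of_pos hX0]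
  congr 1
  rw [hs]
  ring

/-- K3 (from K1) -/
theorem k3 : ∃ C : ℝ, 1 ≤ C ∧ ∀ y : ℝ, 16 ≤ y → ∀ X : ℕ, 1 ≤ X → ∀ M : ℝ, 1 ≤ M →
    ∀ B : Finset ℕ, (∀ N ∈ B, N ∈ Icc 1 X ∧ ∃ m ∈ Sm X y, M < m ∧ m ∣ N) →
      (B.card : ℝ) ≤ X * Real.exp (-(Real.log M / Real.log y) + C * Real.log y) := by
  classical
  obtain ⟨C, hC, h⟩ := k1
  refine ⟨C, hC, fun y hy X hX M hM B hB => ?_⟩
  have hly := k2_log y hy
  have hX0 : (0 : ℝ) < X := by exact_mod_cast hX
  have hM0 : 0 < M := by linarith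
  obtain ⟨s, hs⟩ : ∃ s : ℝ, s = 1 - 1 / Real.log y := ⟨_, rfl⟩
  obtain ⟨S, hS⟩ : ∃ S : Finset ℕ, S = (Sm X y).filter (fun m : ℕ => M < (m : ℝ)) := ⟨_, rfl⟩
  have hsub : B ⊆ S.biUnion (fun m => (Icc 1 X).filter (fun N => m ∣ N)) := by
    intro N hN
    obtain ⟨h1, m, h2, h3, h4⟩ := hB N hN
    rw [Finset.mem_biUnion]
    refine ⟨m, ?_, ?_⟩
    · rw [hS, Finset.mem_filter]
      exact ⟨h2, h3⟩
    · rw [Finset.mem_filter]
      exact ⟨h1, h4⟩
  have hcard : ∀ m ∈ S, ((((Icc 1 X).filter (fun N => m ∣ N)).card : ℕ) : ℝ) ≤ (X : ℝ) / m := by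
    intro m hm
    rw [hS, Finset.mem_filter] at hm
    have h1 := (k2_mem X y m hm.1).1
    have h2 : ((Icc 1 X).filter (fun N => m ∣ N)).card = X / m := by
      have h3 : Icc 1 X = Ioc 0 X := by
        ext a
        simp only [Finset.mem_Icc, Finset.mem_Ioc]
        omega
      rw [h3]
      exact Nat.Ioc_filter_dvd_card_eq_div X m
    rw [h2]
    exact Nat.cast_div_le
  have h1 : (B.card : ℝ) ≤ ∑ m ∈ S, (X : ℝ) / m := by
    have h2 : B.card ≤ ∑ m ∈ S, ((Icc 1 X).filter (fun N => m ∣ N)).card :=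
      (Finset.card_le_card hsub).trans Finset.card_biUnion_le
    calc (B.card : ℝ) ≤ ((∑ m ∈ S, ((Icc 1 X).filter (fun N => m ∣ N)).card : ℕ) : ℝ) := by
          exact_mod_cast h2
      _ = ∑ m ∈ S, ((((Icc 1 X).filter (fun N => m ∣ N)).card : ℕ) : ℝ) := by push_cast; rfl
      _ ≤ _ := Finset.sum_le_sum hcard
  have h2 : ∀ m ∈ S, (X : ℝ) / m ≤ X * M ^ (-(1 / Real.log y)) * (m : ℝ) ^ (-s) := by
    intro m hm
    rw [hS, Finset.mem_filter] at hm
    have hm0 : (0 : ℝ) < m := by linarith [hm.2]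
    have h3 : (m : ℝ) ^ (-(1 / Real.log y)) ≤ M ^ (-(1 / Real.log y)) := by
      apply Real.rpow_le_rpow_of_nonpos hM0 hm.2.le
      have : 0 < 1 / Real.log y := by positivity
      linarith
    have h4 : (m : ℝ) ^ (-(1 / Real.log y)) * (m : ℝ) ^ (-s) = 1 / m := by
      rw [← Real.rpow_add hm0, hs]
      have : -(1 / Real.log y) + -(1 - 1 / Real.log y) = -1 := by ring
      rw [this, Real.rpow_neg_one, one_div]
    calc (X : ℝ) / m = X * (1 / m) := by ring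
      _ = X * ((m : ℝ) ^ (-(1 / Real.log y)) * (m : ℝ) ^ (-s)) := by rw [h4]
      _ ≤ X * (M ^ (-(1 / Real.log y)) * (m : ℝ) ^ (-s)) := by
          apply mul_le_mul_of_nonneg_left _ hX0.le
          exact mul_le_mul_of_nonneg_right h3 (Real.rpow_nonneg hm0.le _)
      _ = _ := by ring
  have h3 : ∑ m ∈ S, (m : ℝ) ^ (-s) ≤ Real.exp (C * Real.log y) := by
    have h4 := h y hy X
    rw [← hs] at h4
    refine le_trans (Finset.sum_le_sum_of_subset_of_nonneg ?_ ?_) h4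
    · rw [hS]
      exact Finset.filter_subset _ _
    · intro m _ _
      exact Real.rpow_nonneg (Nat.cast_nonneg m) _
  refine h1.trans ((Finset.sum_le_sum h2).trans ?_)
  rw [← Finset.mul_sum]
  have h4 : 0 ≤ (X : ℝ) * M ^ (-(1 / Real.log y)) :=
    mul_nonneg hX0.le (Real.rpow_nonneg hM0.le _)
  refine (mul_le_mul_of_nonneg_left h3 h4).trans (le_of_eq ?_)
  rw [Real.exp_add, ← mul_assoc]
  congr 2
  rw [Real.rpow_def_of_pos hM0]
  congr 1
  ring

end Pool.Agent.NV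

end

section

set_option autoImplicit false

namespace Pool.Agent.NV

open Pool.Agent.Lib_helper77.VC Polynomial Finset ArithmeticFunction

/-- the sum of the reciprocals of large prime powers -/
lemma k4_inv (y : ℝ) (hy : 2 ≤ y) (q : ℕ) (hq : IsPrimePow q) (h : y < q.minFac) :
    1 / (q : ℝ) ≤ vonMangoldt q / (y * Real.log 2) := by
  have hl : 0 < Real.log 2 := Real.log_pos (by norm_num)
  have hy0 : 0 < y := by linarith
  have hp : q.minFac.Prime := Nat.minFac_prime hq.ne_one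
  have h1 : (q.minFac : ℝ) ≤ q := by exact_mod_cast Nat.minFac_le hq.pos
  have h2 : Real.log 2 ≤ vonMangoldt q := by
    rw [vonMangoldt_apply, if_pos hq]
    exact Real.log_le_log (by norm_num) (by exact_mod_cast hp.two_le)
  have h3 : 1 / (q : ℝ) ≤ 1 / y := one_div_le_one_div_of_le hy0 (by linarith)
  refine h3.trans ?_
  rw [div_le_div_iff₀ hy0 (by positivity)]
  nlinarith

lemma k4_harm (X : ℕ) : ∑ a ∈ Icc 1 X, 1 / (a : ℝ) ≤ 1 + Real.log X := by
  have h := harmonic_le_one_add_log X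
  rw [harmonic_eq_sum_Icc] at h
  push_cast at h
  simpa [one_div] using h

/-- K4 -/
theorem k4 (Z : Set ℕ) (C : ℝ) (hC : 1 ≤ C)
    (h1 : ∀ m : ℕ, 1 ≤ m → m ∉ Z → ∀ F : Finset ℕ,
      (∀ q ∈ F, IsPrimePow q ∧ q.Coprime m ∧ m * q ∈ Z) →
        ∑ q ∈ F, vonMangoldt q ≤ C * Real.log (m + 1) ^ 4) :
    ∃ C' : ℝ, 1 ≤ C' ∧ ∀ y : ℝ, 2 ≤ y → ∀ X : ℕ, 1 ≤ X → ∀ B : Finset ℕ,
      (∀ N ∈ B, N ∈ Icc 1 X ∧ ∃ a q : ℕ, 1 ≤ a ∧ a * q ∣ N ∧ a ∉ Z ∧ IsPrimePow q ∧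
        q.Coprime a ∧ a * q ∈ Z ∧ y < q.minFac) →
      (B.card : ℝ) ≤ C' * X * (1 + Real.log X) ^ 5 / y := by
  classical
  have hl : 0 < Real.log 2 := Real.log_pos (by norm_num)
  refine ⟨C / Real.log 2, ?_, ?_⟩
  · rw [le_div_iff₀ hl]
    have := Real.log_two_lt_d9
    linarith
  intro y hy X hX B hB
  have hy0 : 0 < y := by linarith
  have hX1 : (1 : ℝ) ≤ X := by exact_mod_cast hX
  have hLX : 0 ≤ Real.log X := Real.log_nonneg hX1
  set F : ℕ → Finset ℕ := fun a => (Icc 1 X).filter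
    (fun q => IsPrimePow q ∧ q.Coprime a ∧ a * q ∈ Z ∧ y < q.minFac) with hF
  set A : Finset ℕ := (Icc 1 X).filter (fun a => a ∉ Z) with hA
  have hsub : B ⊆ A.biUnion fun a => (F a).biUnion fun q =>
      (Ioc 0 X).filter (fun N => a * q ∣ N) := by
    intro N hN
    obtain ⟨hNX, a, q, ha, hd, haZ, hq, hc, hz, hm⟩ := hB N hN
    rw [mem_Icc] at hNX
    have hle : a * q ≤ N := Nat.le_of_dvd (by omega) hd
    have hq1 : 1 ≤ q := hq.pos
    have haN : a ≤ a * q := Nat.le_mul_of_pos_right a hq1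
    have hqN : q ≤ a * q := Nat.le_mul_of_pos_left q ha
    simp only [mem_biUnion, mem_filter, mem_Ioc, hF, hA, mem_Icc]
    exact ⟨a, ⟨⟨ha, by omega⟩, haZ⟩, q, ⟨⟨hq1, by omega⟩, hq, hc, hz, hm⟩, ⟨by omega, hNX.2⟩, hd⟩
  have hcard : (B.card : ℝ) ≤ ∑ a ∈ A, ∑ q ∈ F a, ((X / (a * q) : ℕ) : ℝ) := by
    have h2 : B.card ≤ ∑ a ∈ A, ∑ q ∈ F a, X / (a * q) := by
      refine (card_le_card hsub).trans (card_biUnion_le.trans (sum_le_sum fun a _ => ?_))
      refine card_biUnion_le.trans (sum_le_sum fun q _ => ?_)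
      rw [Nat.Ioc_filter_dvd_card_eq_div]
    exact_mod_cast h2
  refine hcard.trans ?_
  have hin : ∀ a ∈ A, ∑ q ∈ F a, ((X / (a * q) : ℕ) : ℝ) ≤
      (1 / (a : ℝ)) * (C / Real.log 2 * X * (1 + Real.log X) ^ 4 / y) := by
    intro a ha
    rw [hA, mem_filter, mem_Icc] at ha
    have ha1 : (1 : ℝ) ≤ a := by exact_mod_cast ha.1.1
    have hsum := h1 a ha.1.1 ha.2 (F a) (by
      intro q hq
      rw [hF, mem_filter] at hq
      exact ⟨hq.2.1, hq.2.2.1, hq.2.2.2.1⟩)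
    have hlog : Real.log ((a : ℝ) + 1) ≤ 1 + Real.log X := by
      have h3 : (a : ℝ) + 1 ≤ Real.exp 1 * X := by
        have h4 : (a : ℝ) ≤ X := by exact_mod_cast ha.1.2
        have h5 : (2 : ℝ) ≤ Real.exp 1 := by
          have := Real.add_one_le_exp (1 : ℝ)
          linarith
        nlinarith
      refine (Real.log_le_log (by linarith) h3).trans ?_
      rw [Real.log_mul (Real.exp_pos 1).ne' (by linarith), Real.log_exp]
    have hlog0 : 0 ≤ Real.log ((a : ℝ) + 1) := Real.log_nonneg (by linarith)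
    calc ∑ q ∈ F a, ((X / (a * q) : ℕ) : ℝ)
        ≤ ∑ q ∈ F a, (X / (a : ℝ)) * (vonMangoldt q / (y * Real.log 2)) := by
          refine sum_le_sum fun q hq => ?_
          rw [hF, mem_filter] at hq
          have h6 := k4_inv y hy q hq.2.1 hq.2.2.2.2
          have h7 : ((X / (a * q) : ℕ) : ℝ) ≤ (X : ℝ) / ((a * q : ℕ) : ℝ) := Nat.cast_div_le
          refine h7.trans ?_
          push_cast
          have h8 : (X : ℝ) / (a * q) = X / a * (1 / q) := by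
            rw [div_mul_div_comm, mul_one]
          rw [h8]
          exact mul_le_mul_of_nonneg_left h6 (by positivity)
      _ = (X / (a : ℝ)) / (y * Real.log 2) * ∑ q ∈ F a, vonMangoldt q := by
          rw [mul_sum]
          exact sum_congr rfl fun q _ => by ring
      _ ≤ (X / (a : ℝ)) / (y * Real.log 2) * (C * Real.log ((a : ℝ) + 1) ^ 4) :=
          mul_le_mul_of_nonneg_left hsum (by positivity)
      _ ≤ (X / (a : ℝ)) / (y * Real.log 2) * (C * (1 + Real.log X) ^ 4) := by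
          gcongr
      _ = (1 / (a : ℝ)) * (C / Real.log 2 * X * (1 + Real.log X) ^ 4 / y) := by
          field_simp
  refine (sum_le_sum hin).trans ?_
  rw [← sum_mul]
  have hs : ∑ a ∈ A, 1 / (a : ℝ) ≤ 1 + Real.log X := by
    refine (sum_le_sum_of_subset_of_nonneg (filter_subset _ _) fun a _ _ => by positivity).trans ?_
    exact k4_harm X
  refine (mul_le_mul_of_nonneg_right hs (by positivity)).trans (le_of_eq ?_)
  ring

end Pool.Agent.NV

end

section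

set_option autoImplicit false

namespace Pool.Agent.NV

open Pool.Agent.Lib_helper77.VC Polynomial Finset ArithmeticFunction

theorem k5_log2 : (1 : ℝ) / 2 < Real.log 2 := by
  have := Real.log_two_gt_d9
  linarith

/-- one prime power -/
theorem k5_term (X m q : ℕ) (z : ℝ) (hz : 2 ≤ z) (hm : 1 ≤ m) (hq : IsPrimePow q)
    (hzq : z < q.minFac) :
    ((X / (m * q) : ℕ) : ℝ) ≤ 2 * X / z * vonMangoldt q := by
  have hq1 : q ≠ 1 := hq.ne_one
  have hq0 : 0 < q := hq.pos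
  have hqm : (q.minFac : ℝ) ≤ q := by exact_mod_cast Nat.minFac_le hq0
  have hzq' : z < q := lt_of_lt_of_le hzq hqm
  have hm' : (1 : ℝ) ≤ m := by exact_mod_cast hm
  have hz0 : 0 < z := by linarith
  have hX0 : (0 : ℝ) ≤ X := Nat.cast_nonneg X
  have hL : (1 : ℝ) / 2 ≤ vonMangoldt q := by
    rw [vonMangoldt_apply, if_pos hq]
    have h2 : (2 : ℝ) ≤ q.minFac := by
      exact_mod_cast (Nat.minFac_prime hq1).two_le
    have := Real.log_le_log (by norm_num) h2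
    have := k5_log2
    linarith
  calc ((X / (m * q) : ℕ) : ℝ) ≤ (X : ℝ) / ((m * q : ℕ) : ℝ) := Nat.cast_div_le
    _ ≤ (X : ℝ) / z := by
        apply div_le_div_of_nonneg_left hX0 hz0
        push_cast
        nlinarith
    _ = 2 * X / z * (1 / 2) := by ring
    _ ≤ 2 * X / z * vonMangoldt q := by
        apply mul_le_mul_of_nonneg_left hL
        positivity

/-- K5 -/
theorem k5 (Z : Set ℕ) (C : ℝ) (hC : 1 ≤ C)
    (h2 : ∀ m : ℕ, 1 ≤ m → ∀ F : Finset ℕ,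
      (∀ q ∈ F, IsPrimePow q ∧ q.Coprime m ∧ m * q ∈ Z) →
        ∑ q ∈ F, vonMangoldt q ≤ Real.exp (C * Real.log (m + 1) ^ 2)) :
    ∃ C' : ℝ, 1 ≤ C' ∧ ∀ z : ℝ, 2 ≤ z → ∀ M : ℝ, 1 ≤ M → ∀ X : ℕ, 1 ≤ X → ∀ B : Finset ℕ,
      (∀ N ∈ B, N ∈ Icc 1 X ∧ ∃ m q : ℕ, 1 ≤ m ∧ (m : ℝ) ≤ M ∧ m * q ∣ N ∧ IsPrimePow q ∧
        q.Coprime m ∧ m * q ∈ Z ∧ z < q.minFac) →
      (B.card : ℝ) ≤ C' * X * Real.exp (C' * Real.log (M + 1) ^ 2) / z := by
  classical
  refine ⟨C + 2, by linarith, ?_⟩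
  intro z hz M hM X hX B hB
  have hz0 : 0 < z := by linarith
  have hX0 : (0 : ℝ) ≤ X := Nat.cast_nonneg X
  have hM0 : 0 ≤ M := by linarith
  set L := Real.log (M + 1) with hLdef
  have hL2 : (1 : ℝ) / 2 < L := by
    have h1 := Real.log_le_log (by norm_num : (0 : ℝ) < 2) (by linarith : (2 : ℝ) ≤ M + 1)
    have := k5_log2
    rw [hLdef]
    linarith
  let F : ℕ → Finset ℕ := fun m => (Icc 1 X).filter (fun q => IsPrimePow q ∧ q.Coprime m ∧
    m * q ∈ Z ∧ z < q.minFac)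
  have hsub : B ⊆ (Icc 1 ⌊M⌋₊).biUnion (fun m => (F m).biUnion
      (fun q => (Ioc 0 X).filter (fun N => m * q ∣ N))) := by
    intro N hN
    obtain ⟨hNX, m, q, hm, hmM, hd, hq, hc, hmz, hzq⟩ := hB N hN
    rw [mem_Icc] at hNX
    rw [mem_biUnion]
    refine ⟨m, mem_Icc.2 ⟨hm, Nat.le_floor hmM⟩, ?_⟩
    rw [mem_biUnion]
    refine ⟨q, ?_, ?_⟩
    · have hqN : q ∣ N := (Dvd.intro_left m rfl).trans hd
      have := Nat.le_of_dvd hNX.1 hqN
      exact mem_filter.2 ⟨mem_Icc.2 ⟨hq.pos, by omega⟩, hq, hc, hmz, hzq⟩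
    · exact mem_filter.2 ⟨mem_Ioc.2 ⟨by omega, hNX.2⟩, hd⟩
  have hcard : (B.card : ℝ) ≤ ∑ m ∈ Icc 1 ⌊M⌋₊, ∑ q ∈ F m, ((X / (m * q) : ℕ) : ℝ) := by
    have h1 : B.card ≤ ∑ m ∈ Icc 1 ⌊M⌋₊, ∑ q ∈ F m, X / (m * q) := by
      refine (card_le_card hsub).trans (card_biUnion_le.trans (sum_le_sum ?_))
      intro m _
      refine card_biUnion_le.trans (sum_le_sum ?_)
      intro q _
      rw [Nat.Ioc_filter_dvd_card_eq_div]
    exact_mod_cast h1
  have hin : ∀ m ∈ Icc 1 ⌊M⌋₊, ∑ q ∈ F m, ((X / (m * q) : ℕ) : ℝ) ≤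
      2 * X / z * Real.exp (C * L ^ 2) := by
    intro m hm
    rw [mem_Icc] at hm
    have hmM : (m : ℝ) ≤ M := (Nat.le_floor_iff hM0).1 hm.2
    have hF : ∀ q ∈ F m, IsPrimePow q ∧ q.Coprime m ∧ m * q ∈ Z := by
      intro q hq
      have := (mem_filter.1 hq).2
      exact ⟨this.1, this.2.1, this.2.2.1⟩
    calc ∑ q ∈ F m, ((X / (m * q) : ℕ) : ℝ) ≤ ∑ q ∈ F m, 2 * X / z * vonMangoldt q := by
          apply sum_le_sum
          intro q hq
          have := (mem_filter.1 hq).2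
          exact k5_term X m q z hz hm.1 this.1 this.2.2.2
      _ = 2 * X / z * ∑ q ∈ F m, vonMangoldt q := by rw [mul_sum]
      _ ≤ 2 * X / z * Real.exp (C * Real.log (m + 1) ^ 2) := by
          apply mul_le_mul_of_nonneg_left (h2 m hm.1 (F m) hF)
          positivity
      _ ≤ 2 * X / z * Real.exp (C * L ^ 2) := by
          apply mul_le_mul_of_nonneg_left _ (by positivity)
          apply Real.exp_le_exp.2
          apply mul_le_mul_of_nonneg_left _ (by linarith)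
          have h0 : 0 ≤ Real.log ((m : ℝ) + 1) := Real.log_nonneg (by
            have : (0 : ℝ) ≤ m := Nat.cast_nonneg m
            linarith)
          have h1 : Real.log ((m : ℝ) + 1) ≤ L := by
            apply Real.log_le_log
            · have : (0 : ℝ) ≤ m := Nat.cast_nonneg m
              linarith
            · linarith
          exact pow_le_pow_left₀ h0 h1 2
  have hML : M ≤ Real.exp (2 * L ^ 2) := by
    have h1 : M ≤ Real.exp L := by
      rw [hLdef, Real.exp_log (by linarith)]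
      linarith
    refine h1.trans (Real.exp_le_exp.2 ?_)
    nlinarith
  calc (B.card : ℝ) ≤ ∑ m ∈ Icc 1 ⌊M⌋₊, ∑ q ∈ F m, ((X / (m * q) : ℕ) : ℝ) := hcard
    _ ≤ ∑ m ∈ Icc 1 ⌊M⌋₊, 2 * X / z * Real.exp (C * L ^ 2) := sum_le_sum hin
    _ = (⌊M⌋₊ : ℝ) * (2 * X / z * Real.exp (C * L ^ 2)) := by
        rw [sum_const, Nat.card_Icc, nsmul_eq_mul]
        simp
    _ ≤ Real.exp (2 * L ^ 2) * (2 * X / z * Real.exp (C * L ^ 2)) := by
        apply mul_le_mul_of_nonneg_right _ (by positivity)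
        exact (Nat.floor_le hM0).trans hML
    _ = 2 * X * Real.exp ((C + 2) * L ^ 2) / z := by
        rw [show (C + 2) * L ^ 2 = 2 * L ^ 2 + C * L ^ 2 by ring, Real.exp_add]
        ring
    _ ≤ (C + 2) * X * Real.exp ((C + 2) * L ^ 2) / z := by
        apply div_le_div_of_nonneg_right _ hz0.le
        apply mul_le_mul_of_nonneg_right _ (Real.exp_pos _).le
        apply mul_le_mul_of_nonneg_right _ hX0
        linarith

end Pool.Agent.NV

end

section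

/-!
# NV: block K6 (helper39): stripping
-/

set_option autoImplicit false

namespace Pool.Agent.NV

open Finset

/-- K6. stripping -/
theorem k6 (Z : Set ℕ) (y : ℝ) (hy : 1 ≤ y) (N : ℕ) (hN : 1 ≤ N) (hZ : N ∈ Z)
    (hno : ¬ ∃ a q : ℕ, 1 ≤ a ∧ a * q ∣ N ∧ a ∉ Z ∧ IsPrimePow q ∧ q.Coprime a ∧ a * q ∈ Z ∧
      y < q.minFac) (p : ℕ) (hp : p.Prime) (hpN : p ∣ N) (hyp : y < p) :
    ∃ m q : ℕ, 1 ≤ m ∧ m * q ∣ N ∧ (∀ r : ℕ, r.Prime → r ∣ m → (r : ℝ) ≤ y) ∧ IsPrimePow q ∧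
      q.minFac = p ∧ q.Coprime m ∧ m * q ∈ Z := by
  have key : ∀ M : ℕ, M ∣ N → M ∈ Z → p ∣ M → ∃ m q : ℕ, 1 ≤ m ∧ m * q ∣ N ∧
      (∀ r : ℕ, r.Prime → r ∣ m → (r : ℝ) ≤ y) ∧ IsPrimePow q ∧
      q.minFac = p ∧ q.Coprime m ∧ m * q ∈ Z := by
    intro M
    induction M using Nat.strong_induction_on with
    | _ M ih =>
      intro hMN hMZ hpM
      have hM0 : M ≠ 0 := fun h => by rw [h, zero_dvd_iff] at hMN; omega
      by_cases hr : ∃ r : ℕ, r.Prime ∧ r ∣ M ∧ r ≠ p ∧ y < r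
      · obtain ⟨r, hrp, hrM, hrne, hyr⟩ := hr
        obtain ⟨k, M', hM', hMeq⟩ := Nat.exists_eq_pow_mul_and_not_dvd hM0 r hrp.ne_one
        have hk : k ≠ 0 := by
          rintro rfl
          apply hM'
          rw [pow_zero, one_mul] at hMeq
          rwa [← hMeq]
        have hM'0 : M' ≠ 0 := by
          rintro rfl
          rw [mul_zero] at hMeq
          exact hM0 hMeq
        have hcop : (r ^ k).Coprime M' :=
          Nat.Coprime.pow_left k ((Nat.Prime.coprime_iff_not_dvd hrp).2 hM')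
        have hM'Z : M' ∈ Z := by
          by_contra hc
          apply hno
          refine ⟨M', r ^ k, Nat.one_le_iff_ne_zero.2 hM'0, ?_, hc, hrp.isPrimePow.pow hk, hcop,
            ?_, ?_⟩
          · rw [mul_comm, ← hMeq]; exact hMN
          · rw [mul_comm, ← hMeq]; exact hMZ
          · rw [hrp.pow_minFac hk]; exact hyr
        have hlt : M' < M := by
          have h1 : 1 < r ^ k := Nat.one_lt_pow hk hrp.one_lt
          rw [hMeq]
          exact lt_mul_of_one_lt_left (Nat.pos_of_ne_zero hM'0) h1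
        have hdM : M' ∣ M := ⟨r ^ k, by rw [hMeq, mul_comm]⟩
        refine ih M' hlt (hdM.trans hMN) hM'Z ?_
        have h2 : p ∣ r ^ k * M' := by rw [← hMeq]; exact hpM
        refine (Nat.Coprime.dvd_mul_left ?_).1 h2
        exact Nat.Coprime.pow_right k ((Nat.coprime_primes hp hrp).2 (Ne.symm hrne))
      · push Not at hr
        obtain ⟨k, m, hm, hMeq⟩ := Nat.exists_eq_pow_mul_and_not_dvd hM0 p hp.ne_one
        have hk : k ≠ 0 := by
          rintro rfl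
          apply hm
          rw [pow_zero, one_mul] at hMeq
          rwa [← hMeq]
        have hm0 : m ≠ 0 := by
          rintro rfl
          rw [mul_zero] at hMeq
          exact hM0 hMeq
        refine ⟨m, p ^ k, Nat.one_le_iff_ne_zero.2 hm0, ?_, ?_, hp.isPrimePow.pow hk,
          hp.pow_minFac hk, Nat.Coprime.pow_left k ((Nat.Prime.coprime_iff_not_dvd hp).2 hm), ?_⟩
        · rw [mul_comm, ← hMeq]; exact hMN
        · intro r hr1 hr2
          refine hr r hr1 ?_ ?_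
          · rw [hMeq]; exact hr2.mul_left _
          · rintro rfl; exact hm hr2
        · rw [mul_comm, ← hMeq]; exact hMZ
  exact key N dvd_rfl hZ hpN

end Pool.Agent.NV

end

section

set_option autoImplicit false

namespace Pool.Agent.NV

open Pool.Agent.Lib_helper77.VC Polynomial Finset ArithmeticFunction

/-- elementary bounds for the parameters -/
lemma k7_param {C2 C3 C5 K c0 δ : ℝ} (hC2 : 1 ≤ C2) (hC3 : 1 ≤ C3) (hC5 : 1 ≤ C5)
    (hK : K = C3 + 1) (hc0 : c0 = 1 / (2 * C2)) (hδ : δ = c0 / (4 * C5 * K ^ 2)) :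
    1 ≤ K ∧ 0 < c0 ∧ c0 ≤ 1 ∧ 0 < δ ∧ δ ≤ c0 ∧ δ ≤ 1 ∧ 2 * C5 * K ^ 2 * δ ^ 4 ≤ c0 / 2 := by
  have hK1 : 1 ≤ K := by rw [hK]; linarith
  have hc1 : 0 < c0 := by rw [hc0]; positivity
  have hc2 : c0 ≤ 1 := by
    rw [hc0, div_le_one (by positivity)]; linarith
  have hK2 : 1 ≤ K ^ 2 := one_le_pow₀ hK1
  have hden : 1 ≤ 4 * C5 * K ^ 2 := by nlinarith
  have hδ0 : 0 < δ := by rw [hδ]; positivity
  have hδ1 : δ ≤ c0 := by
    rw [hδ]; exact div_le_self hc1.le hden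
  have hδ2 : δ ≤ 1 := hδ1.trans hc2
  refine ⟨hK1, hc1, hc2, hδ0, hδ1, hδ2, ?_⟩
  have h4 : δ ^ 4 ≤ δ := by
    calc δ ^ 4 = δ * δ ^ 3 := by ring
      _ ≤ δ * 1 := by
        gcongr
        exact pow_le_one₀ hδ0.le hδ2
      _ = δ := mul_one _
  have e : 2 * C5 * K ^ 2 * δ = c0 / 2 := by
    rw [hδ]
    have : C5 ≠ 0 := by positivity
    have : K ≠ 0 := by positivity
    field_simp
    ring
  calc 2 * C5 * K ^ 2 * δ ^ 4 ≤ 2 * C5 * K ^ 2 * δ := by gcongr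
    _ = c0 / 2 := e

/-- `(1 + u^8)^5 ≤ C exp(δ u / 2)` -/
lemma k7_pow {δ : ℝ} (hδ : 0 < δ) {u : ℝ} (hu : 1 ≤ u) :
    (1 + u ^ 8) ^ 5 ≤ 32 * (Nat.factorial 40 : ℝ) * (2 / δ) ^ 40 * Real.exp (δ / 2 * u) := by
  have h8 : 1 ≤ u ^ 8 := one_le_pow₀ hu
  have h0 : (1 + u ^ 8) ^ 5 ≤ 32 * u ^ 40 := by
    calc (1 + u ^ 8) ^ 5 ≤ (2 * u ^ 8) ^ 5 := by gcongr; linarith
      _ = 32 * u ^ 40 := by ring
  have h1 := Real.pow_div_factorial_le_exp (δ / 2 * u) (by positivity) 40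
  have hf : (0 : ℝ) < (Nat.factorial 40 : ℝ) := by exact_mod_cast Nat.factorial_pos 40
  rw [div_le_iff₀ hf] at h1
  have e : u ^ 40 = (2 / δ) ^ 40 * (δ / 2 * u) ^ 40 := by
    rw [← mul_pow]
    congr 1
    field_simp
  calc (1 + u ^ 8) ^ 5 ≤ 32 * u ^ 40 := h0
    _ = 32 * (2 / δ) ^ 40 * (δ / 2 * u) ^ 40 := by rw [e]; ring
    _ ≤ 32 * (2 / δ) ^ 40 * (Real.exp (δ / 2 * u) * (Nat.factorial 40 : ℝ)) := by gcongr
    _ = _ := by ring

/-- K7. assembly of the count -/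
theorem count (Z : Set ℕ) (C : ℝ) (hC : 1 ≤ C)
    (h1 : ∀ m : ℕ, 1 ≤ m → m ∉ Z → ∀ F : Finset ℕ,
      (∀ q ∈ F, IsPrimePow q ∧ q.Coprime m ∧ m * q ∈ Z) →
        ∑ q ∈ F, vonMangoldt q ≤ C * Real.log (m + 1) ^ 4)
    (h2 : ∀ m : ℕ, 1 ≤ m → ∀ F : Finset ℕ,
      (∀ q ∈ F, IsPrimePow q ∧ q.Coprime m ∧ m * q ∈ Z) →
        ∑ q ∈ F, vonMangoldt q ≤ Real.exp (C * Real.log (m + 1) ^ 2)) :
    ∃ c : ℝ, 0 < c ∧ ∃ C' : ℝ, 1 ≤ C' ∧ ∀ X : ℕ, 2 ≤ X →
      ({N : ℕ | 1 ≤ N ∧ N ≤ X ∧ N ∈ Z}.ncard : ℝ) ≤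
        C' * X * Real.exp (-c * Real.log X ^ (1 / 8 : ℝ)) := by
  classical
  obtain ⟨C2, hC2, k2⟩ := k2
  obtain ⟨C3, hC3, k3⟩ := k3
  obtain ⟨C4, hC4, k4⟩ := k4 Z C hC h1
  obtain ⟨C5, hC5, k5⟩ := k5 Z C hC h2
  obtain ⟨K, hK⟩ : ∃ K, K = C3 + 1 := ⟨_, rfl⟩
  obtain ⟨c0, hc0⟩ : ∃ c0, c0 = 1 / (2 * C2) := ⟨_, rfl⟩
  obtain ⟨δ, hδ⟩ : ∃ δ, δ = c0 / (4 * C5 * K ^ 2) := ⟨_, rfl⟩
  obtain ⟨hK1, hc1, hc2, hδ0, hδ1, hδ2, hpar⟩ := k7_param hC2 hC3 hC5 hK hc0 hδ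
  obtain ⟨C6, hC6⟩ : ∃ C6 : ℝ, C6 = 32 * (Nat.factorial 40 : ℝ) * (2 / δ) ^ 40 := ⟨_, rfl⟩
  have hC60 : 0 ≤ C6 := by rw [hC6]; positivity
  obtain ⟨U0, hU0⟩ : ∃ U0 : ℝ, U0 = Real.log 16 / δ := ⟨_, rfl⟩
  have hlog16 : 1 ≤ Real.log 16 := by
    rw [Real.le_log_iff_exp_le (by norm_num)]
    exact (Real.exp_one_lt_d9.le).trans (by norm_num)
  have hU1 : 1 ≤ U0 := by
    rw [hU0, le_div_iff₀ hδ0]; linarith
  obtain ⟨C', hC'⟩ : ∃ C' : ℝ, C' = Real.exp (δ / 2 * U0) + (2 + C4 * C6 + C5 * Real.exp (2 * C5)) :=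
    ⟨_, rfl⟩
  have hsum : 0 ≤ 2 + C4 * C6 + C5 * Real.exp (2 * C5) := by positivity
  have hexp0 : 1 ≤ Real.exp (δ / 2 * U0) := Real.one_le_exp (by positivity)
  refine ⟨δ / 2, by positivity, C', by rw [hC']; linarith, ?_⟩
  intro X hX
  have hX1 : (1 : ℝ) ≤ X := by exact_mod_cast (by omega : 1 ≤ X)
  have hL : 0 ≤ Real.log X := Real.log_nonneg hX1
  obtain ⟨u, hu⟩ : ∃ u : ℝ, u = Real.log X ^ (1 / 8 : ℝ) := ⟨_, rfl⟩
  have hu0 : 0 ≤ u := by rw [hu]; positivity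
  have hu8 : u ^ 8 = Real.log X := by
    rw [hu, ← Real.rpow_natCast, ← Real.rpow_mul hL]
    norm_num
  rw [← hu]
  -- the set as a finset
  set S : Finset ℕ := (Icc 1 X).filter (fun N => N ∈ Z) with hS
  have hset : {N : ℕ | 1 ≤ N ∧ N ≤ X ∧ N ∈ Z} = (S : Set ℕ) := by
    ext N
    simp [hS, and_assoc]
  rw [hset, Set.ncard_coe_finset]
  have hcardX : (S.card : ℝ) ≤ X := by
    have : S.card ≤ (Icc 1 X).card := card_le_card (filter_subset _ _)
    rw [Nat.card_Icc] at this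
    exact_mod_cast this.trans (by omega)
  rcases lt_or_ge u U0 with hlt | hge
  · -- small `X`
    calc (S.card : ℝ) ≤ X := hcardX
      _ = 1 * X * 1 := by ring
      _ = 1 * X * Real.exp 0 := by rw [Real.exp_zero]
      _ = 1 * X * (Real.exp (δ / 2 * u) * Real.exp (-(δ / 2) * u)) := by
        rw [← Real.exp_add]; congr 2; ring
      _ ≤ 1 * X * (Real.exp (δ / 2 * U0) * Real.exp (-(δ / 2) * u)) := by
        gcongr
      _ = Real.exp (δ / 2 * U0) * X * Real.exp (-(δ / 2) * u) := by ring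
      _ ≤ C' * X * Real.exp (-(δ / 2) * u) := by
        gcongr
        rw [hC']; linarith
  -- large `X`
  have hu1 : 1 ≤ u := hU1.trans hge
  have hu4 : u ≤ u ^ 4 := le_self_pow₀ hu1 (by norm_num)
  have hlogy : Real.log 16 ≤ δ * u := by
    have := (div_le_iff₀ hδ0).mp (hU0 ▸ hge)
    linarith
  obtain ⟨y, hy⟩ : ∃ y : ℝ, y = Real.exp (δ * u) := ⟨_, rfl⟩
  obtain ⟨z, hz⟩ : ∃ z : ℝ, z = Real.exp (c0 * u ^ 4) := ⟨_, rfl⟩
  obtain ⟨M, hM⟩ : ∃ M : ℝ, M = Real.exp (K * (δ * u) ^ 2) := ⟨_, rfl⟩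
  have hyz : y ≤ z := by
    rw [hy, hz]
    apply Real.exp_le_exp.mpr
    exact mul_le_mul hδ1 hu4 hu0 hc1.le
  have hy16 : 16 ≤ y := by
    rw [hy, ← Real.log_le_iff_le_exp (by norm_num)]; exact hlogy
  have hz16 : 16 ≤ z := hy16.trans hyz
  have hM1 : 1 ≤ M := by rw [hM]; exact Real.one_le_exp (by positivity)
  have ly : Real.log y = δ * u := by rw [hy, Real.log_exp]
  have lz : Real.log z = c0 * u ^ 4 := by rw [hz, Real.log_exp]
  have lM : Real.log M = K * (δ * u) ^ 2 := by rw [hM, Real.log_exp]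
  have hδu : 0 < δ * u := by positivity
  -- the four sets
  set B1 : Finset ℕ := Sm X z with hB1
  set B2 : Finset ℕ := (Icc 1 X).filter (fun N => ∃ m ∈ Sm X y, M < m ∧ m ∣ N) with hB2
  set B3 : Finset ℕ := (Icc 1 X).filter (fun N => ∃ a q : ℕ, 1 ≤ a ∧ a * q ∣ N ∧ a ∉ Z ∧
    IsPrimePow q ∧ q.Coprime a ∧ a * q ∈ Z ∧ y < q.minFac) with hB3
  set B4 : Finset ℕ := (Icc 1 X).filter (fun N => ∃ m q : ℕ, 1 ≤ m ∧ (m : ℝ) ≤ M ∧ m * q ∣ N ∧
    IsPrimePow q ∧ q.Coprime m ∧ m * q ∈ Z ∧ z < q.minFac) with hB4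
  have hcover : S ⊆ B1 ∪ (B2 ∪ (B3 ∪ B4)) := by
    intro N hNS
    rw [hS, mem_filter] at hNS
    obtain ⟨hN1, hNZ⟩ := hNS
    by_cases hsm : ∀ p : ℕ, p.Prime → p ∣ N → (p : ℝ) ≤ z
    · apply mem_union_left
      rw [hB1, Sm, mem_filter]
      exact ⟨hN1, hsm⟩
    apply mem_union_right
    push Not at hsm
    obtain ⟨p, hp, hpN, hpz⟩ := hsm
    by_cases hno : ∃ a q : ℕ, 1 ≤ a ∧ a * q ∣ N ∧ a ∉ Z ∧
        IsPrimePow q ∧ q.Coprime a ∧ a * q ∈ Z ∧ y < q.minFac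
    · apply mem_union_right
      apply mem_union_left
      rw [hB3, mem_filter]
      exact ⟨hN1, hno⟩
    obtain ⟨m, q, hm1, hmq, hmy, hq, hqp, hco, hmqZ⟩ := k6 Z y (by linarith) N
      (mem_Icc.mp hN1).1 hNZ hno p hp hpN (lt_of_le_of_lt hyz hpz)
    by_cases hmM : (m : ℝ) ≤ M
    · apply mem_union_right
      apply mem_union_right
      rw [hB4, mem_filter]
      exact ⟨hN1, m, q, hm1, hmM, hmq, hq, hco, hmqZ, by rw [hqp]; exact hpz⟩
    · apply mem_union_left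
      rw [hB2, mem_filter]
      refine ⟨hN1, m, ?_, not_le.mp hmM, dvd_trans (Dvd.intro _ rfl) hmq⟩
      rw [Sm, mem_filter, mem_Icc]
      have hmN : m ≤ N := Nat.le_of_dvd (by have := (mem_Icc.mp hN1).1; omega)
        (dvd_trans (Dvd.intro _ rfl) hmq)
      exact ⟨⟨hm1, hmN.trans (mem_Icc.mp hN1).2⟩, hmy⟩
  have hcard : (S.card : ℝ) ≤ B1.card + (B2.card + (B3.card + B4.card)) := by
    have h := card_le_card hcover
    have h' := card_union_le B1 (B2 ∪ (B3 ∪ B4))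
    have h'' := card_union_le B2 (B3 ∪ B4)
    have h''' := card_union_le B3 B4
    exact_mod_cast (by omega : S.card ≤ B1.card + (B2.card + (B3.card + B4.card)))
  -- first set
  have b1 : (B1.card : ℝ) ≤ X * Real.exp (-(δ / 2) * u) := by
    refine (k2 z hz16 X (by omega)).trans ?_
    gcongr
    rw [lz, ← hu8]
    have e : u ^ 8 / (c0 * u ^ 4) = 2 * C2 * u ^ 4 := by
      rw [hc0]
      have : u ≠ 0 := by positivity
      have : C2 ≠ 0 := by positivity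
      field_simp
    have e' : C2 * (c0 * u ^ 4) = u ^ 4 / 2 := by
      rw [hc0]
      have : C2 ≠ 0 := by positivity
      field_simp
    rw [e, e']
    have : u ^ 4 ≤ C2 * u ^ 4 := le_mul_of_one_le_left (by positivity) hC2
    have : δ / 2 * u ≤ 1 * u ^ 4 := mul_le_mul (by linarith) hu4 hu0 (by norm_num)
    linarith
  -- second set
  have b2 : (B2.card : ℝ) ≤ X * Real.exp (-(δ / 2) * u) := by
    refine (k3 y hy16 X (by omega) M hM1 B2 (fun N hN => by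
      rw [hB2, mem_filter] at hN; exact hN)).trans ?_
    gcongr
    rw [ly, lM]
    have e : K * (δ * u) ^ 2 / (δ * u) = K * (δ * u) := by
      field_simp
    rw [e, hK]
    nlinarith
  -- third set
  have b3 : (B3.card : ℝ) ≤ C4 * C6 * (X * Real.exp (-(δ / 2) * u)) := by
    refine (k4 y (by linarith) X (by omega) B3 (fun N hN => by
      rw [hB3, mem_filter] at hN; exact hN)).trans ?_
    rw [← hu8, hy, div_eq_mul_inv, ← Real.exp_neg]
    have hp := k7_pow hδ0 hu1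
    rw [← hC6] at hp
    calc C4 * X * (1 + u ^ 8) ^ 5 * Real.exp (-(δ * u))
        ≤ C4 * X * (C6 * Real.exp (δ / 2 * u)) * Real.exp (-(δ * u)) := by gcongr
      _ = C4 * C6 * (X * (Real.exp (δ / 2 * u) * Real.exp (-(δ * u)))) := by ring
      _ = C4 * C6 * (X * Real.exp (-(δ / 2) * u)) := by
        rw [← Real.exp_add]; congr 3; ring
  -- fourth set
  have b4 : (B4.card : ℝ) ≤ C5 * Real.exp (2 * C5) * (X * Real.exp (-(δ / 2) * u)) := by
    refine (k5 z (by linarith) M hM1 X (by omega) B4 (fun N hN => by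
      rw [hB4, mem_filter] at hN; exact hN)).trans ?_
    rw [hz, div_eq_mul_inv, ← Real.exp_neg]
    have hlM : Real.log (M + 1) ≤ 1 + K * (δ * u) ^ 2 := by
      calc Real.log (M + 1) ≤ Real.log (2 * M) := Real.log_le_log (by linarith) (by linarith)
        _ = Real.log 2 + Real.log M := Real.log_mul (by norm_num) (by linarith)
        _ ≤ 1 + K * (δ * u) ^ 2 := by
          rw [lM]
          have := Real.log_two_lt_d9
          linarith
    have hlM0 : 0 ≤ Real.log (M + 1) := Real.log_nonneg (by linarith)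
    have hsq : Real.log (M + 1) ^ 2 ≤ 2 + 2 * (K ^ 2 * δ ^ 4 * u ^ 4) := by
      calc Real.log (M + 1) ^ 2 ≤ (1 + K * (δ * u) ^ 2) ^ 2 := by gcongr
        _ ≤ 2 + 2 * (K * (δ * u) ^ 2) ^ 2 := by nlinarith [sq_nonneg (1 - K * (δ * u) ^ 2)]
        _ = _ := by ring
    have hfin : C5 * Real.log (M + 1) ^ 2 ≤ 2 * C5 + c0 / 2 * u ^ 4 := by
      calc C5 * Real.log (M + 1) ^ 2 ≤ C5 * (2 + 2 * (K ^ 2 * δ ^ 4 * u ^ 4)) := by gcongr
        _ = 2 * C5 + (2 * C5 * K ^ 2 * δ ^ 4) * u ^ 4 := by ring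
        _ ≤ 2 * C5 + c0 / 2 * u ^ 4 := by gcongr
    calc C5 * X * Real.exp (C5 * Real.log (M + 1) ^ 2) * Real.exp (-(c0 * u ^ 4))
        = C5 * X * Real.exp (C5 * Real.log (M + 1) ^ 2 - c0 * u ^ 4) := by
          rw [mul_assoc, ← Real.exp_add]; congr 2
      _ ≤ C5 * X * Real.exp (2 * C5 + -(δ / 2) * u) := by
        gcongr
        have : δ / 2 * u ≤ c0 / 2 * u ^ 4 := mul_le_mul (by linarith) hu4 hu0 (by positivity)
        linarith
      _ = C5 * Real.exp (2 * C5) * (X * Real.exp (-(δ / 2) * u)) := by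
        rw [Real.exp_add]; ring
  calc (S.card : ℝ) ≤ B1.card + (B2.card + (B3.card + B4.card)) := hcard
    _ ≤ X * Real.exp (-(δ / 2) * u) + (X * Real.exp (-(δ / 2) * u) +
        (C4 * C6 * (X * Real.exp (-(δ / 2) * u)) +
          C5 * Real.exp (2 * C5) * (X * Real.exp (-(δ / 2) * u)))) := by
      gcongr
    _ = (2 + C4 * C6 + C5 * Real.exp (2 * C5)) * X * Real.exp (-(δ / 2) * u) := by ring
    _ ≤ C' * X * Real.exp (-(δ / 2) * u) := by
      gcongr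
      rw [hC']; linarith

end Pool.Agent.NV

end
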