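import Pool.Agent.Lib_helper77.VC.Defs

/-!
# Knot diagrams

`IsKnot D`: the closure of the cut, sliced diagram `D` is a knot.
-/

set_option autoImplicit false

namespace Pool.Agent.NV

open Pool.Agent.Lib_helper77.VC

/-- `s`, `s'` are labels of the strands below and above the piece `P` (from left to right),
constant along the strands passing through `P`: a twist region with `a` half twists exchanges the
strands number `p`, `p + 1` if `a` is odd. `r x y`: the left and the right strand of a minimum or
maximum may have the labels `x`, `y`. -/
def Fits {α : Type} (r : α → α → Prop) : Piece → List α → List α → Prop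
  | .twist p a, s, s' => ∃ u x y w, u.length = p ∧ s = u ++ x :: y :: w ∧
      s' = if Even a then s else u ++ y :: x :: w
  | .cup p, s, s' => ∃ u x y w, u.length = p ∧ s = u ++ w ∧ s' = u ++ x :: y :: w ∧ r x y
  | .cap p, s, s' => ∃ u x y w, u.length = p ∧ s = u ++ x :: y :: w ∧ s' = u ++ w ∧ r x y

/-- `L` lists labels of the strands at all heights of the diagram, from bottom to top. -/
def Labels {α : Type} (r : α → α → Prop) : List Piece → List (List α) → Prop
  | [], L => ∃ s, L = [s]
  | P :: D, L => ∃ s s' L', L = s :: s' :: L' ∧ Fits r P s s' ∧ Labels r D (s' :: L')

/-- The closure of the cut diagram `D` is a knot: its strands can be oriented (`true`: upwards) so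
that the strand at the bottom goes up and one of the two strands goes up, the other one down, at
each minimum and maximum; and every labelling (with two labels) which is constant along the
strands is constant, i.e. there is only one strand. -/
def IsKnot (D : Diagram) : Prop :=
  (∃ L : List (List Bool), Labels (fun x y => y = !x) D.pieces ([true] :: L)) ∧
    ∀ (x : Bool) (L : List (List Bool)), Labels (fun x y => y = x) D.pieces ([x] :: L) →
      ∀ s ∈ L, ∀ y ∈ s, y = x

end Pool.Agent.NV
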