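import Pool.Agent.Lib_helper43.NV.F3
import Pool.Agent.Lib_helper43.NV.F4

set_option autoImplicit false

section

namespace Pool.Agent.NV

open Pool.Agent.Lib_helper77.VC Polynomial Finset ArithmeticFunction

/-- The theorem. -/
theorem main (D : Diagram) (h : IsKnot D) : ∃ c C : ℝ, 0 < c ∧ 0 < C ∧
    (∀ X : ℕ, 2 ≤ X → ({N : ℕ | 1 ≤ N ∧ N ≤ X ∧ kashaev N D = 0}.ncard : ℝ) ≤
      C * X * Real.exp (-c * Real.log X ^ (1 / 8 : ℝ))) ∧
    (∀ m : ℕ, 1 ≤ m → kashaev m D ≠ 0 → ∀ F : Finset ℕ,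
      (∀ q ∈ F, IsPrimePow q ∧ q.Coprime m ∧ kashaev (m * q) D = 0) →
        ∑ q ∈ F, vonMangoldt q ≤ C * Real.log (m + 1) ^ 4) ∧
    (∀ m : ℕ, 1 ≤ m → ∀ F : Finset ℕ,
      (∀ q ∈ F, IsPrimePow q ∧ q.Coprime m ∧ kashaev (m * q) D = 0) →
        ∑ q ∈ F, vonMangoldt q ≤ Real.exp (C * Real.log (m + 1) ^ 2)) ∧
    (∀ N : ℕ, 2 ≤ N → kashaev N D ≠ 0 →
      |Real.log ‖kashaev N D‖| ≤ C * N * Real.log N ^ 3) := by
  obtain ⟨d⟩ := nvdata D h
  obtain ⟨C, hC, a1, a2, a3⟩ := arith d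
  obtain ⟨c, hc, C', hC', hk⟩ := count {N | kashaev N D = 0} C hC (fun m hm hm0 F hF =>
    a1 m hm hm0 F hF) (fun m hm F hF => a2 m hm F hF)
  refine ⟨c, max C C', hc, lt_of_lt_of_le one_pos (le_max_of_le_left hC), ?_, ?_, ?_, ?_⟩
  · intro X hX
    refine (hk X hX).trans ?_
    gcongr
    exact le_max_right _ _
  · intro m hm h0 F hF
    refine (a1 m hm h0 F hF).trans ?_
    have : 0 ≤ Real.log ((m : ℝ) + 1) := Real.log_nonneg (by linarith [(Nat.cast_nonneg m : (0:ℝ) ≤ m)])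
    gcongr
    exact le_max_left _ _
  · intro m hm F hF
    refine (a2 m hm F hF).trans ?_
    gcongr
    exact le_max_left _ _
  · intro N hN h0
    refine (a3 N hN h0).trans ?_
    have : 0 ≤ Real.log (N : ℝ) := Real.log_nonneg (by exact_mod_cast (by omega : 1 ≤ N))
    gcongr
    exact le_max_left _ _

end Pool.Agent.NV

end
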